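import Pool.Agent.H82.Cor.AreaF

/-!
# Areas of wedges in the frame of a vector
-/

open MeasureTheory Set Metric

namespace Pool.Agent.H82.Cor

/-- The area between two graphs over the second coordinate. -/
lemma vol_between {f g : ℝ → ℝ} (hf : Continuous f) (hg : Continuous g) {u v : ℝ} (huv : u ≤ v)
    (hfg : ∀ y, u ≤ y → y ≤ v → f y ≤ g y) :
    MeasurableSet {p : ℝ × ℝ | f p.2 < p.1 ∧ p.1 ≤ g p.2 ∧ u ≤ p.2 ∧ p.2 ≤ v} ∧
    volume {p : ℝ × ℝ | f p.2 < p.1 ∧ p.1 ≤ g p.2 ∧ u ≤ p.2 ∧ p.2 ≤ v} =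
      ENNReal.ofReal (∫ y in u..v, (g y - f y)) := by
  have hmeas : MeasurableSet {p : ℝ × ℝ | f p.2 < p.1 ∧ p.1 ≤ g p.2 ∧ u ≤ p.2 ∧ p.2 ≤ v} := by
    have m1 : MeasurableSet {p : ℝ × ℝ | f p.2 < p.1} :=
      (isOpen_lt (hf.comp continuous_snd) continuous_fst).measurableSet
    have m2 : MeasurableSet {p : ℝ × ℝ | p.1 ≤ g p.2} :=
      (isClosed_le continuous_fst (hg.comp continuous_snd)).measurableSet
    have m3 : MeasurableSet {p : ℝ × ℝ | u ≤ p.2} :=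
      (isClosed_le continuous_const continuous_snd).measurableSet
    have m4 : MeasurableSet {p : ℝ × ℝ | p.2 ≤ v} :=
      (isClosed_le continuous_snd continuous_const).measurableSet
    exact m1.inter (m2.inter (m3.inter m4))
  refine ⟨hmeas, ?_⟩
  rw [Measure.volume_eq_prod, Measure.prod_apply_symm hmeas]
  have hsl : ∀ y : ℝ, volume ((fun x : ℝ => (x, y)) ⁻¹'
      {p : ℝ × ℝ | f p.2 < p.1 ∧ p.1 ≤ g p.2 ∧ u ≤ p.2 ∧ p.2 ≤ v}) =
      (Icc u v).indicator (fun y => ENNReal.ofReal (g y - f y)) y := by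
    intro y
    by_cases hy : y ∈ Icc u v
    · rw [Set.indicator_of_mem hy]
      have : ((fun x : ℝ => (x, y)) ⁻¹'
          {p : ℝ × ℝ | f p.2 < p.1 ∧ p.1 ≤ g p.2 ∧ u ≤ p.2 ∧ p.2 ≤ v}) = Ioc (f y) (g y) := by
        ext x
        simp only [Set.mem_preimage, Set.mem_setOf_eq, Set.mem_Ioc]
        exact ⟨fun h => ⟨h.1, h.2.1⟩, fun h => ⟨h.1, h.2, hy.1, hy.2⟩⟩
      rw [this, Real.volume_Ioc]
    · rw [Set.indicator_of_notMem hy]
      have : ((fun x : ℝ => (x, y)) ⁻¹'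
          {p : ℝ × ℝ | f p.2 < p.1 ∧ p.1 ≤ g p.2 ∧ u ≤ p.2 ∧ p.2 ≤ v}) = ∅ := by
        ext x
        simp only [Set.mem_preimage, Set.mem_setOf_eq, Set.mem_empty_iff_false, iff_false]
        exact fun h => hy ⟨h.2.2.1, h.2.2.2⟩
      rw [this, measure_empty]
  simp only [hsl]
  rw [lintegral_indicator measurableSet_Icc, intervalIntegral.integral_of_le huv,
    ← integral_Icc_eq_integral_Ioc, ofReal_integral_eq_lintegral_ofReal]
  · exact (hg.sub hf).continuousOn.integrableOn_compact isCompact_Icc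
  · refine (ae_restrict_iff' measurableSet_Icc).mpr (Filter.Eventually.of_forall fun y hy => ?_)
    simpa using hfg y hy.1 hy.2

theorem area_wedge {ε : ℝ} (hε : ε ^ 2 = 1) {a : ℂ} (ha : a ≠ 0) {η c q : ℝ} (hη : 0 ≤ η)
    (hc : c ≤ q) :
    volume.real {x : ℂ | 1 < ip a x ∧ ip a x ≤ 1 + η * (sc ε a x - c) ∧ c ≤ sc ε a x ∧
      sc ε a x ≤ q} = 1 / ip a a * (η * (q - c) ^ 2 / 2) := by
  have hb := vol_between (f := fun _ => (1 : ℝ)) (g := fun y => 1 + η * (y - c))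
    continuous_const (by fun_prop) hc (fun y hy _ => by
      have : 0 ≤ η * (y - c) := mul_nonneg hη (by linarith)
      linarith)
  have hfr := area_frame hε ha _ hb.1
  rw [hb.2] at hfr
  have hint : ∫ y in c..q, ((fun y => 1 + η * (y - c)) y - (fun _ => (1 : ℝ)) y) =
      η * (q - c) ^ 2 / 2 := by
    have e : ∀ y : ℝ, (fun y => 1 + η * (y - c)) y - (fun _ => (1 : ℝ)) y = η * (y - c) := by
      intro y; simp
    simp only [e]
    rw [intervalIntegral.integral_const_mul,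
      intervalIntegral.integral_comp_sub_right (fun y => y) c]
    simp
    ring
  rw [hint] at hfr
  have hset : {x : ℂ | 1 < ip a x ∧ ip a x ≤ 1 + η * (sc ε a x - c) ∧ c ≤ sc ε a x ∧
      sc ε a x ≤ q} = {x : ℂ | (ip a x, sc ε a x) ∈ {p : ℝ × ℝ | (fun _ => (1 : ℝ)) p.2 < p.1 ∧
        p.1 ≤ (fun y => 1 + η * (y - c)) p.2 ∧ c ≤ p.2 ∧ p.2 ≤ q}} := rfl
  rw [hset, Measure.real, hfr, ← ENNReal.ofReal_mul (by
    have := ip_self_pos ha
    positivity), ENNReal.toReal_ofReal]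
  have := ip_self_pos ha
  positivity

theorem area_wedge' {ε : ℝ} (hε : ε ^ 2 = 1) {a : ℂ} (ha : a ≠ 0) {η c p : ℝ} (hη : 0 ≤ η)
    (hpc : p ≤ c) :
    volume.real {x : ℂ | 1 + η * (sc ε a x - c) < ip a x ∧ ip a x ≤ 1 ∧ p ≤ sc ε a x ∧
      sc ε a x ≤ c} = 1 / ip a a * (η * (c - p) ^ 2 / 2) := by
  have hb := vol_between (g := fun _ => (1 : ℝ)) (f := fun y => 1 + η * (y - c))
    (by fun_prop) continuous_const hpc (fun y _ hy => by
      have : 0 ≤ η * (c - y) := mul_nonneg hη (by linarith)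
      nlinarith)
  have hfr := area_frame hε ha _ hb.1
  rw [hb.2] at hfr
  have hint : ∫ y in p..c, ((fun _ => (1 : ℝ)) y - (fun y => 1 + η * (y - c)) y) =
      η * (c - p) ^ 2 / 2 := by
    have e : ∀ y : ℝ, (fun _ => (1 : ℝ)) y - (fun y => 1 + η * (y - c)) y = -η * (y - c) := by
      intro y; simp
    simp only [e]
    rw [intervalIntegral.integral_const_mul,
      intervalIntegral.integral_comp_sub_right (fun y => y) c]
    simp
    ring
  rw [hint] at hfr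
  have hset : {x : ℂ | 1 + η * (sc ε a x - c) < ip a x ∧ ip a x ≤ 1 ∧ p ≤ sc ε a x ∧
      sc ε a x ≤ c} = {x : ℂ | (ip a x, sc ε a x) ∈ {z : ℝ × ℝ |
        (fun y => 1 + η * (y - c)) z.2 < z.1 ∧
        z.1 ≤ (fun _ => (1 : ℝ)) z.2 ∧ p ≤ z.2 ∧ z.2 ≤ c}} := rfl
  rw [hset, Measure.real, hfr, ← ENNReal.ofReal_mul (by
    have := ip_self_pos ha
    positivity), ENNReal.toReal_ofReal]
  have := ip_self_pos ha
  positivity

end Pool.Agent.H82.Cor
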