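import Pool.Agent.H82.Cor.Basic

/-!
# Areas in the frame of a vector
-/

open MeasureTheory Set Metric

namespace Pool.Agent.H82.Cor

theorem area_frame {ε : ℝ} (hε : ε ^ 2 = 1) {a : ℂ} (ha : a ≠ 0) (P : Set (ℝ × ℝ))
    (hP : MeasurableSet P) :
    volume {x : ℂ | (ip a x, sc ε a x) ∈ P} = ENNReal.ofReal (1 / ip a a) * volume P := by
  have hm : 0 < ip a a := ip_self_pos ha
  let M : Matrix (Fin 2) (Fin 2) ℝ := !![a.re, a.im; -ε * a.im, ε * a.re]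
  let g : ℂ →ₗ[ℝ] ℂ := Matrix.toLin Complex.basisOneI Complex.basisOneI M
  have hdet : LinearMap.det g = ε * ip a a := by
    have h1 : LinearMap.det g = M.det := LinearMap.det_toLin Complex.basisOneI M
    rw [h1, Matrix.det_fin_two_of, ip]
    ring
  have hε1 : |ε| = 1 := by
    have h2 : |ε| ^ 2 = 1 := by rw [sq_abs, hε]
    nlinarith [abs_nonneg ε]
  have hε0 : ε ≠ 0 := by
    intro h
    rw [h] at hε
    norm_num at hε
  have hne : LinearMap.det g ≠ 0 := by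
    rw [hdet]
    exact mul_ne_zero hε0 hm.ne'
  have hg : ∀ x : ℂ, g x = ⟨ip a x, sc ε a x⟩ := by
    intro x
    have h3 : g x = ((a.re * x.re + a.im * x.im : ℝ) : ℂ) +
        ((-ε * a.im * x.re + ε * a.re * x.im : ℝ) : ℂ) * Complex.I := by
      simp only [g, Matrix.toLin_apply, Complex.coe_basisOneI_repr, Complex.coe_basisOneI,
        Fin.sum_univ_two, M, Matrix.mulVec, dotProduct]
      simp
    rw [h3]
    apply Complex.ext
    · simp [ip]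
    · simp only [sc, Complex.add_im, Complex.ofReal_im, Complex.mul_im, Complex.ofReal_re,
        Complex.I_im, Complex.I_re]
      ring
  have hset : {x : ℂ | (ip a x, sc ε a x) ∈ P} =
      g ⁻¹' (Complex.measurableEquivRealProd ⁻¹' P) := by
    ext x
    simp only [mem_ofPred_eq, mem_preimage, hg, Complex.measurableEquivRealProd_apply]
  rw [hset, Measure.addHaar_preimage_linearMap volume hne,
    Complex.volume_preserving_equiv_real_prod.measure_preimage hP.nullMeasurableSet, hdet]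
  congr 2
  rw [abs_inv, abs_mul, hε1, one_mul, abs_of_pos hm, one_div]

/-- The elliptic cap. -/
theorem area_cap {ε : ℝ} (hε : ε ^ 2 = 1) {a : ℂ} (ha : a ≠ 0) {μ : ℝ} (hμ : 0 < μ) :
    volume.real {x : ℂ | 1 < ip a x ∧ 0 < sc ε a x ∧ ip a x ^ 2 + sc ε a x ^ 2 / μ ≤ ip a a} =
      √μ * volume.real {x : ℂ | 1 < ip a x ∧ 0 < sc ε a x ∧ ip a x ^ 2 + sc ε a x ^ 2 ≤ ip a a} := by
  have hs : 0 < √μ := Real.sqrt_pos.mpr hμ
  have hsq : √μ ^ 2 = μ := Real.sq_sqrt hμ.le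
  have hmeas : ∀ ν : ℝ, MeasurableSet
      {p : ℝ × ℝ | 1 < p.1 ∧ 0 < p.2 ∧ p.1 ^ 2 + p.2 ^ 2 / ν ≤ ip a a} := by
    intro ν
    have m1 : MeasurableSet {p : ℝ × ℝ | 1 < p.1} := measurableSet_lt measurable_const measurable_fst
    have m2 : MeasurableSet {p : ℝ × ℝ | 0 < p.2} := measurableSet_lt measurable_const measurable_snd
    have m3 : MeasurableSet {p : ℝ × ℝ | p.1 ^ 2 + p.2 ^ 2 / ν ≤ ip a a} :=
      measurableSet_le (by fun_prop) measurable_const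
    exact m1.inter (m2.inter m3)
  have h1 := area_frame hε ha _ (hmeas μ)
  have h2 := area_frame hε ha _ (hmeas 1)
  have h3 : volume {p : ℝ × ℝ | 1 < p.1 ∧ 0 < p.2 ∧ p.1 ^ 2 + p.2 ^ 2 / μ ≤ ip a a} =
      ENNReal.ofReal √μ *
        volume {p : ℝ × ℝ | 1 < p.1 ∧ 0 < p.2 ∧ p.1 ^ 2 + p.2 ^ 2 / 1 ≤ ip a a} := by
    rw [Measure.volume_eq_prod, Measure.prod_apply (hmeas μ), Measure.prod_apply (hmeas 1),
      ← lintegral_const_mul' _ _ ENNReal.ofReal_ne_top]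
    refine lintegral_congr fun u => ?_
    have h4 : Prod.mk u ⁻¹' {p : ℝ × ℝ | 1 < p.1 ∧ 0 < p.2 ∧ p.1 ^ 2 + p.2 ^ 2 / μ ≤ ip a a} =
        ((√μ)⁻¹ * ·) ⁻¹'
          (Prod.mk u ⁻¹' {p : ℝ × ℝ | 1 < p.1 ∧ 0 < p.2 ∧ p.1 ^ 2 + p.2 ^ 2 / 1 ≤ ip a a}) := by
      ext s
      simp only [mem_preimage, mem_ofPred_eq, div_one, mul_pow, inv_pow, hsq]
      rw [mul_pos_iff_of_pos_left (inv_pos.mpr hs), div_eq_inv_mul]
    rw [h4, Real.volume_preimage_mul_left (inv_ne_zero hs.ne'), inv_inv, abs_of_pos hs]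
  have h5 : {x : ℂ | 1 < ip a x ∧ 0 < sc ε a x ∧ ip a x ^ 2 + sc ε a x ^ 2 ≤ ip a a} =
      {x : ℂ | (ip a x, sc ε a x) ∈
        {p : ℝ × ℝ | 1 < p.1 ∧ 0 < p.2 ∧ p.1 ^ 2 + p.2 ^ 2 / 1 ≤ ip a a}} := by
    ext x
    simp only [mem_ofPred_eq, div_one]
  rw [h5]
  have h6 : {x : ℂ | 1 < ip a x ∧ 0 < sc ε a x ∧ ip a x ^ 2 + sc ε a x ^ 2 / μ ≤ ip a a} =
      {x : ℂ | (ip a x, sc ε a x) ∈
        {p : ℝ × ℝ | 1 < p.1 ∧ 0 < p.2 ∧ p.1 ^ 2 + p.2 ^ 2 / μ ≤ ip a a}} := rfl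
  rw [h6, Measure.real, Measure.real, h1, h2, h3, ← mul_assoc,
    mul_comm (ENNReal.ofReal (1 / ip a a)), mul_assoc, ENNReal.toReal_mul,
    ENNReal.toReal_ofReal hs.le]

end Pool.Agent.H82.Cor
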