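import Mathlib

/-!
# The inequality of Cordero-Erausquin in the plane: basic definitions
-/

open MeasureTheory Set Metric

namespace Pool.Agent.H82.Cor

/-- The real inner product of the plane. -/
def ip (x y : ℂ) : ℝ := x.re * y.re + x.im * y.im

/-- The oriented area form, with orientation `ε = ± 1`. -/
def sc (ε : ℝ) (x y : ℂ) : ℝ := ε * (x.re * y.im - x.im * y.re)

/-- The point `x` with `ip a x = 1` and `sc ε a x = s`. -/
noncomputable def pt (ε : ℝ) (a : ℂ) (s : ℝ) : ℂ :=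
  ⟨(a.re - ε * s * a.im) / ip a a, (a.im + ε * s * a.re) / ip a a⟩

/-- The unit disc. -/
def Bu : Set ℂ := {x | ip x x ≤ 1}

/-- The body cut out of the disc of radius `R` by the half planes of `A`. -/
def Tb (R : ℝ) (A : Finset ℂ) : Set ℂ := {x | ip x x ≤ R ^ 2 ∧ ∀ a ∈ A, ip a x ≤ 1}

/-- The body cut out of the disc of radius `R` by the strips of `w`. -/
def Tw (R : ℝ) {N : ℕ} (w : Fin N → ℂ) : Set ℂ := {x | ip x x ≤ R ^ 2 ∧ ∀ i, |ip (w i) x| ≤ 1}

/-- The part of an ellipse beyond the line of `a`. -/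
def cap (ε : ℝ) (a : ℂ) (μ : ℝ) : Set ℂ :=
  {x | 1 < ip a x ∧ 0 < sc ε a x ∧ ip a x ^ 2 + sc ε a x ^ 2 / μ ≤ ip a a}

/-- The geometric facts about a maximizer, as used in the extension argument. -/
structure Dat (R : ℝ) (A : Finset ℂ) (K L : Set ℂ) : Prop where
  hR : 1 ≤ R
  sym : ∀ a ∈ A, -a ∈ A
  symK : ∀ x ∈ K, -x ∈ K
  symL : ∀ x ∈ L, -x ∈ L
  fK : K = {x | x ∈ Tb R A ∧ ∀ y ∈ L, ip x y ≤ 1}
  fL : L = {y | y ∈ Tb R A ∧ ∀ x ∈ K, ip x y ≤ 1}
  f2 : ∀ a ∈ A, ∃ x ∈ Tb R A, ∃ y ∈ Tb R A, x ≠ y ∧ ip a x = 1 ∧ ip a y = 1 ∧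
    ip x x < 1 ∧ ip y y < 1
  f3K : ∀ a ∈ A, ∀ ε : ℝ, ε ^ 2 = 1 → ∀ σ l : ℝ, 0 < σ → pt ε a σ ∈ Tb R A →
    (∀ s, pt ε a s ∈ Tb R A → σ ≤ s) → σ ^ 2 < ip a a - 1 → pt ε a l ∈ L →
    ip a a - 1 < l ^ 2 → (∀ x ∈ K, ip a x ≠ 1) → False
  f3L : ∀ a ∈ A, ∀ ε : ℝ, ε ^ 2 = 1 → ∀ σ l : ℝ, 0 < σ → pt ε a σ ∈ Tb R A →
    (∀ s, pt ε a s ∈ Tb R A → σ ≤ s) → σ ^ 2 < ip a a - 1 → pt ε a l ∈ K →
    ip a a - 1 < l ^ 2 → (∀ x ∈ L, ip a x ≠ 1) → False

/-- Admissible pairs. -/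
def Adm (R : ℝ) {N : ℕ} (w : Fin N → ℂ) (K L : Set ℂ) : Prop :=
  IsCompact K ∧ IsCompact L ∧ K ⊆ Tw R w ∧ L ⊆ Tw R w ∧ ∀ x ∈ K, ∀ y ∈ L, |ip x y| ≤ 1

/-- The difference of the two sides. -/
noncomputable def Phi (R : ℝ) {N : ℕ} (w : Fin N → ℂ) (K L : Set ℂ) : ℝ :=
  √(volume.real K * volume.real L) - volume.real (Bu ∩ Tw R w)

/-- A maximizer with positive value. -/
structure IsMx (R : ℝ) {N : ℕ} (w : Fin N → ℂ) (K L : Set ℂ) : Prop where
  adm : Adm R w K L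
  pos : 0 < Phi R w K L
  max : ∀ (w' : Fin N → ℂ) (K' L' : Set ℂ), Adm R w' K' L' → Phi R w' K' L' ≤ Phi R w K L

/-- The inequality for bodies cut out of a disc by `N` strips. -/
def PN (R : ℝ) (N : ℕ) : Prop := ∀ (w : Fin N → ℂ) (K L : Set ℂ), IsCompact K → IsCompact L →
  K ⊆ Tw R w → L ⊆ Tw R w → (∀ x ∈ K, ∀ y ∈ L, |ip x y| ≤ 1) →
  √(volume.real K * volume.real L) ≤ volume.real (Bu ∩ Tw R w)

lemma ip_comm (x y : ℂ) : ip x y = ip y x := by simp only [ip]; ring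

lemma ip_neg_left (x y : ℂ) : ip (-x) y = -ip x y := by
  simp only [ip, Complex.neg_re, Complex.neg_im]; ring

lemma ip_neg_right (x y : ℂ) : ip x (-y) = -ip x y := by
  simp only [ip, Complex.neg_re, Complex.neg_im]; ring

lemma ip_add_right (x y z : ℂ) : ip x (y + z) = ip x y + ip x z := by
  simp only [ip, Complex.add_re, Complex.add_im]; ring

lemma ip_smul_right (r : ℝ) (x y : ℂ) : ip x ((r : ℂ) * y) = r * ip x y := by
  simp [ip]; ring

lemma ip_smul_left (r : ℝ) (x y : ℂ) : ip ((r : ℂ) * x) y = r * ip x y := by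
  simp [ip]; ring

lemma sc_neg_left (ε : ℝ) (x y : ℂ) : sc ε (-x) y = -sc ε x y := by
  simp only [sc, Complex.neg_re, Complex.neg_im]; ring

lemma sc_neg_right (ε : ℝ) (x y : ℂ) : sc ε x (-y) = -sc ε x y := by
  simp only [sc, Complex.neg_re, Complex.neg_im]; ring

lemma sc_neg_eps (ε : ℝ) (x y : ℂ) : sc (-ε) x y = -sc ε x y := by
  simp only [sc]; ring

lemma sc_swap (ε : ℝ) (x y : ℂ) : sc ε y x = -sc ε x y := by
  simp only [sc]; ring

lemma ip_self (x : ℂ) : ip x x = ‖x‖ ^ 2 := by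
  rw [← Complex.normSq_eq_norm_sq, Complex.normSq_apply, ip]

lemma ip_self_nonneg (x : ℂ) : 0 ≤ ip x x := by
  rw [ip_self]; positivity

lemma ip_self_pos {x : ℂ} (hx : x ≠ 0) : 0 < ip x x := by
  rw [ip_self]
  have := norm_pos_iff.mpr hx
  positivity

lemma ip_cs (x y : ℂ) : ip x y ^ 2 ≤ ip x x * ip y y := by
  simp only [ip]
  nlinarith [sq_nonneg (x.re * y.im - x.im * y.re)]

lemma continuous_ip : Continuous (fun p : ℂ × ℂ => ip p.1 p.2) := by
  unfold ip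
  fun_prop

lemma continuous_ip_right (a : ℂ) : Continuous (fun x : ℂ => ip a x) := by
  unfold ip
  fun_prop

lemma continuous_ip_left (a : ℂ) : Continuous (fun x : ℂ => ip x a) := by
  unfold ip
  fun_prop

lemma continuous_ip_self : Continuous (fun x : ℂ => ip x x) := by
  unfold ip
  fun_prop

lemma continuous_sc (ε : ℝ) (a : ℂ) : Continuous (fun x : ℂ => sc ε a x) := by
  unfold sc
  fun_prop

/-- The fundamental identity of coordinates. -/
lemma ip_mul {ε : ℝ} (hε : ε ^ 2 = 1) (a x y : ℂ) :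
    ip a a * ip x y = ip a x * ip a y + sc ε a x * sc ε a y := by
  simp only [ip, sc]
  linear_combination (-(a.re * x.im - a.im * x.re) * (a.re * y.im - a.im * y.re)) * hε

lemma sc_mul {ε : ℝ} (a x y : ℂ) :
    ip a a * sc ε x y = ip a x * sc ε a y - sc ε a x * ip a y := by
  simp only [ip, sc]
  ring

lemma ip_pt {ε : ℝ} {a : ℂ} (ha : ip a a ≠ 0) (s : ℝ) : ip a (pt ε a s) = 1 := by
  have h : ip a (pt ε a s) = (a.re * (a.re - ε * s * a.im) + a.im * (a.im + ε * s * a.re)) /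
      ip a a := by
    simp only [pt, ip]
    ring
  rw [h, div_eq_iff ha]
  simp only [ip]
  ring

lemma sc_pt {ε : ℝ} (hε : ε ^ 2 = 1) {a : ℂ} (ha : ip a a ≠ 0) (s : ℝ) :
    sc ε a (pt ε a s) = s := by
  have h : sc ε a (pt ε a s) = (ε * (a.re * (a.im + ε * s * a.re) -
      a.im * (a.re - ε * s * a.im))) / ip a a := by
    simp only [pt, sc, ip]
    ring
  rw [h, div_eq_iff ha]
  simp only [ip]
  linear_combination (s * (a.re * a.re + a.im * a.im)) * hε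

/-- A point of the line `ip a x = 1` is `pt ε a (sc ε a x)`. -/
lemma eq_pt {ε : ℝ} (hε : ε ^ 2 = 1) {a x : ℂ} (ha : ip a a ≠ 0) (hx : ip a x = 1) :
    x = pt ε a (sc ε a x) := by
  have h1 : ip a a * x.re = a.re * ip a x - ε * sc ε a x * a.im := by
    simp only [ip, sc]
    linear_combination ((a.re * x.im - a.im * x.re) * a.im) * hε
  have h2 : ip a a * x.im = a.im * ip a x + ε * sc ε a x * a.re := by
    simp only [ip, sc]
    linear_combination (-(a.re * x.im - a.im * x.re) * a.re) * hε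
  rw [hx, mul_one] at h1 h2
  apply Complex.ext
  · simp only [pt]
    rw [eq_div_iff ha]
    linarith
  · simp only [pt]
    rw [eq_div_iff ha]
    linarith

lemma ip_pt_left {ε : ℝ} (hε : ε ^ 2 = 1) {a : ℂ} (ha : ip a a ≠ 0) (s : ℝ) (y : ℂ) :
    ip a a * ip (pt ε a s) y = ip a y + s * sc ε a y := by
  rw [ip_mul hε, ip_pt ha, sc_pt hε ha]
  ring

lemma ip_pt_self {ε : ℝ} (hε : ε ^ 2 = 1) {a : ℂ} (ha : ip a a ≠ 0) (s : ℝ) :
    ip a a * ip (pt ε a s) (pt ε a s) = 1 + s ^ 2 := by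
  rw [ip_pt_left hε ha, ip_pt ha, sc_pt hε ha]
  ring

lemma pt_neg (ε : ℝ) (a : ℂ) (s : ℝ) : pt ε (-a) s = -pt ε a s := by
  apply Complex.ext
  · simp only [pt, ip, Complex.neg_re, Complex.neg_im, neg_mul_neg]
    ring
  · simp only [pt, ip, Complex.neg_re, Complex.neg_im, neg_mul_neg]
    ring

lemma pt_neg_eps (ε : ℝ) (a : ℂ) (s : ℝ) : pt (-ε) a s = pt ε a (-s) := by
  apply Complex.ext
  · simp only [pt, ip]
    ring
  · simp only [pt, ip]
    ring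

lemma continuous_pt (ε : ℝ) (a : ℂ) : Continuous (fun s : ℝ => pt ε a s) := by
  have : (fun s : ℝ => pt ε a s) = fun s : ℝ => (((a.re - ε * s * a.im) / ip a a : ℝ) : ℂ) +
      (((a.im + ε * s * a.re) / ip a a : ℝ) : ℂ) * Complex.I := by
    funext s
    apply Complex.ext <;> simp [pt]
  rw [this]
  fun_prop

lemma Bu_eq : Bu = closedBall (0 : ℂ) 1 := by
  ext x
  simp only [Bu, mem_ofPred_eq, ip_self, mem_closedBall, dist_zero_right]
  constructor
  · intro h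
    nlinarith [norm_nonneg x]
  · intro h
    nlinarith [norm_nonneg x]

lemma closed_ip_self (r : ℝ) : IsClosed {x : ℂ | ip x x ≤ r} :=
  isClosed_le continuous_ip_self continuous_const

lemma isClosed_Tb (R : ℝ) (A : Finset ℂ) : IsClosed (Tb R A) := by
  have : Tb R A = {x | ip x x ≤ R ^ 2} ∩ ⋂ a ∈ A, {x | ip a x ≤ 1} := by
    ext x; simp [Tb]
  rw [this]
  refine (closed_ip_self _).inter (isClosed_biInter fun a _ => ?_)
  exact isClosed_le (continuous_ip_right a) continuous_const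

lemma isClosed_Tw (R : ℝ) {N : ℕ} (w : Fin N → ℂ) : IsClosed (Tw R w) := by
  have : Tw R w = {x | ip x x ≤ R ^ 2} ∩ ⋂ i, {x | |ip (w i) x| ≤ 1} := by
    ext x; simp [Tw]
  rw [this]
  refine (closed_ip_self _).inter (isClosed_iInter fun i => ?_)
  exact isClosed_le (continuous_ip_right _).abs continuous_const

lemma disc_subset {R : ℝ} (hR : 0 ≤ R) : {x : ℂ | ip x x ≤ R ^ 2} = closedBall (0 : ℂ) R := by
  ext x
  simp only [mem_ofPred_eq, ip_self, mem_closedBall, dist_zero_right]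
  constructor
  · intro h
    exact le_of_sq_le_sq h hR
  · intro h
    exact pow_le_pow_left₀ (norm_nonneg x) h 2

lemma isCompact_Tb {R : ℝ} (hR : 0 ≤ R) (A : Finset ℂ) : IsCompact (Tb R A) :=
  (isCompact_closedBall (0 : ℂ) R).of_isClosed_subset (isClosed_Tb R A)
    (fun _ hx => disc_subset hR ▸ hx.1)

lemma isCompact_Tw {R : ℝ} (hR : 0 ≤ R) {N : ℕ} (w : Fin N → ℂ) : IsCompact (Tw R w) :=
  (isCompact_closedBall (0 : ℂ) R).of_isClosed_subset (isClosed_Tw R w)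
    (fun _ hx => disc_subset hR ▸ hx.1)

end Pool.Agent.H82.Cor
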