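import Pool.Agent.H82.Cor.Geo0

/-!
# The caps of the extended bodies
-/

open MeasureTheory Set Metric

namespace Pool.Agent.H82.Cor

variable {R : ℝ} {A : Finset ℂ} {K L : Set ℂ}

/-- The elementary facts on a cap. -/
lemma cap_basic {ε : ℝ} {a : ℂ} {k l : ℝ} (hk : 0 < k) (hl : 0 < l)
    (hkl : k * l = ip a a - 1) {x : ℂ} (hx : x ∈ cap ε a (k / l)) :
    1 < ip a x ∧ 0 < sc ε a x ∧ sc ε a x < k ∧ ip a x + l * sc ε a x ≤ ip a a ∧
      ip a x ^ 2 ≤ ip a a ∧
      k * ip a x ^ 2 + l * sc ε a x ^ 2 ≤ k * ip a a := by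
  obtain ⟨h1, h2, h3⟩ := hx
  set U := ip a x
  set S := sc ε a x
  set m := ip a a
  have ht : k * (S ^ 2 / (k / l)) = l * S ^ 2 := by
    field_simp
  have h4 : k * U ^ 2 + l * S ^ 2 ≤ k * m := by
    have := mul_le_mul_of_nonneg_left h3 hk.le
    nlinarith
  have h5 : S < k := by
    by_contra hcon
    push Not at hcon
    have h6 : k ^ 2 ≤ S ^ 2 := by nlinarith
    have h7 : l * k ^ 2 ≤ l * S ^ 2 := mul_le_mul_of_nonneg_left h6 hl.le
    have h8 : 1 < U ^ 2 := by nlinarith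
    nlinarith
  have h6 : U + l * S ≤ m := by
    have h7 : k * (U + l * S) ^ 2 ≤ k * m ^ 2 := by
      have h8 : 0 ≤ l * (k * U - S) ^ 2 := by positivity
      have h9 : 0 ≤ 1 + k * l := by positivity
      have h10 := mul_le_mul_of_nonneg_right h4 h9
      have e : k * (U + l * S) ^ 2 + l * (k * U - S) ^ 2 =
          (k * U ^ 2 + l * S ^ 2) * (1 + k * l) := by ring
      have e2 : k * m * (1 + k * l) = k * m ^ 2 := by
        rw [hkl]
        ring
      linarith
    have h8 : (U + l * S) ^ 2 ≤ m ^ 2 := le_of_mul_le_mul_left h7 hk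
    have h9 : 0 ≤ m := ip_self_nonneg a
    exact le_of_sq_le_sq h8 h9
  have h7 : U ^ 2 ≤ m := by
    have : 0 ≤ l * S ^ 2 := by positivity
    exact le_of_mul_le_mul_left (by linarith) hk
  exact ⟨h1, h2, h5, h6, h7, h4⟩

/-- Lemma 4. -/
theorem cap_four {ε : ℝ} (hε : ε ^ 2 = 1) {a : ℂ} (ha : 1 < ip a a) {k l : ℝ} (hk : 0 < k)
    (hl : 0 < l) (hkl : k * l = ip a a - 1) {x y : ℂ} (hx : x ∈ cap ε a (k / l))
    (hy1 : ip a y ≤ 1) (hy2 : ip (pt ε a k) y ≤ 1) : ip x y ≤ 1 := by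
  obtain ⟨h1, h2, h3, h4, h5, _⟩ := cap_basic hk hl hkl hx
  have ha0 : 0 < ip a a := by linarith
  have ha' : ip a a ≠ 0 := ha0.ne'
  have e1 := ip_pt_left hε ha' k y
  have e2 := ip_mul hε a x y
  have g1 := mul_le_mul_of_nonneg_left hy2 ha0.le
  rw [e1] at g1
  refine le_of_mul_le_mul_left ?_ (mul_pos hk ha0)
  rw [mul_one, mul_assoc, e2]
  set U := ip a x
  set S := sc ε a x
  set V := ip a y
  set W := sc ε a y
  set m := ip a a
  have g2 : S * (V + k * W) ≤ S * m := by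
    apply mul_le_mul_of_nonneg_left _ h2.le
    linarith
  have g3 : 0 ≤ (k * U - S) * (1 - V) := by
    apply mul_nonneg _ (by linarith)
    nlinarith
  have g4 : k * (U + l * S) ≤ k * m := mul_le_mul_of_nonneg_left h4 hk.le
  have g5 : S * (k * l) = S * (m - 1) := by rw [hkl]
  nlinarith

/-- Real form of (D). -/
lemma capD_real {m p q U S bU bS Uz Sz : ℝ} (hp : 0 < p) (hq : 0 < q) (hpq : p * q = m - 1)
    (hU : 1 < U) (hSp : S < p) (hUS : U + q * S ≤ m) (hx : m < bU * U + bS * S)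
    (h1 : bU + p * bS ≤ m) (h2 : bU + q * bS ≤ m) (hb : 0 < bS) (hz1 : Uz ≤ 1)
    (hz2 : bU * Uz + bS * Sz = m) (hz3 : Uz ^ 2 + Sz ^ 2 < m) : False := by
  have i1 : bS * (p - S) < bU * (U - 1) := by nlinarith
  have i2 : U - 1 ≤ q * (p - S) := by nlinarith
  have i0 : 0 < p - S := by linarith
  have hbU : 0 < bU := by
    by_contra hcon
    push Not at hcon
    have : bU * (U - 1) ≤ 0 := mul_nonpos_of_nonpos_of_nonneg hcon (by linarith)
    have : 0 < bS * (p - S) := mul_pos hb i0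
    linarith
  have i3 : bS < bU * q := by
    have h3 : bU * (U - 1) ≤ bU * (q * (p - S)) := mul_le_mul_of_nonneg_left i2 hbU.le
    have h4 : bS * (p - S) < (bU * q) * (p - S) := by nlinarith
    exact lt_of_mul_lt_mul_right h4 i0.le
  set M := max p q with hM
  have hMp : p ≤ M := le_max_left _ _
  have hMq : q ≤ M := le_max_right _ _
  have i4 : bU + M * bS ≤ m := by
    rcases max_choice p q with h | h
    · rw [hM, h]
      exact h1
    · rw [hM, h]
      exact h2
  have i5 : bU * (1 - Uz) ≤ bS * (Sz - M) := by nlinarith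
  have i6 : bS * (1 - Uz) ≤ bS * (q * (Sz - M)) := by
    have h3 : bS * (1 - Uz) ≤ bU * q * (1 - Uz) :=
      mul_le_mul_of_nonneg_right i3.le (by linarith)
    have h4 : q * (bU * (1 - Uz)) ≤ q * (bS * (Sz - M)) := mul_le_mul_of_nonneg_left i5 hq.le
    nlinarith
  have i7 : 1 - Uz ≤ q * (Sz - M) := le_of_mul_le_mul_left i6 hb
  have i8 : 0 ≤ Sz - M := by
    by_contra hcon
    push Not at hcon
    have : q * (Sz - M) < 0 := mul_neg_of_pos_of_neg hq hcon
    linarith
  have i9 : q * (Sz - M) ≤ M * (Sz - M) := mul_le_mul_of_nonneg_right hMq i8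
  have i10 : p * q ≤ M ^ 2 := by nlinarith
  nlinarith [sq_nonneg (Sz - M), sq_nonneg (1 - Uz)]

/-- (D): the line of `b` can only cross a cap on the far side. -/
lemma capD (h : Dat R A K L) {a b : ℂ} (ha : a ∈ A) (hb : b ∈ A) (hne : b ≠ a) {ε : ℝ}
    (hε : ε ^ 2 = 1) {p q : ℝ} (hp : 0 < p) (hq : 0 < q) (hpq : p * q = ip a a - 1)
    (hpT : pt ε a p ∈ Tb R A) (hqT : pt ε a q ∈ Tb R A) {x : ℂ} (hx : x ∈ cap ε a (p / q))
    (hbx : 1 < ip b x) : sc ε a b < 0 := by
  obtain ⟨h1, h2, h3, h4, h5, _⟩ := cap_basic hp hq hpq hx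
  have hm := h.m_gt ha
  have ha0 : 0 < ip a a := by linarith
  have ha' : ip a a ≠ 0 := ha0.ne'
  by_contra hcon
  push Not at hcon
  have e1 := ip_pt_left hε ha' p b
  have e2 := ip_pt_left hε ha' q b
  have g1 := mul_le_mul_of_nonneg_left (hpT.2 b hb) ha0.le
  have g2 := mul_le_mul_of_nonneg_left (hqT.2 b hb) ha0.le
  rw [ip_comm b, e1, mul_one] at g1
  rw [ip_comm b, e2, mul_one] at g2
  have e3 := ip_mul hε a b x
  have g3 : ip a a < ip a b * ip a x + sc ε a b * sc ε a x := by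
    rw [← e3]
    nlinarith
  obtain ⟨z, hz, _, _, _, hz1, _, hz2, _⟩ := h.f2 b hb
  have e4 := ip_mul hε a b z
  rw [hz1, mul_one] at e4
  have e5 := ip_mul hε a z z
  have g4 : ip a z ^ 2 + sc ε a z ^ 2 < ip a a := by
    have : ip a a * ip z z < ip a a * 1 := mul_lt_mul_of_pos_left hz2 ha0
    rw [e5] at this
    nlinarith
  have g5 : ip a z ≤ 1 := hz.2 a ha
  rcases hcon.lt_or_eq with hpos | hzero
  · exact capD_real hp hq hpq h1 h3 h4 g3 g1 g2 hpos g5 e4.symm g4
  · rw [← hzero, zero_mul, add_zero] at e4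
    rw [← hzero, mul_zero, add_zero] at g1
    have h6 : 0 < ip a b := by
      by_contra hc
      push Not at hc
      rw [← hzero, zero_mul, add_zero] at g3
      have : ip a b * ip a x ≤ 0 := mul_nonpos_of_nonpos_of_nonneg hc (by linarith)
      linarith
    have h7 : ip a b = ip a a := by
      apply le_antisymm g1
      rw [e4]
      have := mul_le_mul_of_nonneg_left g5 h6.le
      linarith
    apply hne
    have e6 : ip a a * b.re = a.re * ip a b - ε * sc ε a b * a.im := by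
      simp only [ip, sc]
      linear_combination ((a.re * b.im - a.im * b.re) * a.im) * hε
    have e7 : ip a a * b.im = a.im * ip a b + ε * sc ε a b * a.re := by
      simp only [ip, sc]
      linear_combination (-(a.re * b.im - a.im * b.re) * a.re) * hε
    rw [h7, ← hzero] at e6 e7
    apply Complex.ext
    · apply mul_left_cancel₀ ha'
      linarith
    · apply mul_left_cancel₀ ha'
      linarith

/-- A point beyond both lines lies on the other side. -/
lemma cap_side {a b : ℂ} (hb : 1 < ip b b) {ε : ℝ} (hε : ε ^ 2 = 1) {y : ℂ}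
    (h1 : 1 < ip b y) (h2 : 0 < sc ε b y) (h3 : sc ε b a < 0) (h4 : 1 < ip a y) :
    0 < sc ε a y ∧ 0 < ip b a ∧ ip b b * ip a y ≤ ip b a * ip b y := by
  have e1 := ip_mul hε b a y
  have e2 := sc_mul (ε := ε) b a y
  have hb0 : 0 < ip b b := by linarith
  have g1 : sc ε b a * sc ε b y < 0 := mul_neg_of_neg_of_pos h3 h2
  have g2 : 0 < ip b b * ip a y := mul_pos hb0 (by linarith)
  have g3 : 0 < ip b a * ip b y := by linarith
  have g4 : 0 < ip b a := by
    by_contra hc
    push Not at hc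
    have : ip b a * ip b y ≤ 0 := mul_nonpos_of_nonpos_of_nonneg hc (by linarith)
    linarith
  refine ⟨?_, g4, by linarith⟩
  have g5 : 0 < ip b a * sc ε b y := mul_pos g4 h2
  have g6 : sc ε b a * ip b y < 0 := mul_neg_of_neg_of_pos h3 (by linarith)
  have g7 : 0 < ip b b * sc ε a y := by linarith
  by_contra hc
  push Not at hc
  have : ip b b * sc ε a y ≤ 0 := mul_nonpos_of_nonneg_of_nonpos hb0.le hc
  linarith

/-- (C): caps of `K` against caps of `L`. -/
theorem cap_pair (h : Dat R A K L) {a b : ℂ} (ha : a ∈ A) (hb : b ∈ A) {ε ε' : ℝ}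
    (hε : ε = 1 ∨ ε = -1) (hε' : ε' = 1 ∨ ε' = -1) {k l k' l' : ℝ} (hk : 0 < k) (hl : 0 < l)
    (hk' : 0 < k') (hl' : 0 < l') (hkl : k * l = ip a a - 1) (hkl' : k' * l' = ip b b - 1)
    (hkK : pt ε a k ∈ K) (hlL : pt ε a l ∈ L) (hkK' : pt ε' b k' ∈ K) (hlL' : pt ε' b l' ∈ L)
    (hsame : a = b → ε = ε' → k = k') {x y : ℂ} (hx : x ∈ cap ε a (k / l))
    (hy : y ∈ cap ε' b (l' / k')) : ip x y ≤ 1 := by
  have hε2 : ε ^ 2 = 1 := by rcases hε with rfl | rfl <;> norm_num
  have hε2' : ε' ^ 2 = 1 := by rcases hε' with rfl | rfl <;> norm_num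
  have hkl'' : l' * k' = ip b b - 1 := by rw [mul_comm]; exact hkl'
  have hma := h.m_gt ha
  have hmb := h.m_gt hb
  have ha0 : 0 < ip a a := by linarith
  have kT : pt ε a k ∈ Tb R A := h.KT hkK
  have lT : pt ε a l ∈ Tb R A := h.swap.KT hlL
  have kT' : pt ε' b k' ∈ Tb R A := h.KT hkK'
  have lT' : pt ε' b l' ∈ Tb R A := h.swap.KT hlL'
  have hKL := h.KL hkK hlL'
  have hLK : ip (pt ε' b l') (pt ε a k) ≤ 1 := by rw [ip_comm]; exact hKL
  rcases le_or_gt (ip a y) 1 with hay | hay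
  · have h1 : ip y (pt ε a k) ≤ 1 := cap_four hε2' hmb hl' hk' hkl'' hy (kT.2 b hb) hLK
    rw [ip_comm] at h1
    exact cap_four hε2 hma hk hl hkl hx hay h1
  rcases le_or_gt (ip b x) 1 with hbx | hbx
  · have h1 : ip x (pt ε' b l') ≤ 1 := cap_four hε2 hma hk hl hkl hx (lT'.2 a ha) hKL
    rw [ip_comm] at h1
    have h2 := cap_four hε2' hmb hl' hk' hkl'' hy hbx h1
    rw [ip_comm]
    exact h2
  obtain ⟨x1, x2, x3, x4, x5, x6⟩ := cap_basic hk hl hkl hx
  obtain ⟨y1, y2, y3, y4, y5, y6⟩ := cap_basic hl' hk' hkl'' hy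
  have e := ip_mul hε2 a x y
  refine le_of_mul_le_mul_left ?_ ha0
  rw [mul_one, e]
  by_cases hab : a = b
  · subst hab
    by_cases hee : ε = ε'
    · subst hee
      have hkk := hsame rfl rfl
      subst hkk
      have hll : l' = l := by
        have : k * l' = k * l := by linarith
        exact mul_left_cancel₀ hk.ne' this
      subst hll
      set U := ip a x
      set S := sc ε a x
      set V := ip a y
      set W := sc ε a y
      set m := ip a a
      -- weights: k U^2 + l S^2 <= k m, l V^2 + k W^2 <= l m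
      have g1 : 0 ≤ (l' * S - k * W) ^ 2 := sq_nonneg _
      have g2 : 0 ≤ (U - V) ^ 2 := sq_nonneg _
      have g3 : l' * (k * U ^ 2 + l' * S ^ 2) ≤ l' * (k * m) := mul_le_mul_of_nonneg_left x6 hl'.le
      have g4 : k * (l' * V ^ 2 + k * W ^ 2) ≤ k * (l' * m) := mul_le_mul_of_nonneg_left y6 hk.le
      have hkl0 : 0 < k * l' := mul_pos hk hl'
      have g5 : (k * l') * (U * V + S * W) ≤ (k * l') * m := by nlinarith
      exact le_of_mul_le_mul_left g5 hkl0
    · have hee' : ε' = -ε := by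
        rcases hε with h1 | h1 <;> rcases hε' with h2 | h2 <;> rw [h1, h2] at hee ⊢ <;>
          first
            | exact absurd rfl hee
            | norm_num
      rw [hee', sc_neg_eps] at y2
      have g1 : sc ε a x * sc ε a y ≤ 0 :=
        mul_nonpos_of_nonneg_of_nonpos x2.le (by linarith)
      nlinarith [sq_nonneg (ip a x - ip a y)]
  · have d1 := capD h ha hb (fun hh => hab hh.symm) hε2 hk hl hkl kT lT hx hbx
    have d2 := capD h hb ha hab hε2' hl' hk' hkl'' lT' kT' hy hay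
    have hee' : ε' = -ε := by
      rw [sc_swap] at d2
      rcases hε with h1 | h1 <;> rcases hε' with h2 | h2 <;> rw [h1] at d1 <;> rw [h2] at d2 <;>
        rw [h1, h2] <;> linarith
    obtain ⟨s1, s2, s3⟩ := cap_side hmb hε2' y1 y2 d2 hay
    rw [hee', sc_neg_eps] at s1
    have g1 : sc ε a x * sc ε a y ≤ 0 :=
      mul_nonpos_of_nonneg_of_nonpos x2.le (by linarith)
    have hmb0 : 0 < ip b b := by linarith
    have g2 : ip a y ^ 2 ≤ ip a a := by
      have c1 := ip_cs b a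
      have c2 : 0 ≤ ip b b * ip a y := (mul_pos hmb0 (by linarith)).le
      have c3 : (ip b b * ip a y) ^ 2 ≤ (ip b a * ip b y) ^ 2 :=
        pow_le_pow_left₀ c2 s3 2
      have c4 : ip b a ^ 2 * ip b y ^ 2 ≤ (ip b b * ip a a) * ip b b :=
        mul_le_mul c1 y5 (sq_nonneg _) (by positivity)
      have c5 : (ip b b ^ 2) * ip a y ^ 2 ≤ (ip b b ^ 2) * ip a a := by nlinarith
      exact le_of_mul_le_mul_left c5 (by positivity)
    nlinarith [sq_nonneg (ip a x - ip a y)]

/-- Different caps of `K` are disjoint. -/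
theorem cap_disj (h : Dat R A K L) {a b : ℂ} (ha : a ∈ A) (hb : b ∈ A) {ε ε' : ℝ}
    (hε : ε = 1 ∨ ε = -1) (hε' : ε' = 1 ∨ ε' = -1) {k l k' l' : ℝ} (hk : 0 < k) (hl : 0 < l)
    (hk' : 0 < k') (hl' : 0 < l') (hkl : k * l = ip a a - 1) (hkl' : k' * l' = ip b b - 1)
    (hkK : pt ε a k ∈ K) (hlL : pt ε a l ∈ L) (hkK' : pt ε' b k' ∈ K) (hlL' : pt ε' b l' ∈ L)
    {x : ℂ} (hx : x ∈ cap ε a (k / l)) (hy : x ∈ cap ε' b (k' / l')) : a = b ∧ ε = ε' := by
  have hε2 : ε ^ 2 = 1 := by rcases hε with rfl | rfl <;> norm_num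
  have hε2' : ε' ^ 2 = 1 := by rcases hε' with rfl | rfl <;> norm_num
  have hma := h.m_gt ha
  have hmb := h.m_gt hb
  obtain ⟨x1, x2, x3, x4, x5, x6⟩ := cap_basic hk hl hkl hx
  obtain ⟨y1, y2, y3, y4, y5, y6⟩ := cap_basic hk' hl' hkl' hy
  by_cases hab : a = b
  · refine ⟨hab, ?_⟩
    subst hab
    by_contra hee
    have hee' : ε' = -ε := by
      rcases hε with h1 | h1 <;> rcases hε' with h2 | h2 <;> rw [h1, h2] at hee ⊢ <;>
        first
          | exact absurd rfl hee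
          | norm_num
    rw [hee', sc_neg_eps] at y2
    linarith
  · exfalso
    have d1 := capD h ha hb (fun hh => hab hh.symm) hε2 hk hl hkl (h.KT hkK) (h.swap.KT hlL) hx y1
    have d2 := capD h hb ha hab hε2' hk' hl' hkl' (h.KT hkK') (h.swap.KT hlL') hy x1
    have hee' : ε' = -ε := by
      rw [sc_swap] at d2
      rcases hε with h1 | h1 <;> rcases hε' with h2 | h2 <;> rw [h1] at d1 <;> rw [h2] at d2 <;>
        rw [h1, h2] <;> linarith
    obtain ⟨s1, s2, s3⟩ := cap_side hmb hε2' y1 y2 d2 x1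
    rw [hee', sc_neg_eps] at s1
    linarith

end Pool.Agent.H82.Cor
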