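import Pool.Agent.H82.Cor.Basic

/-!
# A maximizer may be taken mutually polar
-/

open MeasureTheory Set Metric

namespace Pool.Agent.H82.Cor

lemma polar_compact {R : ℝ} (hR : 0 ≤ R) {N : ℕ} (w : Fin N → ℂ) (L : Set ℂ) :
    IsCompact {x | x ∈ Tw R w ∧ ∀ y ∈ L, |ip x y| ≤ 1} := by
  have e : {x | x ∈ Tw R w ∧ ∀ y ∈ L, |ip x y| ≤ 1} = Tw R w ∩ ⋂ y ∈ L, {x | |ip x y| ≤ 1} := by
    ext x
    simp
  rw [e]
  refine (isCompact_Tw hR w).inter_right (isClosed_biInter fun y _ => ?_)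
  exact isClosed_le (continuous_ip_left y).abs continuous_const

theorem polar_max {R : ℝ} (hR : 1 ≤ R) {N : ℕ} {w : Fin N → ℂ} {K L : Set ℂ}
    (h : IsMx R w K L) : ∃ K' L' : Set ℂ, IsMx R w K' L' ∧
      K' = {x | x ∈ Tw R w ∧ ∀ y ∈ L', |ip x y| ≤ 1} ∧
      L' = {y | y ∈ Tw R w ∧ ∀ x ∈ K', |ip x y| ≤ 1} := by
  have hR0 : 0 ≤ R := by linarith
  obtain ⟨⟨hKc, hLc, hKT, hLT, hKL⟩, hpos, hmax⟩ := h
  set K₁ : Set ℂ := {x | x ∈ Tw R w ∧ ∀ y ∈ L, |ip x y| ≤ 1} with hK₁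
  have hK₁c : IsCompact K₁ := polar_compact hR0 w L
  have hKK : K ⊆ K₁ := fun x hx => ⟨hKT hx, hKL x hx⟩
  set L₁ : Set ℂ := {y | y ∈ Tw R w ∧ ∀ x ∈ K₁, |ip x y| ≤ 1} with hL₁
  have eL₁ : L₁ = {y | y ∈ Tw R w ∧ ∀ x ∈ K₁, |ip y x| ≤ 1} := by
    rw [hL₁]
    ext y
    constructor
    · rintro ⟨h1, h2⟩
      exact ⟨h1, fun x hx => by rw [ip_comm]; exact h2 x hx⟩
    · rintro ⟨h1, h2⟩
      exact ⟨h1, fun x hx => by rw [ip_comm]; exact h2 x hx⟩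
  have hL₁c : IsCompact L₁ := by
    rw [eL₁]
    exact polar_compact hR0 w K₁
  have hLL : L ⊆ L₁ := fun y hy => ⟨hLT hy, fun x hx => hx.2 y hy⟩
  have adm : Adm R w K₁ L₁ := ⟨hK₁c, hL₁c, fun _ hx => hx.1, fun _ hy => hy.1,
    fun x hx y hy => hy.2 x hx⟩
  have hphi : Phi R w K L ≤ Phi R w K₁ L₁ := by
    unfold Phi
    have h1 : volume.real K ≤ volume.real K₁ := measureReal_mono hKK hK₁c.measure_lt_top.ne
    have h2 : volume.real L ≤ volume.real L₁ := measureReal_mono hLL hL₁c.measure_lt_top.ne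
    have h3 : volume.real K * volume.real L ≤ volume.real K₁ * volume.real L₁ :=
      mul_le_mul h1 h2 measureReal_nonneg measureReal_nonneg
    have h4 := Real.sqrt_le_sqrt h3
    linarith
  refine ⟨K₁, L₁, ⟨adm, lt_of_lt_of_le hpos hphi, fun w' K' L' h' => (hmax w' K' L' h').trans hphi⟩,
    ?_, rfl⟩
  apply Subset.antisymm
  · exact fun x hx => ⟨hx.1, fun y hy => hy.2 x hx⟩
  · exact fun x hx => ⟨hx.1, fun y hy => hx.2 y (hLL hy)⟩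

end Pool.Agent.H82.Cor
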