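import Pool.Agent.H82.Cor.Basic

/-!
# Dropping a strip
-/

open MeasureTheory Set Metric

namespace Pool.Agent.H82.Cor

namespace Dr

lemma Tw_sub_drop (R : ℝ) {N : ℕ} (w : Fin (N + 1) → ℂ) (i : Fin (N + 1)) :
    Tw R w ⊆ Tw R (fun j => w (i.succAbove j)) := fun _ hx => ⟨hx.1, fun j => hx.2 _⟩

/-- A strip that does not cut the disc cannot be there. -/
lemma drop_false {R : ℝ} {N : ℕ} (hN : PN R N) {w : Fin (N + 1) → ℂ}
    {K L : Set ℂ} (h : IsMx R w K L) (i : Fin (N + 1))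
    (hle : volume.real (Bu ∩ Tw R (fun j => w (i.succAbove j))) ≤ volume.real (Bu ∩ Tw R w)) :
    False := by
  obtain ⟨hK, hL, hKT, hLT, hKL⟩ := h.adm
  have h1 := hN (fun j => w (i.succAbove j)) K L hK hL (hKT.trans (Tw_sub_drop R w i))
    (hLT.trans (Tw_sub_drop R w i)) hKL
  have h2 := h.pos
  unfold Phi at h2
  linarith

lemma vol_Bu_lt_top (T : Set ℂ) : volume (Bu ∩ T) < ⊤ := by
  refine lt_of_le_of_lt (measure_mono inter_subset_left) ?_
  rw [Bu_eq]
  exact measure_closedBall_lt_top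

lemma line_null (c : ℂ) : volume {x : ℂ | ∃ t : ℝ, x = (t : ℂ) * c} = 0 := by
  have hsub : {x : ℂ | ∃ t : ℝ, x = (t : ℂ) * c} ⊆ (Submodule.span ℝ {c} : Submodule ℝ ℂ) := by
    rintro x ⟨t, rfl⟩
    rw [SetLike.mem_coe, Submodule.mem_span_singleton]
    exact ⟨t, by rw [Complex.real_smul]⟩
  refine measure_mono_null hsub ?_
  apply Measure.addHaar_submodule
  intro htop
  have h1 := finrank_span_le_card (R := ℝ) ({c} : Set ℂ)
  rw [htop, finrank_top, Complex.finrank_real_complex] at h1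
  simp at h1

end Dr

open Dr

/-- F2: every line carries two points of the body in the open disc. -/
theorem two_points {R : ℝ} (hR : 1 ≤ R) {N : ℕ} (hN : PN R N) {w : Fin (N + 1) → ℂ}
    {K L : Set ℂ} (h : IsMx R w K L) (i : Fin (N + 1)) :
    ∃ x ∈ Tw R w, ∃ y ∈ Tw R w, x ≠ y ∧ ip (w i) x = 1 ∧ ip (w i) y = 1 ∧ ip x x < 1 ∧
      ip y y < 1 := by
  by_contra hcon
  have huniq : ∀ x y : ℂ, x ∈ Tw R w → y ∈ Tw R w → ip (w i) x = 1 → ip (w i) y = 1 →
      ip x x < 1 → ip y y < 1 → x = y := by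
    intro x y hx hy h1 h2 h3 h4
    by_contra hne
    exact hcon ⟨x, hx, y, hy, hne, h1, h2, h3, h4⟩
  -- the part of the bigger body outside the body
  set T' := Tw R (fun j => w (i.succAbove j)) with hT'
  have key : ∀ x, x ∈ Bu ∩ T' → x ∉ Tw R w → ip x x < 1 →
      ∃ c, (c ∈ Tw R w ∧ ip (w i) c = 1 ∧ ip c c < 1) ∧ ∃ t : ℝ, x = (t : ℂ) * c := by
    intro x hx hxT hx1
    have hU : 1 < |ip (w i) x| := by
      by_contra hc
      push Not at hc
      apply hxT
      refine ⟨hx.2.1, fun j => ?_⟩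
      rcases Fin.eq_self_or_eq_succAbove i j with rfl | ⟨j', rfl⟩
      · exact hc
      · exact hx.2.2 j'
    set U := ip (w i) x with hUdef
    have hU0 : U ≠ 0 := by
      intro h0
      rw [h0, abs_zero] at hU
      linarith
    have habs : |U⁻¹| < 1 := by
      rw [abs_inv]
      exact inv_lt_one_of_one_lt₀ hU
    have hsq : U⁻¹ ^ 2 < 1 := by
      rw [← sq_abs]
      have := abs_nonneg U⁻¹
      nlinarith
    have hsq0 : 0 ≤ U⁻¹ ^ 2 := sq_nonneg _
    have hcc : ip ((U⁻¹ : ℝ) * x) ((U⁻¹ : ℝ) * x) = U⁻¹ ^ 2 * ip x x := by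
      rw [ip_smul_left, ip_smul_right]
      ring
    have hxx := ip_self_nonneg x
    refine ⟨(U⁻¹ : ℝ) * x, ⟨⟨?_, fun j => ?_⟩, ?_, ?_⟩, U, ?_⟩
    · rw [hcc]
      have := hx.2.1
      nlinarith
    · rw [ip_smul_right, abs_mul]
      rcases Fin.eq_self_or_eq_succAbove i j with rfl | ⟨j', rfl⟩
      · rw [← hUdef, ← abs_mul, inv_mul_cancel₀ hU0, abs_one]
      · have h1 := hx.2.2 j'
        have h2 := abs_nonneg (ip (w (i.succAbove j')) x)
        have h3 := abs_nonneg U⁻¹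
        exact mul_le_one₀ habs.le h2 h1
    · rw [ip_smul_right, ← hUdef, inv_mul_cancel₀ hU0]
    · rw [hcc]
      nlinarith
    · rw [← mul_assoc, ← Complex.ofReal_mul, mul_inv_cancel₀ hU0, Complex.ofReal_one, one_mul]
  have hnull : volume ((Bu ∩ T') \ Tw R w) = 0 := by
    have hsph : volume (sphere (0 : ℂ) 1) = 0 := Measure.addHaar_sphere _ _ _
    by_cases hex : ∃ c, c ∈ Tw R w ∧ ip (w i) c = 1 ∧ ip c c < 1
    · obtain ⟨c₀, hc1, hc2, hc3⟩ := hex
      refine measure_mono_null (t := sphere (0 : ℂ) 1 ∪ {x : ℂ | ∃ t : ℝ, x = (t : ℂ) * c₀}) ?_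
        (measure_union_null hsph (line_null c₀))
      rintro x ⟨hx, hxT⟩
      rcases lt_or_eq_of_le (show ip x x ≤ 1 from hx.1) with hlt | heq
      · right
        obtain ⟨c, ⟨h1, h2, h3⟩, t, ht⟩ := key x hx hxT hlt
        rw [huniq c c₀ h1 hc1 h2 hc2 h3 hc3] at ht
        exact ⟨t, ht⟩
      · left
        rw [ip_self] at heq
        rw [mem_sphere_zero_iff_norm]
        have := norm_nonneg x
        nlinarith
    · refine measure_mono_null (t := sphere (0 : ℂ) 1) ?_ hsph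
      rintro x ⟨hx, hxT⟩
      rcases lt_or_eq_of_le (show ip x x ≤ 1 from hx.1) with hlt | heq
      · exfalso
        obtain ⟨c, hc, _⟩ := key x hx hxT hlt
        exact hex ⟨c, hc⟩
      · rw [ip_self] at heq
        rw [mem_sphere_zero_iff_norm]
        have := norm_nonneg x
        nlinarith
  apply drop_false hN h i
  have h1 : volume (Bu ∩ T') ≤ volume (Bu ∩ Tw R w) := by
    have hsub : Bu ∩ T' ⊆ (Bu ∩ Tw R w) ∪ ((Bu ∩ T') \ Tw R w) := by
      intro x hx
      by_cases hxT : x ∈ Tw R w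
      · exact Or.inl ⟨hx.1, hxT⟩
      · exact Or.inr ⟨hx, hxT⟩
    calc volume (Bu ∩ T') ≤ volume ((Bu ∩ Tw R w) ∪ ((Bu ∩ T') \ Tw R w)) := measure_mono hsub
      _ ≤ volume (Bu ∩ Tw R w) + volume ((Bu ∩ T') \ Tw R w) := measure_union_le _ _
      _ = volume (Bu ∩ Tw R w) := by rw [hnull, add_zero]
  exact ENNReal.toReal_mono (vol_Bu_lt_top _).ne h1

/-- No duplicates. -/
theorem no_dup {R : ℝ} (hR : 1 ≤ R) {N : ℕ} (hN : PN R N) {w : Fin (N + 1) → ℂ}
    {K L : Set ℂ} (h : IsMx R w K L) (i j : Fin (N + 1)) (hij : i ≠ j) :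
    w i ≠ w j ∧ w i ≠ -w j := by
  have main : (∀ x, |ip (w i) x| = |ip (w j) x|) → False := by
    intro hab
    apply drop_false hN h i
    have : Tw R (fun j => w (i.succAbove j)) ⊆ Tw R w := by
      intro x hx
      refine ⟨hx.1, fun k => ?_⟩
      rcases Fin.eq_self_or_eq_succAbove i k with rfl | ⟨k', rfl⟩
      · rw [hab]
        obtain ⟨j', hj'⟩ := Fin.exists_succAbove_eq hij.symm
        rw [← hj']
        exact hx.2 j'
      · exact hx.2 k'
    exact ENNReal.toReal_mono (vol_Bu_lt_top _).ne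
      (measure_mono (inter_subset_inter_right _ this))
  constructor
  · intro heq
    exact main fun x => by rw [heq]
  · intro heq
    exact main fun x => by rw [heq, ip_neg_left, abs_neg]

end Pool.Agent.H82.Cor
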