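import Pool.Agent.H82.Cor.Basic

/-!
# Existence of a maximizer
-/

open MeasureTheory Set Metric Filter Topology TopologicalSpace
open scoped Pointwise

namespace Pool.Agent.H82.Cor

/-- A rotated rectangle. -/
lemma exm_rect (u : Circle) (p q : ℝ) (hp : 0 ≤ p) :
    volume {x : ℂ | |((u : ℂ) * x).re| ≤ p ∧ |((u : ℂ) * x).im| ≤ q} =
      ENNReal.ofReal (2 * p * (2 * q)) := by
  have h1 : {x : ℂ | |((u : ℂ) * x).re| ≤ p ∧ |((u : ℂ) * x).im| ≤ q} =
      (rotation u) ⁻¹' {z : ℂ | |z.re| ≤ p ∧ |z.im| ≤ q} := by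
    ext x
    simp [rotation_apply]
  have h2 : {z : ℂ | |z.re| ≤ p ∧ |z.im| ≤ q} =
      Complex.measurableEquivRealProd ⁻¹' (Icc (-p) p ×ˢ Icc (-q) q) := by
    ext z
    simp only [mem_ofPred_eq, mem_preimage, Complex.measurableEquivRealProd_apply, mem_prod, mem_Icc,
      abs_le]
  have hm : MeasurableSet (Icc (-p) p ×ˢ Icc (-q) q) := measurableSet_Icc.prod measurableSet_Icc
  have hm2 : MeasurableSet {z : ℂ | |z.re| ≤ p ∧ |z.im| ≤ q} := by
    rw [h2]
    exact Complex.measurableEquivRealProd.measurable hm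
  rw [h1, (LinearIsometryEquiv.measurePreserving (rotation u)).measure_preimage
    hm2.nullMeasurableSet, h2,
    Complex.volume_preserving_equiv_real_prod.measure_preimage hm.nullMeasurableSet,
    Measure.volume_eq_prod, Measure.prod_prod, Real.volume_Icc, Real.volume_Icc,
    ← ENNReal.ofReal_mul (by linarith)]
  congr 1
  ring

/-- The area of a strip in a disc. -/
lemma exm_strip {R : ℝ} (hR : 0 ≤ R) {a : ℂ} (ha : a ≠ 0) :
    volume {x : ℂ | ip x x ≤ R ^ 2 ∧ |ip a x| ≤ 1} ≤ ENNReal.ofReal (4 * R / ‖a‖) := by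
  have hn : 0 < ‖a‖ := norm_pos_iff.mpr ha
  have hu : ‖(starRingEnd ℂ a) / (‖a‖ : ℂ)‖ = 1 := by
    rw [norm_div, Complex.norm_conj, Complex.norm_real, norm_norm, div_self hn.ne']
  let u : Circle := ⟨(starRingEnd ℂ a) / (‖a‖ : ℂ), by
    simpa [Submonoid.unitSphere] using hu⟩
  have huc : (u : ℂ) = (starRingEnd ℂ a) / (‖a‖ : ℂ) := rfl
  have hre : ∀ x : ℂ, ((u : ℂ) * x).re = ip a x / ‖a‖ := by
    intro x
    rw [huc, div_mul_eq_mul_div, Complex.div_ofReal_re]
    simp [ip]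
  have hsub : {x : ℂ | ip x x ≤ R ^ 2 ∧ |ip a x| ≤ 1} ⊆
      {x : ℂ | |((u : ℂ) * x).re| ≤ 1 / ‖a‖ ∧ |((u : ℂ) * x).im| ≤ R} := by
    rintro x ⟨hx1, hx2⟩
    refine ⟨?_, ?_⟩
    · rw [hre, abs_div, abs_of_pos hn]
      gcongr
    · refine (Complex.abs_im_le_norm _).trans ?_
      rw [norm_mul, huc, hu, one_mul]
      rw [ip_self] at hx1
      exact le_of_sq_le_sq hx1 hR
  refine (measure_mono hsub).trans ?_
  rw [exm_rect u _ _ (by positivity)]
  apply le_of_eq
  congr 1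
  ring

/-- The measure of a compact set is upper semicontinuous. -/
lemma exm_usc (K : ℕ → NonemptyCompacts ℂ) (K0 : NonemptyCompacts ℂ)
    (h : Tendsto K atTop (𝓝 K0)) {ε : ℝ} (hε : 0 < ε) :
    ∀ᶠ n in atTop, volume.real (K n : Set ℂ) ≤ volume.real (K0 : Set ℂ) + ε := by
  have h1 := tendsto_measure_cthickening_of_isCompact (μ := volume) K0.isCompact
  have hfin : volume (K0 : Set ℂ) ≠ ⊤ := K0.isCompact.measure_lt_top.ne
  have h2 : ∀ᶠ r in 𝓝 (0 : ℝ), volume (cthickening r (K0 : Set ℂ)) <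
      volume (K0 : Set ℂ) + ENNReal.ofReal ε := by
    refine h1.eventually_lt_const ?_
    exact ENNReal.lt_add_right hfin (by simpa using hε)
  obtain ⟨δ, hδ, h3⟩ := Metric.eventually_nhds_iff.mp h2
  have h4 : volume (cthickening (δ / 2) (K0 : Set ℂ)) <
      volume (K0 : Set ℂ) + ENNReal.ofReal ε := by
    apply h3
    rw [Real.dist_eq, sub_zero, abs_of_pos (by linarith)]
    linarith
  have h5 : ∀ᶠ n in atTop, dist (K n) K0 < δ / 2 :=
    (tendsto_iff_dist_tendsto_zero.mp h).eventually_lt_const (by linarith)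
  filter_upwards [h5] with n hn
  have hsub : (K n : Set ℂ) ⊆ cthickening (δ / 2) (K0 : Set ℂ) := by
    intro x hx
    apply thickening_subset_cthickening
    rw [mem_thickening_iff_infDist_lt K0.nonempty]
    refine lt_of_le_of_lt (infDist_le_hausdorffDist_of_mem hx ?_) hn
    exact hausdorffEDist_ne_top_of_nonempty_of_bounded (K n).nonempty K0.nonempty
      (K n).isCompact.isBounded K0.isCompact.isBounded
  have h6 : volume (K n : Set ℂ) ≤ volume (K0 : Set ℂ) + ENNReal.ofReal ε :=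
    (measure_mono hsub).trans h4.le
  have h7 := ENNReal.toReal_mono (ENNReal.add_ne_top.mpr ⟨hfin, ENNReal.ofReal_ne_top⟩) h6
  rwa [ENNReal.toReal_add hfin ENNReal.ofReal_ne_top, ENNReal.toReal_ofReal hε.le] at h7

/-- Points of a limit are limits of points. -/
lemma exm_pts (K : ℕ → NonemptyCompacts ℂ) (K0 : NonemptyCompacts ℂ)
    (h : Tendsto K atTop (𝓝 K0)) {x : ℂ} (hx : x ∈ (K0 : Set ℂ)) :
    ∃ y : ℕ → ℂ, (∀ n, y n ∈ (K n : Set ℂ)) ∧ Tendsto y atTop (𝓝 x) := by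
  have h1 : ∀ n, ∃ y ∈ (K n : Set ℂ), infDist x (K n : Set ℂ) = dist x y := fun n =>
    (K n).isCompact.exists_infDist_eq_dist (K n).nonempty x
  choose y hy1 hy2 using h1
  refine ⟨y, hy1, ?_⟩
  rw [tendsto_iff_dist_tendsto_zero]
  refine squeeze_zero (fun _ => dist_nonneg) (fun n => ?_) (tendsto_iff_dist_tendsto_zero.mp h)
  rw [dist_comm, ← hy2 n, dist_comm]
  refine infDist_le_hausdorffDist_of_mem hx ?_
  exact hausdorffEDist_ne_top_of_nonempty_of_bounded K0.nonempty (K n).nonempty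
    K0.isCompact.isBounded (K n).isCompact.isBounded

/-- The measure of the part of a strip body in the disc is lower semicontinuous. -/
lemma exm_lsc {R : ℝ} {N : ℕ} (w : ℕ → Fin N → ℂ) (w0 : Fin N → ℂ)
    (h : Tendsto w atTop (𝓝 w0)) {ε : ℝ} (hε : 0 < ε) :
    ∀ᶠ n in atTop, volume.real (Bu ∩ Tw R w0) - ε ≤ volume.real (Bu ∩ Tw R (w n)) := by
  set V : ℝ := volume.real (Bu ∩ Tw R w0) with hV
  have hc : Tendsto (fun r : ℝ => r ^ 2 * V) (𝓝[<] 1) (𝓝 V) := by
    have : Tendsto (fun r : ℝ => r ^ 2 * V) (𝓝 1) (𝓝 (1 ^ 2 * V)) := by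
      apply Continuous.tendsto
      fun_prop
    rw [one_pow, one_mul] at this
    exact this.mono_left nhdsWithin_le_nhds
  have h1 : ∀ᶠ r : ℝ in 𝓝[<] 1, V - ε < r ^ 2 * V := hc.eventually_const_lt (by linarith)
  have h2 : ∀ᶠ r : ℝ in 𝓝[<] 1, 0 < r :=
    nhdsWithin_le_nhds (lt_mem_nhds zero_lt_one)
  have h3 : ∀ᶠ r : ℝ in 𝓝[<] 1, r < 1 := eventually_mem_nhdsWithin
  obtain ⟨r, hr1, hr0, hr2⟩ := (h1.and (h2.and h3)).exists
  have hd : 0 < 1 / r - 1 := by
    rw [sub_pos, lt_div_iff₀ hr0]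
    linarith
  have h5 : ∀ᶠ n in atTop, dist (w n) w0 < 1 / r - 1 :=
    (tendsto_iff_dist_tendsto_zero.mp h).eventually_lt_const hd
  filter_upwards [h5] with n hn
  have hsub : r • (Bu ∩ Tw R w0) ⊆ Bu ∩ Tw R (w n) := by
    rintro _ ⟨x, ⟨hx1, hx2, hx3⟩, rfl⟩
    have hxn : ‖x‖ ≤ 1 := by
      have h6 : ip x x ≤ 1 := hx1
      rw [ip_self] at h6
      nlinarith [norm_nonneg x]
    have hrr : r ^ 2 ≤ 1 := by nlinarith
    have hs : ip (r • x) (r • x) = r ^ 2 * ip x x := by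
      simp only [ip, Complex.real_smul, Complex.mul_re, Complex.mul_im, Complex.ofReal_re,
        Complex.ofReal_im]
      ring
    have hnn : 0 ≤ ip x x := ip_self_nonneg x
    refine ⟨?_, ?_, ?_⟩
    · change ip (r • x) (r • x) ≤ 1
      have h6 : ip x x ≤ 1 := hx1
      rw [hs]
      nlinarith
    · change ip (r • x) (r • x) ≤ R ^ 2
      rw [hs]
      nlinarith
    · intro i
      have h7 : ip (w n i) (r • x) = r * (ip (w0 i) x + ip (w n i - w0 i) x) := by
        simp only [ip, Complex.real_smul, Complex.mul_re, Complex.mul_im, Complex.ofReal_re,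
          Complex.ofReal_im, Complex.sub_re, Complex.sub_im]
        ring
      have h8 : |ip (w n i - w0 i) x| ≤ ‖w n i - w0 i‖ * ‖x‖ := by
        apply abs_le_of_sq_le_sq _ (by positivity)
        rw [mul_pow, ← ip_self, ← ip_self]
        exact ip_cs _ _
      have h9 : ‖w n i - w0 i‖ ≤ dist (w n) w0 := by
        rw [← dist_eq_norm]
        exact dist_le_pi_dist _ _ i
      have h10 : |ip (w n i - w0 i) x| ≤ 1 / r - 1 := by
        refine h8.trans ?_
        calc ‖w n i - w0 i‖ * ‖x‖ ≤ ‖w n i - w0 i‖ * 1 := by gcongr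
          _ ≤ 1 / r - 1 := by rw [mul_one]; exact h9.trans hn.le
      have h11 := hx3 i
      change |ip (w n i) (r • x)| ≤ 1
      rw [h7, abs_mul, abs_of_pos hr0]
      calc r * |ip (w0 i) x + ip (w n i - w0 i) x|
          ≤ r * (|ip (w0 i) x| + |ip (w n i - w0 i) x|) := by
            gcongr
            exact abs_add_le _ _
        _ ≤ r * (1 + (1 / r - 1)) := by gcongr
        _ = 1 := by field_simp; ring
  have hfin : volume (Bu ∩ Tw R (w n)) ≠ ⊤ := by
    have : volume (Bu ∩ Tw R (w n)) ≤ volume Bu := measure_mono inter_subset_left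
    refine (this.trans_lt ?_).ne
    rw [Bu_eq]
    exact (isCompact_closedBall _ _).measure_lt_top
  have h12 : volume.real (r • (Bu ∩ Tw R w0)) = r ^ 2 * V := by
    rw [measureReal_def, Measure.addHaar_smul, ENNReal.toReal_mul, Complex.finrank_real_complex,
      abs_of_nonneg (by positivity), ENNReal.toReal_ofReal (by positivity)]
    rfl
  have h13 : volume.real (r • (Bu ∩ Tw R w0)) ≤ volume.real (Bu ∩ Tw R (w n)) :=
    measureReal_mono hsub hfin
  linarith

lemma exm_bdd {R : ℝ} {N : ℕ} {w : Fin N → ℂ} {K L : Set ℂ} {T : Set ℂ} {b : ℝ}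
    (hK : K ⊆ T) (hL : L ⊆ T) (hb : 0 ≤ b) (hT : volume T ≤ ENNReal.ofReal b) :
    Phi R w K L ≤ b := by
  have h1 : ∀ A : Set ℂ, A ⊆ T → volume.real A ≤ b := by
    intro A hA
    have := ENNReal.toReal_mono ENNReal.ofReal_ne_top ((measure_mono hA).trans hT)
    rwa [ENNReal.toReal_ofReal hb] at this
  have h2 : √(volume.real K * volume.real L) ≤ b := by
    rw [← Real.sqrt_mul_self hb]
    apply Real.sqrt_le_sqrt
    exact mul_le_mul (h1 K hK) (h1 L hL) measureReal_nonneg hb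
  have h3 : 0 ≤ volume.real (Bu ∩ Tw R w) := measureReal_nonneg
  unfold Phi
  linarith

/-- W3, Exmax.lean -/
theorem exists_max {R : ℝ} (hR : 1 ≤ R) {N : ℕ} (h : ¬ PN R (N + 1)) :
    ∃ (w : Fin (N + 1) → ℂ) (K L : Set ℂ), IsMx R w K L := by
  classical
  have hR0 : 0 ≤ R := by linarith
  unfold PN at h
  push Not at h
  obtain ⟨w1, K1, L1, hK1, hL1, hKT, hLT, hip, hgt⟩ := h
  have hadm1 : Adm R w1 K1 L1 := ⟨hK1, hL1, hKT, hLT, hip⟩
  have hpos1 : 0 < Phi R w1 K1 L1 := by unfold Phi; linarith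
  set P1 : ℝ := Phi R w1 K1 L1 with hP1
  let S : Set ℝ := {t | ∃ (w : Fin (N + 1) → ℂ) (K L : Set ℂ), Adm R w K L ∧ Phi R w K L = t}
  have hball : ∀ w : Fin (N + 1) → ℂ, Tw R w ⊆ closedBall (0 : ℂ) R := fun w x hx =>
    disc_subset hR0 ▸ hx.1
  have hSb : BddAbove S := by
    refine ⟨volume.real (closedBall (0 : ℂ) R), ?_⟩
    rintro _ ⟨w, K, L, hA, rfl⟩
    refine exm_bdd (T := closedBall (0 : ℂ) R) (hA.2.2.1.trans (hball w))
      (hA.2.2.2.1.trans (hball w)) measureReal_nonneg ?_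
    rw [measureReal_def, ENNReal.ofReal_toReal]
    exact (isCompact_closedBall _ _).measure_lt_top.ne
  have hS1 : P1 ∈ S := ⟨w1, K1, L1, hadm1, rfl⟩
  set M0 : ℝ := sSup S with hM0
  have hM1 : P1 ≤ M0 := le_csSup hSb hS1
  have hseq : ∀ n : ℕ, ∃ (w : Fin (N + 1) → ℂ) (K L : Set ℂ), Adm R w K L ∧
      M0 - P1 / 2 * (1 / ((n : ℝ) + 1)) < Phi R w K L := by
    intro n
    have h1 : M0 - P1 / 2 * (1 / ((n : ℝ) + 1)) < sSup S := by
      have : 0 < P1 / 2 * (1 / ((n : ℝ) + 1)) := by positivity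
      linarith
    obtain ⟨t, ⟨w, K, L, hA, rfl⟩, ht⟩ := exists_lt_of_lt_csSup ⟨P1, hS1⟩ h1
    exact ⟨w, K, L, hA, ht⟩
  choose w K L hA hphi using hseq
  have hlow : ∀ n, P1 / 2 < Phi R (w n) (K n) (L n) := by
    intro n
    have h1 : P1 / 2 * (1 / ((n : ℝ) + 1)) ≤ P1 / 2 * 1 := by
      have h2 : 1 / ((n : ℝ) + 1) ≤ 1 := by
        rw [div_le_one (by positivity)]
        have : (0 : ℝ) ≤ n := n.cast_nonneg
        linarith
      have : 0 ≤ P1 / 2 := by linarith
      gcongr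
    have := hphi n
    linarith
  have hnon : ∀ n, (K n).Nonempty ∧ (L n).Nonempty := by
    intro n
    have h1 := hlow n
    have h3 : 0 ≤ volume.real (Bu ∩ Tw R (w n)) := measureReal_nonneg
    unfold Phi at h1
    constructor
    · rw [nonempty_iff_ne_empty]
      intro h2
      rw [h2, measureReal_empty, zero_mul, Real.sqrt_zero] at h1
      linarith
    · rw [nonempty_iff_ne_empty]
      intro h2
      rw [h2, measureReal_empty, mul_zero, Real.sqrt_zero] at h1
      linarith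
  let KK : ℕ → NonemptyCompacts ℂ := fun n => ⟨⟨K n, (hA n).1⟩, (hnon n).1⟩
  let LL : ℕ → NonemptyCompacts ℂ := fun n => ⟨⟨L n, (hA n).2.1⟩, (hnon n).2⟩
  have hKK : ∀ n, (KK n : Set ℂ) = K n := fun n => rfl
  have hLL : ∀ n, (LL n : Set ℂ) = L n := fun n => rfl
  have hwb : ∀ n, w n ∈ closedBall (0 : Fin (N + 1) → ℂ) (4 * R / (P1 / 2)) := by
    intro n
    rw [mem_closedBall, dist_zero_right, pi_norm_le_iff_of_nonneg (by positivity)]
    intro i
    by_cases hwi : w n i = 0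
    · rw [hwi, norm_zero]
      positivity
    have hn : 0 < ‖w n i‖ := norm_pos_iff.mpr hwi
    have h1 : Phi R (w n) (K n) (L n) ≤ 4 * R / ‖w n i‖ :=
      exm_bdd (T := {x : ℂ | ip x x ≤ R ^ 2 ∧ |ip (w n i) x| ≤ 1})
        (fun x hx => ⟨((hA n).2.2.1 hx).1, ((hA n).2.2.1 hx).2 i⟩)
        (fun x hx => ⟨((hA n).2.2.2.1 hx).1, ((hA n).2.2.2.1 hx).2 i⟩) (by positivity)
        (exm_strip hR0 hwi)
    have h2 := (hlow n).trans_le h1
    rw [lt_div_iff₀ hn] at h2
    rw [le_div_iff₀ (by positivity)]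
    linarith
  have hcomp := (isCompact_closedBall (0 : Fin (N + 1) → ℂ) (4 * R / (P1 / 2))).prod
    ((NonemptyCompacts.isCompact_subsets_of_isCompact (isCompact_closedBall (0 : ℂ) R)).prod
      (NonemptyCompacts.isCompact_subsets_of_isCompact (isCompact_closedBall (0 : ℂ) R)))
  obtain ⟨⟨w0, K0, L0⟩, -, φ, hφ, hlim⟩ := hcomp.tendsto_subseq (x := fun n => (w n, KK n, LL n))
    (fun n => ⟨hwb n, (hA n).2.2.1.trans (hball _), (hA n).2.2.2.1.trans (hball _)⟩)
  have hw0 : Tendsto (fun n => w (φ n)) atTop (𝓝 w0) :=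
    (continuous_fst.tendsto _).comp hlim
  have hK0 : Tendsto (fun n => KK (φ n)) atTop (𝓝 K0) :=
    ((continuous_fst.comp continuous_snd).tendsto _).comp hlim
  have hL0 : Tendsto (fun n => LL (φ n)) atTop (𝓝 L0) :=
    ((continuous_snd.comp continuous_snd).tendsto _).comp hlim
  have hTlim : ∀ (y : ℕ → ℂ) (x : ℂ), Tendsto y atTop (𝓝 x) → (∀ n, y n ∈ Tw R (w (φ n))) →
      x ∈ Tw R w0 := by
    intro y x hy hyT
    refine ⟨?_, fun i => ?_⟩
    · exact le_of_tendsto ((continuous_ip_self.tendsto x).comp hy)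
        (Eventually.of_forall fun n => (hyT n).1)
    · have h1 : Tendsto (fun n => |ip (w (φ n) i) (y n)|) atTop (𝓝 |ip (w0 i) x|) := by
        have h2 : Tendsto (fun n => (w (φ n) i, y n)) atTop (𝓝 (w0 i, x)) :=
          ((tendsto_pi_nhds.mp hw0) i).prodMk_nhds hy
        exact ((continuous_ip.abs.tendsto _).comp h2)
      exact le_of_tendsto h1 (Eventually.of_forall fun n => (hyT n).2 i)
  have hAdm : Adm R w0 (K0 : Set ℂ) (L0 : Set ℂ) := by
    refine ⟨K0.isCompact, L0.isCompact, ?_, ?_, ?_⟩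
    · intro x hx
      obtain ⟨y, hy1, hy2⟩ := exm_pts _ K0 hK0 hx
      exact hTlim y x hy2 fun n => (hA (φ n)).2.2.1 (hy1 n)
    · intro x hx
      obtain ⟨y, hy1, hy2⟩ := exm_pts _ L0 hL0 hx
      exact hTlim y x hy2 fun n => (hA (φ n)).2.2.2.1 (hy1 n)
    · intro x hx z hz
      obtain ⟨y, hy1, hy2⟩ := exm_pts _ K0 hK0 hx
      obtain ⟨u, hu1, hu2⟩ := exm_pts _ L0 hL0 hz
      have h1 : Tendsto (fun n => |ip (y n) (u n)|) atTop (𝓝 |ip x z|) :=
        (continuous_ip.abs.tendsto (x, z)).comp (hy2.prodMk_nhds hu2)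
      exact le_of_tendsto h1 (Eventually.of_forall fun n =>
        (hA (φ n)).2.2.2.2 _ (hy1 n) _ (hu1 n))
  set a : ℝ := volume.real (K0 : Set ℂ) with ha
  set b : ℝ := volume.real (L0 : Set ℂ) with hb
  set c : ℝ := volume.real (Bu ∩ Tw R w0) with hc
  have ha0 : 0 ≤ a := measureReal_nonneg
  have hb0 : 0 ≤ b := measureReal_nonneg
  have key : ∀ ε : ℝ, 0 < ε → M0 ≤ √((a + ε) * (b + ε)) - c + ε := by
    intro ε hε
    have e1 := exm_usc _ K0 hK0 hε
    have e2 := exm_usc _ L0 hL0 hε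
    have e3 := exm_lsc (R := R) _ w0 hw0 hε
    have e4 : Tendsto (fun n => M0 - P1 / 2 * (1 / ((φ n : ℝ) + 1))) atTop (𝓝 M0) := by
      have h1 : Tendsto (fun n : ℕ => 1 / ((n : ℝ) + 1)) atTop (𝓝 0) :=
        tendsto_one_div_add_atTop_nhds_zero_nat
      have h2 := (h1.comp hφ.tendsto_atTop).const_mul (P1 / 2)
      have h3 := h2.const_sub M0
      simpa using h3
    refine le_of_tendsto e4 ?_
    filter_upwards [e1, e2, e3] with n h1 h2 h3
    have h4 := (hphi (φ n)).le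
    refine h4.trans ?_
    unfold Phi
    have h5 : √(volume.real (K (φ n)) * volume.real (L (φ n))) ≤ √((a + ε) * (b + ε)) := by
      apply Real.sqrt_le_sqrt
      exact mul_le_mul h1 h2 measureReal_nonneg (by linarith)
    linarith
  have hfin : M0 ≤ Phi R w0 (K0 : Set ℂ) (L0 : Set ℂ) := by
    have t : Tendsto (fun ε : ℝ => √((a + ε) * (b + ε)) - c + ε) (𝓝[>] 0)
        (𝓝 (√((a + 0) * (b + 0)) - c + 0)) := by
      have h1 : Continuous (fun ε : ℝ => √((a + ε) * (b + ε)) - c + ε) := by fun_prop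
      exact (h1.tendsto 0).mono_left nhdsWithin_le_nhds
    rw [add_zero, add_zero, add_zero] at t
    refine ge_of_tendsto t ?_
    filter_upwards [self_mem_nhdsWithin] with ε hε
    exact key ε hε
  refine ⟨w0, K0, L0, hAdm, by linarith, ?_⟩
  intro w' K' L' hA'
  exact (le_csSup hSb ⟨w', K', L', hA', rfl⟩).trans hfin

end Pool.Agent.H82.Cor
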