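import Pool.Agent.H82.Cor.Geo0

/-!
# Points of the disc outside the body
-/

open MeasureTheory Set Metric

namespace Pool.Agent.H82.Cor

variable {R : ℝ} {A : Finset ℂ} {K L : Set ℂ}

theorem lemA (h : Dat R A K L) (hnon : ∀ a ∈ A, ∀ ε : ℝ, ε ^ 2 = 1 →
    (∀ s, 0 < s → pt ε a s ∈ Tb R A → s ^ 2 < ip a a - 1) →
    ∀ s, 0 < s → pt ε a s ∈ Tb R A → pt ε a s ∈ K) {x y : ℂ} (hx : ip x x ≤ 1)
    (hxT : x ∉ Tb R A) (hy : y ∈ L) (hxy : 1 < ip x y) :
    ∃ a ∈ A, ∃ ε : ℝ, (ε = 1 ∨ ε = -1) ∧ (∃ s, 0 < s ∧ ip a a - 1 ≤ s ^ 2 ∧ pt ε a s ∈ Tb R A) ∧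
      1 < ip a x ∧ 0 < sc ε a x := by
  have hyT : y ∈ Tb R A := h.swap.KT hy
  have hR := h.hR
  have hR2 : (1 : ℝ) ≤ R ^ 2 := by nlinarith
  -- the norm of `y`
  have hyy : 1 < ip y y := by
    have h1 := ip_cs x y
    have h2 := ip_self_nonneg x
    have h3 := ip_self_nonneg y
    nlinarith
  -- the lines which `x` violates
  have hne : (A.filter (fun a => 1 < ip a x)).Nonempty := by
    by_contra hcon
    rw [Finset.not_nonempty_iff_eq_empty, Finset.filter_eq_empty_iff] at hcon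
    exact hxT ⟨hx.trans hR2, fun a ha => not_lt.1 (hcon ha)⟩
  obtain ⟨a, ha, hmin⟩ := Finset.exists_min_image (A.filter (fun a => 1 < ip a x))
    (fun a => (1 - ip a y) / (ip a x - ip a y)) hne
  rw [Finset.mem_filter] at ha
  obtain ⟨haA, hax⟩ := ha
  have hay : ip a y ≤ 1 := hyT.2 a haA
  set t : ℝ := (1 - ip a y) / (ip a x - ip a y) with ht
  have hden : 0 < ip a x - ip a y := by linarith
  have ht0 : 0 ≤ t := div_nonneg (by linarith) hden.le
  have ht1 : t < 1 := by rw [ht, div_lt_one hden]; linarith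
  set r : ℂ := ((1 - t : ℝ) : ℂ) * y + ((t : ℝ) : ℂ) * x with hr
  have hip : ∀ b : ℂ, ip b r = (1 - t) * ip b y + t * ip b x := by
    intro b
    rw [hr, ip_add_right, ip_smul_right, ip_smul_right]
  have har : ip a r = 1 := by
    rw [hip]
    have : t * (ip a x - ip a y) = 1 - ip a y := by rw [ht]; field_simp
    linarith
  have hrr : ip r r ≤ R ^ 2 := by
    have e1 : ip r r = (1 - t) * ip y r + t * ip x r := by
      rw [ip_comm r r, hr]
      simp only [ip, Complex.add_re, Complex.add_im, Complex.mul_re, Complex.mul_im,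
        Complex.ofReal_re, Complex.ofReal_im]
      ring
    rw [e1, hip y, hip x]
    have h1 : ip y y ≤ R ^ 2 := hyT.1
    have h2 : ip x x ≤ R ^ 2 := hx.trans hR2
    have h3 : 2 * ip x y ≤ ip x x + ip y y := by
      simp only [ip]
      nlinarith [sq_nonneg (x.re - y.re), sq_nonneg (x.im - y.im)]
    rw [ip_comm y x]
    have h4 : 0 ≤ t * (1 - t) := mul_nonneg ht0 (by linarith)
    have h5 : 0 ≤ (1 - t) ^ 2 := sq_nonneg _
    have h6 : 0 ≤ t ^ 2 := sq_nonneg _
    nlinarith [mul_le_mul_of_nonneg_left h3 h4, mul_le_mul_of_nonneg_left h1 h5,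
      mul_le_mul_of_nonneg_left h2 h6, mul_le_mul_of_nonneg_left h1 h4,
      mul_le_mul_of_nonneg_left h2 h4]
  have hrT : r ∈ Tb R A := by
    refine ⟨hrr, fun b hb => ?_⟩
    rw [hip]
    have hby : ip b y ≤ 1 := hyT.2 b hb
    rcases le_or_gt (ip b x) 1 with h1 | h1
    · nlinarith
    · have h2 := hmin b (Finset.mem_filter.2 ⟨hb, h1⟩)
      have h3 : 0 < ip b x - ip b y := by linarith
      have h4 : t * (ip b x - ip b y) ≤ 1 - ip b y := by
        rw [← le_div_iff₀ h3]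
        exact h2
      linarith
  have hry : 1 < ip r y := by
    rw [ip_comm, hip, ip_comm y x]
    rcases lt_or_eq_of_le ht0 with h1 | h1
    · nlinarith [mul_lt_mul_of_pos_left hxy h1, mul_lt_mul_of_pos_left hyy (sub_pos.2 ht1)]
    · rw [← h1]; linarith
  have hrK : r ∉ K := fun hrK => absurd (h.KL hrK hy) (not_le.2 hry)
  have hm := h.m_gt haA
  have hm0 : ip a a ≠ 0 := h.m_ne haA
  have hmp : 0 < ip a a := by linarith
  -- choose the orientation
  obtain ⟨ε, hε, hs⟩ : ∃ ε : ℝ, (ε = 1 ∨ ε = -1) ∧ 0 ≤ sc ε a r := by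
    rcases le_total 0 (sc 1 a r) with h1 | h1
    · exact ⟨1, Or.inl rfl, h1⟩
    · refine ⟨-1, Or.inr rfl, ?_⟩
      rw [sc_neg_eps]
      linarith
  have hε2 : ε ^ 2 = 1 := by rcases hε with rfl | rfl <;> norm_num
  have e1 := ip_mul hε2 a r y
  rw [har, one_mul] at e1
  have g1 : ip a a < ip a y + sc ε a r * sc ε a y := by
    rw [← e1]
    nlinarith
  have hSy : 0 < sc ε a r * sc ε a y := by linarith
  have hs0 : 0 < sc ε a r := by
    rcases lt_or_eq_of_le hs with h1 | h1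
    · exact h1
    · rw [← h1, zero_mul] at hSy
      exact absurd hSy (lt_irrefl _)
  have hSy0 : 0 < sc ε a y := (pos_iff_pos_of_mul_pos hSy).1 hs0
  refine ⟨a, haA, ε, hε, ?_, hax, ?_⟩
  · by_contra hcon
    push Not at hcon
    have h1 := hnon a haA ε hε2 (fun s h2 h3 => by
      by_contra h4
      exact hcon s h2 (not_lt.1 h4) h3) (sc ε a r) hs0 (by rw [← eq_pt hε2 hm0 har]; exact hrT)
    rw [← eq_pt hε2 hm0 har] at h1
    exact hrK h1
  · by_contra hcon
    push Not at hcon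
    have e2 := ip_mul hε2 a x y
    have e3 := ip_mul hε2 a x x
    have g2 : ip a a < ip a x * ip a y + sc ε a x * sc ε a y := by
      rw [← e2]
      nlinarith
    have g3 : ip a x * ip a x + sc ε a x * sc ε a x ≤ ip a a := by
      rw [← e3]
      nlinarith
    have g4 : sc ε a x * sc ε a y ≤ 0 := mul_nonpos_of_nonpos_of_nonneg hcon hSy0.le
    have g5 : ip a x * ip a y ≤ ip a x := by nlinarith
    have g6 : ip a a < ip a x := by linarith
    nlinarith [mul_self_nonneg (sc ε a x)]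

end Pool.Agent.H82.Cor
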