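import Pool.Agent.H82.Cor.ExtDefs
import Pool.Agent.H82.Cor.LemA

/-!
# The extension of a maximal pair: duality
-/

open MeasureTheory Set Metric

namespace Pool.Agent.H82.Cor

variable {R : ℝ} {A : Finset ℂ} {K L : Set ℂ}

/-- `L` against the rest of the disc. -/
lemma G0_L (h : Dat R A K L) {x y : ℂ} (hx : x ∈ G0 R A) (hy : y ∈ L) : ip x y ≤ 1 := by
  by_contra hcon
  push Not at hcon
  obtain ⟨⟨h1, h2⟩, h3⟩ := hx
  obtain ⟨a, ha, ε, hε, he, h4, h5⟩ := lemA h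
    (fun a ha ε hε hne s hs hT => Znon h ha hε hne hs hT) h1 h2 hy hcon
  apply h3
  simp only [mem_iUnion]
  exact ⟨(a, ε), mem_Ends.2 ⟨ha, hε, he⟩, h4, h5⟩

lemma cap_G0 {ε : ℝ} (hε : ε ^ 2 = 1) {a : ℂ} (ha : 1 < ip a a) {k l : ℝ} (hk : 0 < k)
    (hl : 0 < l) (hkl : k * l = ip a a - 1) {x y : ℂ} (hx : x ∈ cap ε a (k / l))
    (hy1 : ip y y ≤ 1) (hyQ : ¬ (1 < ip a y ∧ 0 < sc ε a y)) (hy2 : ip (pt ε a k) y ≤ 1) :
    ip x y ≤ 1 := by
  by_cases hy : ip a y ≤ 1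
  · exact cap_four hε ha hk hl hkl hx hy hy2
  · push Not at hy
    have hs : sc ε a y ≤ 0 := by
      by_contra hcon
      push Not at hcon
      exact hyQ ⟨hy, hcon⟩
    obtain ⟨b1, b2, b3, b4, b5, b6⟩ := cap_basic hk hl hkl hx
    have e := ip_mul hε a x y
    have e1 : sc ε a x * sc ε a y ≤ 0 := mul_nonpos_of_nonneg_of_nonpos b2.le hs
    have e2 : ip a y ^ 2 ≤ ip a a := by
      have := ip_cs a y
      nlinarith
    have e3 : ip a x * ip a y ≤ ip a a := by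
      nlinarith [sq_nonneg (ip a x - ip a y)]
    have e4 : ip a a * ip x y ≤ ip a a * 1 := by linarith
    exact le_of_mul_le_mul_left e4 (by linarith)

theorem pair (h : Dat R A K L) : ∀ x ∈ Kh R A K, ∀ y ∈ Lh R A K L, ip x y ≤ 1 := by
  intro x hx y hy
  unfold Kh at hx
  unfold Lh at hy
  rcases hx with (hx | hx) | hx
  · rcases hy with (hy | hy) | hy
    · exact h.KL hx hy
    · rw [ip_comm]
      exact G0_L h.swap hy hx
    · simp only [mem_iUnion] at hy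
      obtain ⟨i, hi, hyi⟩ := hy
      obtain ⟨hi1, hi2, hi3, hi4, hi5⟩ := kf_spec h hi
      obtain ⟨hai, hεi, _⟩ := mem_Ends.1 hi
      rw [ip_comm]
      exact cap_four (sq_eps hεi) (h.m_gt hai) hi2 hi1 (by rw [mul_comm]; exact hi3) hyi
        ((h.KT hx).2 _ hai) (by rw [ip_comm]; exact h.KL hx hi5)
  · rcases hy with (hy | hy) | hy
    · exact G0_L h hx hy
    · have h1 : ip x x ≤ 1 := hx.1.1
      have h2 : ip y y ≤ 1 := hy.1.1
      have h3 := ip_cs x y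
      nlinarith [ip_self_nonneg x, ip_self_nonneg y]
    · simp only [mem_iUnion] at hy
      obtain ⟨i, hi, hyi⟩ := hy
      obtain ⟨hi1, hi2, hi3, hi4, hi5⟩ := kf_spec h hi
      obtain ⟨hai, hεi, _⟩ := mem_Ends.1 hi
      rw [ip_comm]
      refine cap_G0 (sq_eps hεi) (h.m_gt hai) hi2 hi1 (by rw [mul_comm]; exact hi3) hyi
        hx.1.1 ?_ (by rw [ip_comm]; exact G0_L h hx hi5)
      intro hQ
      apply hx.2
      simp only [mem_iUnion]
      exact ⟨i, hi, hQ⟩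
  · simp only [mem_iUnion] at hx
    obtain ⟨i, hi, hxi⟩ := hx
    obtain ⟨hi1, hi2, hi3, hi4, hi5⟩ := kf_spec h hi
    obtain ⟨hai, hεi, _⟩ := mem_Ends.1 hi
    rcases hy with (hy | hy) | hy
    · exact cap_four (sq_eps hεi) (h.m_gt hai) hi1 hi2 hi3 hxi ((h.swap.KT hy).2 _ hai)
        (h.KL hi4 hy)
    · refine cap_G0 (sq_eps hεi) (h.m_gt hai) hi1 hi2 hi3 hxi hy.1.1 ?_
        (by rw [ip_comm]; exact G0_L h.swap hy hi4)
      intro hQ
      apply hy.2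
      simp only [mem_iUnion]
      exact ⟨i, hi, hQ⟩
    · simp only [mem_iUnion] at hy
      obtain ⟨j, hj, hyj⟩ := hy
      obtain ⟨hj1, hj2, hj3, hj4, hj5⟩ := kf_spec h hj
      obtain ⟨haj, hεj, _⟩ := mem_Ends.1 hj
      refine cap_pair h hai haj hεi hεj hi1 hi2 hj1 hj2 hi3 hj3 hi4 hi5 hj4 hj5 ?_ hxi hyj
      intro h1 h2
      rw [Prod.ext (show i.1 = j.1 from h1) (show i.2 = j.2 from h2)]

end Pool.Agent.H82.Cor
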