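import Pool.Agent.H82.Cor.ExtMeas
import Pool.Agent.H82.Cor.ExtPair
import Pool.Agent.H82.Cor.AreaF

/-!
# The extension argument
-/

open MeasureTheory Set Metric

namespace Pool.Agent.H82.Cor

theorem ext_main {R : ℝ} {A : Finset ℂ} {K L : Set ℂ} (h : Dat R A K L) :
    √(volume.real K * volume.real L) ≤ volume.real (Bu ∩ Tb R A) := by
  refine ext_of h (pair h) ?_
  intro i hi μ hμ
  obtain ⟨ha, hε, _⟩ := mem_Ends.1 hi
  have hm := h.m_gt ha
  have ha0 : i.1 ≠ 0 := by
    intro h0
    rw [h0] at hm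
    simp only [ip, Complex.zero_re, Complex.zero_im, mul_zero, add_zero] at hm
    linarith
  have := area_cap (sq_eps hε) ha0 hμ
  rw [Bu_Qd (sq_eps hε) hm]
  exact this

end Pool.Agent.H82.Cor
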