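import Pool.Agent.H82.Cor.Geo

/-!
# The structure of a maximizer: the claims Y and Z
-/

open MeasureTheory Set Metric Filter Topology

namespace Pool.Agent.H82.Cor

variable {R : ℝ} {A : Finset ℂ} {K L : Set ℂ}

/-- The bad edges. -/
def Bad (R : ℝ) (A : Finset ℂ) (K : Set ℂ) (q : ℂ × ℝ) : Prop :=
  q.1 ∈ A ∧ (∀ x ∈ K, ip q.1 x ≠ 1) ∧ ∀ s, pt q.2 q.1 s ∈ Tb R A → 0 < s

/-- Parameters of the points of an edge in the open disc. -/
lemma two_param (h : Dat R A K L) {a : ℂ} (ha : a ∈ A) {ε : ℝ} (hε : ε ^ 2 = 1) :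
    ∃ s₁ s₂, s₁ < s₂ ∧ pt ε a s₁ ∈ Tb R A ∧ pt ε a s₂ ∈ Tb R A ∧ s₁ ^ 2 < ip a a - 1 ∧
      s₂ ^ 2 < ip a a - 1 := by
  have hm' := h.m_ne ha
  have hm := h.m_gt ha
  obtain ⟨x, hx, y, hy, hxy, hx1, hy1, hx2, hy2⟩ := h.f2 a ha
  have e1 := eq_pt hε hm' hx1
  have e2 := eq_pt hε hm' hy1
  have f1 := ip_pt_self hε hm' (sc ε a x)
  have f2 := ip_pt_self hε hm' (sc ε a y)
  rw [← e1] at f1
  rw [← e2] at f2
  have g1 : sc ε a x ^ 2 < ip a a - 1 := by nlinarith
  have g2 : sc ε a y ^ 2 < ip a a - 1 := by nlinarith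
  have hne : sc ε a x ≠ sc ε a y := by
    intro he
    apply hxy
    rw [e1, e2, he]
  rcases lt_or_gt_of_ne hne with h1 | h1
  · exact ⟨_, _, h1, e1 ▸ hx, e2 ▸ hy, g1, g2⟩
  · exact ⟨_, _, h1, e2 ▸ hy, e1 ▸ hx, g2, g1⟩

/-- The compact interval of parameters of an edge. -/
lemma param_compact (hR : 0 ≤ R) {ε : ℝ} (hε : ε ^ 2 = 1) {a : ℂ} (ha : 0 < ip a a) :
    IsCompact {s | pt ε a s ∈ Tb R A} := by
  have hc : IsClosed {s | pt ε a s ∈ Tb R A} := (isClosed_Tb R A).preimage (continuous_pt ε a)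
  refine (isCompact_Icc (a := -(ip a a * R ^ 2 + 1)) (b := ip a a * R ^ 2 + 1)).of_isClosed_subset
    hc (fun s hs => ?_)
  have e := ip_pt_self hε ha.ne' s
  have h1 := mul_le_mul_of_nonneg_left hs.1 ha.le
  rw [e] at h1
  have h2 : 0 ≤ ip a a * R ^ 2 := by positivity
  constructor
  · nlinarith
  · nlinarith

/-- The descent step. -/
lemma descent (h : Dat R A K L) {a : ℂ} {ε : ℝ} (hε : ε ^ 2 = 1) (hbad : Bad R A K (a, ε)) :
    ∃ b, Bad R A K (b, ε) ∧ ∃ x ∈ Tb R A, ip b x = 1 ∧ ∀ y ∈ Tb R A, ip a y = 1 →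
      ip x x < ip y y := by
  obtain ⟨ha, hK, hpos⟩ := hbad
  simp only at ha hK hpos
  have hm' := h.m_ne ha
  have hm := h.m_gt ha
  have hm0 : 0 < ip a a := by linarith
  have hR0 : (0 : ℝ) ≤ R := zero_le_one.trans h.hR
  obtain ⟨s₁, s₂, hs12, hs1T, _, hs1m, _⟩ := two_param h ha hε
  obtain ⟨σ, hσT, hσmin⟩ := (param_compact (A := A) hR0 hε hm0).exists_isLeast ⟨s₁, hs1T⟩
  have hσT' : pt ε a σ ∈ Tb R A := hσT
  have hσ0 : 0 < σ := hpos σ hσT
  have hσ1 : σ ≤ s₁ := hσmin hs1T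
  have hσm : σ ^ 2 < ip a a - 1 := by nlinarith
  set u := pt ε a σ with hu
  have huu : ip u u < 1 := by
    have e := ip_pt_self hε hm' σ
    rw [← hu] at e
    nlinarith
  set d : ℂ := ⟨ε * a.im, -(ε * a.re)⟩ with hd
  have hxd : ∀ x : ℂ, ip x d = sc ε x a := by
    intro x
    simp only [ip, sc, hd]
    ring
  have hshift : ∀ δ : ℝ, u + (δ : ℂ) * d = pt ε a (σ - δ * ip a a) := by
    intro δ
    apply Complex.ext
    · simp only [hu, pt, hd, Complex.add_re, Complex.mul_re, Complex.ofReal_re, Complex.ofReal_im]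
      rw [eq_div_iff hm', add_mul, div_mul_cancel₀ _ hm']
      ring
    · simp only [hu, pt, hd, Complex.add_im, Complex.mul_im, Complex.ofReal_re, Complex.ofReal_im]
      rw [eq_div_iff hm', add_mul, div_mul_cancel₀ _ hm']
      ring
  have hact := active (d := d) hσT' one_pos (by
    intro δ hδ _ hmem
    rw [hshift] at hmem
    have h1 : σ ≤ σ - δ * ip a a := hσmin hmem
    nlinarith)
  rcases hact with ⟨b, hb, hbu, hbd⟩ | ⟨huR, _⟩
  · rw [hxd, sc_swap] at hbd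
    have hbd' : sc ε a b < 0 := by linarith
    set bU := ip a b with hbU
    set bS := sc ε a b with hbS
    have hmb := h.m_gt hb
    have hmb' := h.m_ne hb
    have hmb0 : 0 < ip b b := by linarith
    have r2 : ip a a = bU * ip a u + bS * sc ε a u := line_rel hε hbu
    rw [hu, ip_pt hm', sc_pt hε hm', mul_one] at r2
    have hbU0 : 0 < bU := by nlinarith
    set su := sc ε b u with hsu
    have hsu1 : ip a a * su = bU * σ - bS := by
      have e := sc_mul (ε := ε) a b u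
      rw [← hbU, ← hbS, hu, ip_pt hm', sc_pt hε hm', ← hu] at e
      linarith
    have hsu0 : 0 < su := by
      have : 0 < ip a a * su := by
        rw [hsu1]
        nlinarith
      by_contra hc
      push Not at hc
      nlinarith
    have hu_eq : u = pt ε b su := eq_pt hε hmb' hbu
    have hmax : ∀ s, pt ε b s ∈ Tb R A → s ≤ su := by
      intro s hs
      have f1 : ip a (pt ε b s) ≤ 1 := hs.2 a ha
      have f2 : ip b (pt ε b s) = 1 := ip_pt hmb' s
      have f3 : ip a a = bU * ip a (pt ε b s) + bS * sc ε a (pt ε b s) := line_rel hε f2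
      have f4 := sc_mul (ε := ε) a b (pt ε b s)
      rw [sc_pt hε hmb', ← hbU, ← hbS] at f4
      set Ux := ip a (pt ε b s) with hUx
      set Sx := sc ε a (pt ε b s) with hSx
      have f5 : bS * (ip a a * (s - su)) = (bU ^ 2 + bS ^ 2) * (1 - Ux) := by
        have : ip a a * (s - su) = bU * (Sx - σ) - bS * (Ux - 1) := by
          rw [mul_sub, f4, hsu1]
          ring
        rw [this]
        have h6 : bS * (Sx - σ) = bU * (1 - Ux) := by linarith
        linear_combination bU * h6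
      have f6 : 0 ≤ bS * (ip a a * (s - su)) := by
        rw [f5]
        exact mul_nonneg (by positivity) (by linarith)
      have f7 : ip a a * (s - su) ≤ 0 := by
        by_contra hc
        push Not at hc
        nlinarith
      have f8 : s - su ≤ 0 := by
        by_contra hc
        push Not at hc
        nlinarith
      linarith
    have hsum : su ^ 2 < ip b b - 1 := by
      have e := ip_pt_self hε hmb' su
      rw [← hu_eq] at e
      nlinarith
    have huK : pt ε b su ∉ K := by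
      rw [← hu_eq]
      intro hmem
      exact hK u hmem (ip_pt hm' σ)
    have huT : pt ε b su ∈ Tb R A := hu_eq ▸ hσT'
    have hbK : ∀ x ∈ K, ip b x ≠ 1 := by
      intro x hx hbx
      obtain ⟨k, hk, hkv, _, _, _, hkm⟩ := X h hb hε hsu0 huT hmax huK ⟨x, hx, hbx⟩
      nlinarith
    have hb0 : ∀ s, pt ε b s ∈ Tb R A → 0 < s := by
      intro s hs
      by_contra hc
      push Not at hc
      have h0 : pt ε b 0 ∈ Tb R A := seg hε hmb0 hs huT hc hsu0.le
      refine hbK _ (h.memK.2 ⟨h0, fun y hy => ?_⟩) (ip_pt hmb' 0)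
      refine le_of_mul_le_mul_left ?_ hmb0
      rw [ip_pt_left hε hmb']
      have := (h.swap.KT hy).2 b hb
      linarith
    refine ⟨b, ⟨hb, hbK, hb0⟩, ?_⟩
    obtain ⟨t₁, t₂, ht12, ht1T, ht2T, _, _⟩ := two_param h hb hε
    refine ⟨pt ε b t₁, ht1T, ip_pt hmb' t₁, fun y hy hay => ?_⟩
    have e1 := ip_pt_self hε hmb' t₁
    have e2 := ip_pt_self hε hmb' su
    rw [← hu_eq] at e2
    have e3 := eq_pt hε hm' hay
    have e4 : σ ≤ sc ε a y := by
      apply hσmin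
      change pt ε a (sc ε a y) ∈ Tb R A
      rw [← e3]
      exact hy
    have e5 := ip_pt_self hε hm' (sc ε a y)
    rw [← e3] at e5
    have e6 := ip_pt_self hε hm' σ
    rw [← hu] at e6
    have g1 : ip u u ≤ ip y y := by
      refine le_of_mul_le_mul_left ?_ hm0
      rw [e5, e6]
      nlinarith
    have g2 : t₁ < su := lt_of_lt_of_le ht12 (hmax _ ht2T)
    have g3 : 0 < t₁ := hb0 _ ht1T
    have g4 : ip (pt ε b t₁) (pt ε b t₁) < ip u u := by
      refine lt_of_mul_lt_mul_left ?_ hmb0.le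
      rw [e1, e2]
      nlinarith
    linarith
  · have := h.hR
    nlinarith

/-- No bad edge. -/
lemma no_bad (h : Dat R A K L) {a : ℂ} {ε : ℝ} (hε : ε ^ 2 = 1) : ¬ Bad R A K (a, ε) := by
  classical
  intro hbad
  set F := A.filter (fun b => Bad R A K (b, ε)) with hF
  have hmemF : ∀ b, b ∈ F ↔ Bad R A K (b, ε) := by
    intro b
    rw [hF, Finset.mem_filter]
    exact ⟨fun h => h.2, fun h => ⟨h.1, h⟩⟩
  set g : ℂ → ℝ := fun b => sInf ((fun x => ip x x) '' {x | x ∈ Tb R A ∧ ip b x = 1}) with hg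
  obtain ⟨b, hbF, hbmin⟩ := F.exists_min_image g ⟨a, (hmemF a).2 hbad⟩
  obtain ⟨c, hc, x, hxT, hcx, hx⟩ := descent h hε ((hmemF b).1 hbF)
  have h1 := hbmin c ((hmemF c).2 hc)
  have hbb : ∀ b, BddBelow ((fun x => ip x x) '' {x | x ∈ Tb R A ∧ ip b x = 1}) := by
    intro b
    refine ⟨0, ?_⟩
    rintro _ ⟨y, _, rfl⟩
    exact ip_self_nonneg y
  have h2 : g c ≤ ip x x := csInf_le (hbb c) ⟨x, ⟨hxT, hcx⟩, rfl⟩
  -- the minimum of the edge of b is attained
  have hbA : b ∈ A := ((hmemF b).1 hbF).1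
  have hne : ((fun x => ip x x) '' {x | x ∈ Tb R A ∧ ip b x = 1}).Nonempty := by
    obtain ⟨y, hy, _, _, _, hy1, _⟩ := h.f2 b hbA
    exact ⟨_, y, ⟨hy, hy1⟩, rfl⟩
  have hcomp : IsCompact ((fun x => ip x x) '' {x | x ∈ Tb R A ∧ ip b x = 1}) := by
    refine IsCompact.image ?_ continuous_ip_self
    have e : {x | x ∈ Tb R A ∧ ip b x = 1} = Tb R A ∩ {x | ip b x = 1} := rfl
    rw [e]
    exact (isCompact_Tb (zero_le_one.trans h.hR) A).inter_right
      (isClosed_eq (continuous_ip_right b) continuous_const)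
  obtain ⟨y, ⟨hyT, hby⟩, hyg⟩ := hcomp.sInf_mem hne
  have h3 := hx y hyT hby
  have h4 : ip y y = g b := hyg
  linarith

/-- Claim Y. -/
theorem Y (h : Dat R A K L) {a : ℂ} (ha : a ∈ A) : ∃ x ∈ K, ip a x = 1 := by
  by_contra hcon
  push Not at hcon
  have hm := h.m_gt ha
  have hm0 : 0 < ip a a := by linarith
  have hm' := h.m_ne ha
  have h1 : (1 : ℝ) ^ 2 = 1 := by norm_num
  have h2 : (-1 : ℝ) ^ 2 = 1 := by norm_num
  by_cases hz : pt 1 a 0 ∈ Tb R A
  · refine hcon _ (h.memK.2 ⟨hz, fun y hy => ?_⟩) (ip_pt hm' 0)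
    refine le_of_mul_le_mul_left ?_ hm0
    rw [ip_pt_left h1 hm']
    have := (h.swap.KT hy).2 a ha
    linarith
  · obtain ⟨s₁, s₂, hs12, hs1, hs2, _, _⟩ := two_param h ha h1
    rcases lt_or_ge 0 s₁ with h3 | h3
    · refine no_bad (a := a) h h1 ⟨ha, hcon, fun s hs => ?_⟩
      by_contra hc
      push Not at hc
      exact hz (seg h1 hm0 hs hs1 hc h3.le)
    · refine no_bad (a := a) h h2 ⟨ha, hcon, fun s hs => ?_⟩
      simp only at hs
      rw [pt_neg_eps] at hs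
      by_contra hc
      push Not at hc
      exact hz (seg h1 hm0 hs1 hs h3 (by linarith))

/-- Claim Z away from the ends. -/
theorem Znon (h : Dat R A K L) {a : ℂ} (ha : a ∈ A) {ε : ℝ} (hε : ε ^ 2 = 1)
    (hne : ∀ s, 0 < s → pt ε a s ∈ Tb R A → s ^ 2 < ip a a - 1) {s : ℝ} (hs : 0 < s)
    (hT : pt ε a s ∈ Tb R A) : pt ε a s ∈ K := by
  by_contra hn
  have hm := h.m_gt ha
  have hm0 : 0 < ip a a := by linarith
  have hR0 : (0 : ℝ) ≤ R := zero_le_one.trans h.hR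
  obtain ⟨v, hvT, hvmax⟩ := (param_compact (A := A) hR0 hε hm0).exists_isGreatest ⟨s, hT⟩
  have hsv : s ≤ v := hvmax hT
  have hv0 : 0 < v := lt_of_lt_of_le hs hsv
  have hvK : pt ε a v ∉ K := by
    intro hmem
    refine hn (h.memK.2 ⟨hT, fun y hy => ?_⟩)
    exact L1 hε hm ((h.swap.KT hy).2 a ha) hs.le hsv (h.KL hmem hy)
  obtain ⟨k, hk, hkv, _, _, _, hkm⟩ := X h ha hε hv0 hvT (fun s hs => hvmax hs) hvK (Y h ha)
  have := hne v hv0 hvT
  nlinarith

/-- Claim Z at the ends. -/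
theorem Zend (h : Dat R A K L) {a : ℂ} (ha : a ∈ A) {ε : ℝ} (hε : ε ^ 2 = 1)
    (he : ∃ s, 0 < s ∧ ip a a - 1 ≤ s ^ 2 ∧ pt ε a s ∈ Tb R A) :
    ∃ k, 0 < k ∧ pt ε a k ∈ K ∧ (∀ s, pt ε a s ∈ K → s ≤ k) ∧
      pt ε a ((ip a a - 1) / k) ∈ L := by
  obtain ⟨s₀, hs0, hs1, hs2⟩ := he
  have hm := h.m_gt ha
  have hm0 : 0 < ip a a := by linarith
  have hm' := h.m_ne ha
  have hR0 : (0 : ℝ) ≤ R := zero_le_one.trans h.hR
  obtain ⟨v, hvT, hvmax⟩ := (param_compact (A := A) hR0 hε hm0).exists_isGreatest ⟨s₀, hs2⟩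
  have hvT' : pt ε a v ∈ Tb R A := hvT
  have hsv : s₀ ≤ v := hvmax hs2
  have hv0 : 0 < v := lt_of_lt_of_le hs0 hsv
  have hvm : ip a a - 1 ≤ v ^ 2 := by nlinarith
  have hmax : ∀ s, pt ε a s ∈ Tb R A → s ≤ v := fun s hs => hvmax hs
  by_cases hvK : pt ε a v ∈ K
  · refine ⟨v, hv0, hvK, fun s hs => hmax s (h.KT hs), ?_⟩
    by_cases hvL : pt ε a v ∈ L
    · have h1 := h.KL hvK hvL
      have e := ip_pt_self hε hm' v
      have h2 : (ip a a - 1) / v = v := by
        rw [div_eq_iff hv0.ne']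
        nlinarith
      rw [h2]
      exact hvL
    · obtain ⟨l, hl, hlv, hlL, _, _, hlm⟩ := X h.swap ha hε hv0 hvT' hmax hvL (Y h.swap ha)
      have h1 := h.KL hvK hlL
      have e := ip_pt_left hε hm' v (pt ε a l)
      rw [ip_pt hm', sc_pt hε hm'] at e
      have h2 : (ip a a - 1) / v = l := by
        rw [div_eq_iff hv0.ne']
        nlinarith
      rw [h2]
      exact hlL
  · obtain ⟨k, hk, hkv, hkK, hkg, ⟨z, hz, hz1⟩, hkm⟩ := X h ha hε hv0 hvT' hmax hvK (Y h ha)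
    refine ⟨k, hk, hkK, hkg, ?_⟩
    have hlv : (ip a a - 1) / k ≤ v := by
      rw [div_le_iff₀ hk]
      linarith
    have hl0 : 0 < (ip a a - 1) / k := div_pos (by linarith) hk
    obtain ⟨y, hy, hay⟩ := Y h.swap ha
    have e1 := eq_pt hε hm' hay
    have e2 := h.KL hkK hy
    have e3 := ip_pt_left hε hm' k y
    rw [hay] at e3
    have h1 : sc ε a y ≤ (ip a a - 1) / k := by
      rw [le_div_iff₀ hk]
      nlinarith
    rw [h.swap.memK]
    refine ⟨seg hε hm0 (e1 ▸ h.swap.KT hy) hvT' h1 hlv, fun x hx => ?_⟩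
    refine L2 hε hm ((h.swap.KT hz).2 a ha) ((h.KT hx).2 a ha) hk hz1 (h.KL hx hz) hl0.le ?_
    rw [div_mul_cancel₀ _ hk.ne']

end Pool.Agent.H82.Cor
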