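import Pool.Agent.H82.Cor.Caps
import Pool.Agent.H82.Cor.Geo2

/-!
# The extension of a maximal pair: definitions
-/

open MeasureTheory Set Metric

namespace Pool.Agent.H82.Cor

variable {R : ℝ} {A : Finset ℂ} {K L : Set ℂ}

/-- The open quadrant of `(a, ε)`. -/
def Qd (i : ℂ × ℝ) : Set ℂ := {x | 1 < ip i.1 x ∧ 0 < sc i.2 i.1 x}

/-- The pair `(a, ε)` is an end. -/
def IsEnd (R : ℝ) (A : Finset ℂ) (i : ℂ × ℝ) : Prop :=
  ∃ s, 0 < s ∧ ip i.1 i.1 - 1 ≤ s ^ 2 ∧ pt i.2 i.1 s ∈ Tb R A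

open Classical in
/-- The finite set of ends. -/
noncomputable def Ends (R : ℝ) (A : Finset ℂ) : Finset (ℂ × ℝ) :=
  (A ×ˢ ({1, -1} : Finset ℝ)).filter (IsEnd R A)

/-- The rest of the disc outside of `T`. -/
def G0 (R : ℝ) (A : Finset ℂ) : Set ℂ := (Bu \ Tb R A) \ ⋃ i ∈ Ends R A, Qd i

/-- The last point of `K` on the line. -/
noncomputable def kf (K : Set ℂ) (i : ℂ × ℝ) : ℝ := sSup {s | pt i.2 i.1 s ∈ K}

/-- The last point of `L` on the line. -/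
noncomputable def lf (K : Set ℂ) (i : ℂ × ℝ) : ℝ := (ip i.1 i.1 - 1) / kf K i

/-- The extension of `K`. -/
def Kh (R : ℝ) (A : Finset ℂ) (K : Set ℂ) : Set ℂ :=
  K ∪ G0 R A ∪ ⋃ i ∈ Ends R A, cap i.2 i.1 (kf K i / lf K i)

/-- The extension of `L`. -/
def Lh (R : ℝ) (A : Finset ℂ) (K L : Set ℂ) : Set ℂ :=
  L ∪ G0 R A ∪ ⋃ i ∈ Ends R A, cap i.2 i.1 (lf K i / kf K i)

lemma mem_Ends {i : ℂ × ℝ} : i ∈ Ends R A ↔ i.1 ∈ A ∧ (i.2 = 1 ∨ i.2 = -1) ∧ IsEnd R A i := by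
  classical
  unfold Ends
  simp only [Finset.mem_filter, Finset.mem_product, Finset.mem_insert, Finset.mem_singleton]
  tauto

lemma sq_eps {ε : ℝ} (h : ε = 1 ∨ ε = -1) : ε ^ 2 = 1 := by
  rcases h with rfl | rfl <;> norm_num

/-- Everything about the numbers `kf`, `lf` of an end. -/
lemma kf_spec (h : Dat R A K L) {i : ℂ × ℝ} (hi : i ∈ Ends R A) :
    0 < kf K i ∧ 0 < lf K i ∧ kf K i * lf K i = ip i.1 i.1 - 1 ∧ pt i.2 i.1 (kf K i) ∈ K ∧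
      pt i.2 i.1 (lf K i) ∈ L := by
  obtain ⟨ha, hε, he⟩ := mem_Ends.1 hi
  obtain ⟨k, hk, hkK, hmax, hl⟩ := Zend h ha (sq_eps hε) he
  have hg : IsGreatest {s | pt i.2 i.1 s ∈ K} k := ⟨hkK, fun s hs => hmax s hs⟩
  have hkf : kf K i = k := hg.csSup_eq
  have hm := h.m_gt ha
  unfold lf
  rw [hkf]
  refine ⟨hk, div_pos (by linarith) hk, ?_, hkK, hl⟩
  field_simp

lemma neg_mem_Ends (h : Dat R A K L) {i : ℂ × ℝ} (hi : i ∈ Ends R A) :
    (-i.1, i.2) ∈ Ends R A := by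
  obtain ⟨ha, hε, s, hs, hm, hT⟩ := mem_Ends.1 hi
  refine mem_Ends.2 ⟨h.sym _ ha, hε, s, hs, ?_, ?_⟩
  · simp only
    rw [ip_neg_left, ip_neg_right, neg_neg]
    exact hm
  · simp only
    rw [pt_neg]
    refine ⟨?_, fun b hb => ?_⟩
    · rw [ip_neg_left, ip_neg_right, neg_neg]
      exact hT.1
    · have := hT.2 _ (h.sym _ hb)
      rw [ip_neg_left] at this
      rw [ip_neg_right]
      exact this

lemma kf_neg (hK : ∀ x ∈ K, -x ∈ K) (i : ℂ × ℝ) : kf K (-i.1, i.2) = kf K i := by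
  unfold kf
  congr 1
  ext s
  simp only [mem_ofPred_eq, pt_neg]
  constructor
  · intro hs
    have := hK _ hs
    rwa [neg_neg] at this
  · exact hK _

lemma lf_neg (hK : ∀ x ∈ K, -x ∈ K) (i : ℂ × ℝ) : lf K (-i.1, i.2) = lf K i := by
  unfold lf
  rw [kf_neg hK]
  simp only
  rw [ip_neg_left, ip_neg_right, neg_neg]

end Pool.Agent.H82.Cor
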