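import Mathlib

/-! # The final inequality -/

namespace Pool.Agent.H82.Cor

namespace FinIneqA

lemma two_le {a b s : ℝ} (ha : 0 ≤ a) (hb : 0 ≤ b) (h : s ^ 2 ≤ a * b) : 2 * s ≤ a + b := by
  nlinarith [sq_nonneg (a - b), sq_nonneg (a + b - 2 * s), sq_nonneg (a + b + 2 * s)]

lemma cs {ι : Type*} (s : Finset ι) {b c : ι → ℝ} (hb : ∀ i ∈ s, 0 ≤ b i)
    (hc : ∀ i ∈ s, 0 < c i) :
    (∑ i ∈ s, b i) ^ 2 ≤ (∑ i ∈ s, c i * b i) * ∑ i ∈ s, b i / c i := by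
  have h := Finset.sum_mul_sq_le_sq_mul_sq s (fun i => √(c i * b i)) (fun i => √(b i / c i))
  have h1 : ∀ i ∈ s, √(c i * b i) * √(b i / c i) = b i := by
    intro i hi
    rw [← Real.sqrt_mul (mul_nonneg (hc i hi).le (hb i hi))]
    have h2 : c i * b i * (b i / c i) = b i ^ 2 := by
      field_simp [(hc i hi).ne']
    rw [h2, Real.sqrt_sq (hb i hi)]
  have h3 : ∀ i ∈ s, √(c i * b i) ^ 2 = c i * b i := fun i hi =>
    Real.sq_sqrt (mul_nonneg (hc i hi).le (hb i hi))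
  have h4 : ∀ i ∈ s, √(b i / c i) ^ 2 = b i / c i := fun i hi =>
    Real.sq_sqrt (div_nonneg (hb i hi) (hc i hi).le)
  rw [Finset.sum_congr rfl h1, Finset.sum_congr rfl h3, Finset.sum_congr rfl h4] at h
  exact h

end FinIneqA

open FinIneqA in
/-- helper37, FinIneq.lean -/
theorem fin_ineq {ι : Type*} (s : Finset ι) {k l g v : ℝ} {b c : ι → ℝ} (hk : 0 ≤ k) (hl : 0 ≤ l)
    (hg : 0 ≤ g) (hb : ∀ i ∈ s, 0 ≤ b i) (hc : ∀ i ∈ s, 0 < c i)
    (H : (k + g + ∑ i ∈ s, c i * b i) * (l + g + ∑ i ∈ s, b i / c i) ≤ Real.pi ^ 2)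
    (hv : Real.pi ≤ v + g + ∑ i ∈ s, b i) : √(k * l) ≤ v := by
  have hcs := cs s hb hc
  set S := ∑ i ∈ s, b i with hS
  set A1 := ∑ i ∈ s, c i * b i with hA1
  set A2 := ∑ i ∈ s, b i / c i with hA2
  have hS0 : 0 ≤ S := Finset.sum_nonneg hb
  have h10 : 0 ≤ A1 := Finset.sum_nonneg fun i hi => mul_nonneg (hc i hi).le (hb i hi)
  have h20 : 0 ≤ A2 := Finset.sum_nonneg fun i hi => div_nonneg (hb i hi) (hc i hi).le
  set t := √(k * l) with ht
  have ht0 : 0 ≤ t := Real.sqrt_nonneg _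
  have ht2 : t ^ 2 = k * l := Real.sq_sqrt (mul_nonneg hk hl)
  have e1 : 2 * t ≤ k + l := two_le hk hl ht2.le
  have e2 : 2 * S ≤ A1 + A2 := two_le h10 h20 hcs
  have e3 : 2 * (t * S) ≤ k * A2 + l * A1 := by
    apply two_le (mul_nonneg hk h20) (mul_nonneg hl h10)
    have : k * A2 * (l * A1) = (k * l) * (A1 * A2) := by ring
    rw [this, mul_pow, ht2]
    exact mul_le_mul_of_nonneg_left hcs (mul_nonneg hk hl)
  have e4 : (t + g + S) ^ 2 ≤ Real.pi ^ 2 := by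
    refine le_trans ?_ H
    nlinarith [mul_le_mul_of_nonneg_left e1 hg, mul_le_mul_of_nonneg_left e2 hg]
  have e5 : t + g + S ≤ Real.pi := by
    apply le_of_sq_le_sq e4 Real.pi_pos.le
  linarith

end Pool.Agent.H82.Cor
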