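import Pool.Agent.H82.Cor.Basic
import Pool.Agent.H12.San.Gen

/-!
# The inequality of Blaschke and Santalo for symmetric sets of the plane
-/

open MeasureTheory Set Metric

namespace Pool.Agent.H82.Cor

open Pool.Agent.H12.San

/-- A continuous norm of the plane. -/
structure San2N (g : ℂ → ℝ) (c : ℝ) : Prop where
  pos : 0 < c
  zero : g 0 = 0
  ev : ∀ x, g (-x) = g x
  sub : ∀ x y, g (x + y) ≤ g x + g y
  hom : ∀ r : ℝ, 0 ≤ r → ∀ x, g (r • x) = r * g x
  low : ∀ x, c * ‖x‖ ≤ g x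
  cont : Continuous g

lemma San2N.nn {g : ℂ → ℝ} {c : ℝ} (h : San2N g c) (x : ℂ) : 0 ≤ g x :=
  (mul_nonneg h.pos.le (norm_nonneg x)).trans (h.low x)

lemma San2N.abs {g : ℂ → ℝ} {c : ℝ} (h : San2N g c) (r : ℝ) (x : ℂ) :
    g (r • x) ≤ |r| * g x := by
  rcases le_total 0 r with hr | hr
  · rw [h.hom r hr, abs_of_nonneg hr]
  · have h1 : r • x = -((-r) • x) := by rw [neg_smul, neg_neg]
    rw [h1, h.ev, h.hom (-r) (by linarith), abs_of_nonpos hr]

lemma San2N.eq_zero {g : ℂ → ℝ} {c : ℝ} (h : San2N g c) {x : ℂ} (hx : g x = 0) : x = 0 := by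
  have h1 := h.low x
  rw [hx] at h1
  by_contra h2
  have h3 := mul_pos h.pos (norm_pos_iff.mpr h2)
  linarith

lemma san2_vol {g : ℂ → ℝ} {c : ℝ} (h : San2N g c) :
    volume {x : ℂ | g x ≤ 1} = ENNReal.ofReal (∫ x : ℂ, Real.exp (-(g x ^ 2))) := by
  rw [MeasureTheory.measure_le_eq_lt (volume : Measure ℂ) h.zero h.ev h.sub
    (fun {x} hx => h.eq_zero hx) h.abs 1,
    MeasureTheory.measure_lt_one_eq_integral_div_gamma (volume : Measure ℂ) h.zero h.ev h.sub
    (fun {x} hx => h.eq_zero hx) h.abs (p := 2) (by norm_num)]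
  congr 1
  rw [Complex.finrank_real_complex]
  have h1 : (((2 : ℕ) : ℝ) / 2 + 1) = 2 := by norm_num
  rw [h1, Real.Gamma_two, div_one]
  refine integral_congr_ae (Filter.Eventually.of_forall (fun x => ?_))
  simp only
  rw [Real.rpow_two]

lemma san2_scale {g : ℂ → ℝ} {c : ℝ} (h : San2N g c) :
    ∫ x : ℂ, Real.exp (-(g x ^ 2) / 2) = 2 * ∫ x : ℂ, Real.exp (-(g x ^ 2)) := by
  have h1 := Measure.integral_comp_smul (volume : Measure ℂ)
    (fun x : ℂ => Real.exp (-(g x ^ 2) / 2)) (√2)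
  rw [Complex.finrank_real_complex] at h1
  have h2 : ∀ x : ℂ, Real.exp (-(g (√2 • x) ^ 2) / 2) = Real.exp (-(g x ^ 2)) := by
    intro x
    rw [h.hom _ (Real.sqrt_nonneg 2), mul_pow, Real.sq_sqrt (by norm_num)]
    congr 1
    ring
  simp only [h2] at h1
  rw [h1, Real.sq_sqrt (by norm_num), abs_of_pos (by norm_num : (0 : ℝ) < (2 : ℝ)⁻¹), smul_eq_mul]
  ring

/-- The coordinates. -/
noncomputable def san2_e (u : V 2) : ℂ := ⟨u 0, u 1⟩

lemma san2_e_eq : san2_e = fun u => Complex.measurableEquivPi.symm u := by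
  funext u
  rw [Complex.measurableEquivPi_symm_apply]
  apply Complex.ext <;> simp [san2_e]

lemma san2_mp : MeasurePreserving san2_e volume volume := by
  rw [san2_e_eq]
  exact Complex.volume_preserving_equiv_pi.symm

lemma san2_emb : MeasurableEmbedding san2_e := by
  rw [san2_e_eq]
  exact Complex.measurableEquivPi.symm.measurableEmbedding

lemma san2_coord (i : Fin 2) (u : V 2) : |u i| ≤ ‖san2_e u‖ := by
  fin_cases i
  · exact Complex.abs_re_le_norm (san2_e u)
  · exact Complex.abs_im_le_norm (san2_e u)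

lemma san2_good {g : ℂ → ℝ} {c : ℝ} (h : San2N g c) :
    Good (fun u : V 2 => Real.exp (-(g (san2_e u) ^ 2) / 2)) := by
  have hc := h.pos
  have m1 : Measurable (fun u : V 2 => Real.exp (-(g (san2_e u) ^ 2) / 2)) := by
    have h1 : Measurable (fun u : V 2 => g (san2_e u)) :=
      h.cont.measurable.comp san2_mp.measurable
    exact Real.measurable_exp.comp ((h1.pow_const 2).neg.div_const 2)
  have low : ∀ u : V 2, c ^ 2 * ‖san2_e u‖ ^ 2 ≤ g (san2_e u) ^ 2 := by
    intro u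
    rw [← mul_pow]
    exact pow_le_pow_left₀ (by positivity) (h.low _) 2
  have im : ∀ b : ℝ, 0 < b → Integrable (fun u : V 2 => Real.exp (-b * ‖san2_e u‖ ^ 2)) :=
    fun b hb => san2_mp.integrable_comp_of_integrable (gauss_int (F := ℂ) (b := b) hb)
  refine ⟨m1, fun u => (Real.exp_pos _).le, ?_, ?_⟩
  · refine (im (c ^ 2 / 2) (by positivity)).mono' m1.aestronglyMeasurable
      (Filter.Eventually.of_forall (fun u => ?_))
    rw [Real.norm_eq_abs, abs_of_pos (Real.exp_pos _)]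
    apply Real.exp_le_exp.mpr
    nlinarith [low u]
  · intro i
    have hb : 0 < c ^ 2 / 4 := by positivity
    refine ((im (c ^ 2 / 4) hb).const_mul (1 + 4 / c ^ 2)).mono'
      ((measurable_pi_apply i).mul m1).aestronglyMeasurable
      (Filter.Eventually.of_forall (fun u => ?_))
    rw [Real.norm_eq_abs, abs_mul, abs_of_pos (Real.exp_pos _)]
    have h1 : |u i| ≤ (1 + 4 / c ^ 2) * Real.exp (c ^ 2 / 4 * ‖san2_e u‖ ^ 2) := by
      have h2 := san2_coord i u
      have h3 : c ^ 2 / 4 * ‖san2_e u‖ ^ 2 + 1 ≤ Real.exp (c ^ 2 / 4 * ‖san2_e u‖ ^ 2) :=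
        Real.add_one_le_exp _
      have h4 : ‖san2_e u‖ ≤ (1 + 4 / c ^ 2) * (c ^ 2 / 4 * ‖san2_e u‖ ^ 2 + 1) := by
        have h5 : (1 + 4 / c ^ 2) * (c ^ 2 / 4 * ‖san2_e u‖ ^ 2 + 1) =
            c ^ 2 / 4 * ‖san2_e u‖ ^ 2 + ‖san2_e u‖ ^ 2 + 1 + 4 / c ^ 2 := by
          field_simp
          ring
        rw [h5]
        have h6 : 0 ≤ c ^ 2 / 4 * ‖san2_e u‖ ^ 2 := by positivity
        have h7 : 0 ≤ 4 / c ^ 2 := by positivity
        nlinarith [sq_nonneg (‖san2_e u‖ - 1 / 2)]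
      calc |u i| ≤ (1 + 4 / c ^ 2) * (c ^ 2 / 4 * ‖san2_e u‖ ^ 2 + 1) := h2.trans h4
        _ ≤ _ := by gcongr
    calc |u i| * Real.exp (-(g (san2_e u) ^ 2) / 2)
        ≤ (1 + 4 / c ^ 2) * Real.exp (c ^ 2 / 4 * ‖san2_e u‖ ^ 2) *
          Real.exp (-(g (san2_e u) ^ 2) / 2) := by gcongr
      _ = (1 + 4 / c ^ 2) * Real.exp (c ^ 2 / 4 * ‖san2_e u‖ ^ 2 +
          -(g (san2_e u) ^ 2) / 2) := by rw [mul_assoc, ← Real.exp_add]
      _ ≤ _ := by
        gcongr
        nlinarith [low u]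

/-- The functional inequality for a pair of norms. -/
lemma san2_fun {g1 g2 : ℂ → ℝ} {c1 c2 : ℝ} (h1 : San2N g1 c1) (h2 : San2N g2 c2)
    (H : ∀ x y, ip x y ≤ g1 x * g2 y) :
    (∫ x : ℂ, Real.exp (-(g1 x ^ 2) / 2)) * (∫ x : ℂ, Real.exp (-(g2 x ^ 2) / 2)) ≤
      (2 * Real.pi) ^ 2 := by
  have key := santalo 2 _ _ (san2_good h1) (san2_good h2) ?_ ?_
  · have i1 : ∀ u : ℂ → ℝ, ∫ x, u (san2_e x) = ∫ y, u y := fun u =>
      san2_mp.integral_comp san2_emb u
    rw [i1 (fun x => Real.exp (-(g1 x ^ 2) / 2)), i1 (fun x => Real.exp (-(g2 x ^ 2) / 2))] at key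
    exact key
  · intro i
    have a1 : ∫ x : V 2, x i * Real.exp (-(g1 (san2_e x) ^ 2) / 2) =
        ∫ x : V 2, (-x) i * Real.exp (-(g1 (san2_e (-x)) ^ 2) / 2) :=
      (integral_neg_eq_self (fun x : V 2 => x i * Real.exp (-(g1 (san2_e x) ^ 2) / 2))
        volume).symm
    have a2 : ∀ x : V 2, (-x) i * Real.exp (-(g1 (san2_e (-x)) ^ 2) / 2) =
        -(x i * Real.exp (-(g1 (san2_e x) ^ 2) / 2)) := by
      intro x
      have a3 : san2_e (-x) = -san2_e x := by
        apply Complex.ext <;> simp [san2_e]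
      rw [a3, h1.ev]
      simp
    simp only [a2, integral_neg] at a1
    linarith
  · intro x y
    rw [← Real.exp_add]
    apply Real.exp_le_exp.mpr
    have a1 := H (san2_e x) (san2_e y)
    have a2 : ip (san2_e x) (san2_e y) = x ⬝ᵥ y := by
      simp [ip, san2_e, dotProduct, Fin.sum_univ_two]
    rw [a2] at a1
    nlinarith [sq_nonneg (g1 (san2_e x) - g2 (san2_e y))]

/-- The inequality for a pair of norms. -/
lemma san2_nrm {g1 g2 : ℂ → ℝ} {c1 c2 : ℝ} (h1 : San2N g1 c1) (h2 : San2N g2 c2)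
    (H : ∀ x y, ip x y ≤ g1 x * g2 y) :
    volume {x : ℂ | g1 x ≤ 1} * volume {x : ℂ | g2 x ≤ 1} ≤ ENNReal.ofReal (Real.pi ^ 2) := by
  have h3 := san2_fun h1 h2 H
  rw [san2_scale h1, san2_scale h2] at h3
  rw [san2_vol h1, san2_vol h2]
  have h4 : 0 ≤ ∫ x : ℂ, Real.exp (-(g1 x ^ 2)) := integral_nonneg (fun x => (Real.exp_pos _).le)
  rw [← ENNReal.ofReal_mul h4]
  apply ENNReal.ofReal_le_ofReal
  nlinarith

/-- The gauge of a bounded symmetric convex neighbourhood of the origin. -/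
lemma san2_gauge {K : Set ℂ} (hc : Convex ℝ K) (hs : ∀ x ∈ K, -x ∈ K) {r : ℝ} (hr : 0 < r)
    (hK : K ⊆ closedBall 0 r) (h0 : K ∈ nhds (0 : ℂ)) : San2N (gauge K) (1 / r) := by
  have ha : Absorbent ℝ K := absorbent_nhds_zero h0
  refine ⟨by positivity, gauge_zero, gauge_neg hs, gauge_add_le hc ha, ?_, ?_,
    continuous_gauge hc h0⟩
  · intro t ht x
    rw [gauge_smul_of_nonneg ht, smul_eq_mul]
  · intro x
    have h1 := gauge_mono ha hK x
    rw [gauge_closedBall hr.le] at h1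
    calc 1 / r * ‖x‖ = ‖x‖ / r := by ring
      _ ≤ _ := h1

lemma san2_ip_gauge {K L : Set ℂ} (hK : Absorbent ℝ K) (hL : Absorbent ℝ L)
    (h : ∀ x ∈ K, ∀ y ∈ L, ip x y ≤ 1) (x y : ℂ) : ip x y ≤ gauge K x * gauge L y := by
  have key : ∀ a b : ℝ, gauge K x < a → gauge L y < b → ip x y ≤ a * b := by
    intro a b ha hb
    obtain ⟨a', a0, a1, x', hx', rfl⟩ := exists_lt_of_gauge_lt hK ha
    obtain ⟨b', b0, b1, y', hy', rfl⟩ := exists_lt_of_gauge_lt hL hb
    have h1 := h x' hx' y' hy'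
    have h2 : ip (a' • x') (b' • y') = a' * b' * ip x' y' := by
      simp only [ip, Complex.smul_re, Complex.smul_im, smul_eq_mul]
      ring
    simp only
    rw [h2]
    calc a' * b' * ip x' y' ≤ a' * b' * 1 := by gcongr
      _ ≤ a * b := by nlinarith
  have lim : Filter.Tendsto (fun ε : ℝ => (gauge K x + ε) * (gauge L y + ε))
      (nhdsWithin 0 (Ioi 0)) (nhds ((gauge K x + 0) * (gauge L y + 0))) := by
    have : Continuous (fun ε : ℝ => (gauge K x + ε) * (gauge L y + ε)) := by fun_prop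
    exact (this.tendsto 0).mono_left nhdsWithin_le_nhds
  rw [add_zero, add_zero] at lim
  refine ge_of_tendsto lim ?_
  filter_upwards [self_mem_nhdsWithin] with ε hε
  exact key _ _ (by have : 0 < ε := hε; linarith) (by have : 0 < ε := hε; linarith)

/-- The polar set. -/
def san2_pol (L : Set ℂ) : Set ℂ := {x | ∀ y ∈ L, ip x y ≤ 1}

lemma san2_pol_convex (L : Set ℂ) : Convex ℝ (san2_pol L) := by
  intro x hx z hz a b ha hb hab y hy
  have h1 := hx y hy
  have h2 := hz y hy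
  have h3 : ip (a • x + b • z) y = a * ip x y + b * ip z y := by
    simp only [ip, Complex.add_re, Complex.add_im, Complex.smul_re, Complex.smul_im, smul_eq_mul]
    ring
  rw [h3]
  nlinarith

lemma san2_pol_sym {L : Set ℂ} (hL : ∀ x ∈ L, -x ∈ L) : ∀ x ∈ san2_pol L, -x ∈ san2_pol L := by
  intro x hx y hy
  have h1 := hx (-y) (hL y hy)
  rw [ip_neg_right] at h1
  rw [ip_neg_left]
  exact h1

lemma san2_pol_nhds {L : Set ℂ} {r : ℝ} (hr : 0 < r) (hL : L ⊆ closedBall 0 r) :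
    san2_pol L ∈ nhds (0 : ℂ) := by
  refine Filter.mem_of_superset (closedBall_mem_nhds (0 : ℂ) (by positivity : 0 < 1 / r)) ?_
  intro x hx y hy
  have h1 : ‖x‖ ≤ 1 / r := by simpa using hx
  have h2 : ‖y‖ ≤ r := by simpa using hL hy
  have h3 := ip_cs x y
  rw [ip_self, ip_self, ← mul_pow] at h3
  have h4 : ip x y ≤ ‖x‖ * ‖y‖ := by
    have := abs_le_of_sq_le_sq h3 (by positivity)
    exact (abs_le.mp (abs_le_of_sq_le_sq h3 (by positivity))).2
  calc ip x y ≤ ‖x‖ * ‖y‖ := h4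
    _ ≤ 1 / r * r := by gcongr
    _ = 1 := by field_simp

lemma san2_pol_bdd {K : Set ℂ} (hK : ∀ x ∈ K, -x ∈ K) {x1 x2 : ℂ} (h1 : x1 ∈ K) (h2 : x2 ∈ K)
    (hD : sc 1 x1 x2 ≠ 0) : ∃ r : ℝ, 0 < r ∧ san2_pol K ⊆ closedBall 0 r := by
  set D := sc 1 x1 x2 with hDd
  have hD0 : 0 < |D| := abs_pos.mpr hD
  refine ⟨(|x1.re| + |x1.im| + |x2.re| + |x2.im| + 1) / |D|, by positivity, ?_⟩
  intro y hy
  have b : ∀ x ∈ K, |ip x y| ≤ 1 := by
    intro x hx
    rw [abs_le]
    have e1 := hy x hx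
    have e2 := hy (-x) (hK x hx)
    rw [ip_neg_right] at e2
    rw [ip_comm] at e1 e2
    constructor <;> linarith
  have b1 := b x1 h1
  have b2 := b x2 h2
  have c1 : D * y.re = x2.im * ip x1 y - x1.im * ip x2 y := by
    rw [hDd]; simp only [sc, ip]; ring
  have c2 : D * y.im = x1.re * ip x2 y - x2.re * ip x1 y := by
    rw [hDd]; simp only [sc, ip]; ring
  have d1 : |D| * |y.re| ≤ |x2.im| + |x1.im| := by
    rw [← abs_mul, c1]
    calc |x2.im * ip x1 y - x1.im * ip x2 y| ≤ |x2.im * ip x1 y| + |x1.im * ip x2 y| :=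
          abs_sub _ _
      _ = |x2.im| * |ip x1 y| + |x1.im| * |ip x2 y| := by rw [abs_mul, abs_mul]
      _ ≤ |x2.im| * 1 + |x1.im| * 1 := by gcongr
      _ = _ := by ring
  have d2 : |D| * |y.im| ≤ |x1.re| + |x2.re| := by
    rw [← abs_mul, c2]
    calc |x1.re * ip x2 y - x2.re * ip x1 y| ≤ |x1.re * ip x2 y| + |x2.re * ip x1 y| :=
          abs_sub _ _
      _ = |x1.re| * |ip x2 y| + |x2.re| * |ip x1 y| := by rw [abs_mul, abs_mul]
      _ ≤ |x1.re| * 1 + |x2.re| * 1 := by gcongr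
      _ = _ := by ring
  rw [mem_closedBall, dist_zero_right, le_div_iff₀ hD0]
  have e := Complex.norm_le_abs_re_add_abs_im y
  nlinarith

/-- A set of positive area contains two independent vectors. -/
lemma san2_indep {K : Set ℂ} (hK : volume K ≠ 0) : ∃ x ∈ K, ∃ y ∈ K, sc 1 x y ≠ 0 := by
  by_contra hcon
  push Not at hcon
  apply hK
  by_cases hz : ∃ x ∈ K, x ≠ 0
  · obtain ⟨x, hx, hx0⟩ := hz
    -- K is in the line spanned by x
    have h1 : K ⊆ (Submodule.span ℝ {x} : Submodule ℝ ℂ) := by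
      intro y hy
      have h2 := hcon x hx y hy
      have hN : ip x x ≠ 0 := (ip_self_pos hx0).ne'
      rw [SetLike.mem_coe, Submodule.mem_span_singleton]
      refine ⟨ip x y / ip x x, ?_⟩
      simp only [sc, one_mul] at h2
      apply Complex.ext
      · rw [Complex.smul_re, smul_eq_mul, div_mul_eq_mul_div, div_eq_iff hN]
        simp only [ip]
        linear_combination x.im * h2
      · rw [Complex.smul_im, smul_eq_mul, div_mul_eq_mul_div, div_eq_iff hN]
        simp only [ip]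
        linear_combination -x.re * h2
    refine measure_mono_null h1 ?_
    apply Measure.addHaar_submodule
    intro htop
    have h3 : Module.finrank ℝ (Submodule.span ℝ {x} : Submodule ℝ ℂ) = 2 := by
      rw [htop, finrank_top, Complex.finrank_real_complex]
    rw [finrank_span_singleton hx0] at h3
    norm_num at h3
  · push Not at hz
    refine measure_mono_null (t := {0}) (fun x hx => ?_) (measure_singleton _)
    rw [hz x hx]
    rfl

theorem san2 (K L : Set ℂ) (hK : ∀ x ∈ K, -x ∈ K) (hL : ∀ x ∈ L, -x ∈ L)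
    (h : ∀ x ∈ K, ∀ y ∈ L, ip x y ≤ 1) : volume K * volume L ≤ ENNReal.ofReal (Real.pi ^ 2) := by
  by_cases k0 : volume K = 0
  · rw [k0, zero_mul]; exact zero_le
  by_cases l0 : volume L = 0
  · rw [l0, mul_zero]; exact zero_le
  obtain ⟨x1, hx1, x2, hx2, hx⟩ := san2_indep k0
  obtain ⟨y1, hy1, y2, hy2, hy⟩ := san2_indep l0
  -- the polar of L and the bipolar
  have hKP : K ⊆ san2_pol L := fun x hx y hy => h x hx y hy
  have hPs := san2_pol_sym hL
  have hQs := san2_pol_sym hPs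
  have hLQ : L ⊆ san2_pol (san2_pol L) := by
    intro y hy x hx
    rw [ip_comm]
    exact hx y hy
  obtain ⟨r, r0, hr⟩ := san2_pol_bdd hL hy1 hy2 hy
  obtain ⟨s, s0, hs⟩ := san2_pol_bdd hPs (hKP hx1) (hKP hx2) hx
  have n2 : san2_pol (san2_pol L) ∈ nhds (0 : ℂ) := san2_pol_nhds r0 hr
  have n1 : san2_pol L ∈ nhds (0 : ℂ) :=
    Filter.mem_of_superset (san2_pol_nhds s0 hs) (fun x hx y hy => hx y (hLQ hy))
  have g1 := san2_gauge (san2_pol_convex L) hPs r0 hr n1
  have g2 := san2_gauge (san2_pol_convex (san2_pol L)) hQs s0 hs n2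
  have key := san2_nrm g1 g2 (san2_ip_gauge (absorbent_nhds_zero n1) (absorbent_nhds_zero n2)
    (fun x hx y hy => by rw [ip_comm]; exact hy x hx))
  refine le_trans (mul_le_mul' (measure_mono ?_) (measure_mono ?_)) key
  · exact fun x hx => gauge_le_one_of_mem (hKP hx)
  · exact fun x hx => gauge_le_one_of_mem (hLQ hx)

theorem pn_zero {R : ℝ} (hR : 1 ≤ R) : PN R 0 := by
  intro w K L hK hL _ _ h
  have hBT : Bu ∩ Tw R w = closedBall (0 : ℂ) 1 := by
    rw [← Bu_eq]
    ext x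
    simp only [Bu, Tw, mem_inter_iff, mem_ofPred_eq]
    constructor
    · exact fun h => h.1
    · intro h
      refine ⟨h, ?_, fun i => i.elim0⟩
      nlinarith
  rw [hBT]
  have hpi : volume.real (closedBall (0 : ℂ) 1) = Real.pi := by
    rw [measureReal_def, Complex.volume_closedBall]
    simp
  rw [hpi]
  -- symmetrize
  have e := san2 (K ∪ -K) (L ∪ -L) ?_ ?_ ?_
  · have e1 : volume K ≤ volume (K ∪ -K) := measure_mono subset_union_left
    have e2 : volume L ≤ volume (L ∪ -L) := measure_mono subset_union_left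
    have e3 : volume K * volume L ≤ ENNReal.ofReal (Real.pi ^ 2) := (mul_le_mul' e1 e2).trans e
    have e4 : volume.real K * volume.real L ≤ Real.pi ^ 2 := by
      rw [measureReal_def, measureReal_def, ← ENNReal.toReal_mul]
      exact ENNReal.toReal_le_of_le_ofReal (by positivity) e3
    calc √(volume.real K * volume.real L) ≤ √(Real.pi ^ 2) := Real.sqrt_le_sqrt e4
      _ = Real.pi := Real.sqrt_sq Real.pi_pos.le
  · intro x hx
    rcases hx with hx | hx
    · right; simpa using hx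
    · left; simpa using hx
  · intro x hx
    rcases hx with hx | hx
    · right; simpa using hx
    · left; simpa using hx
  · intro x hx y hy
    have k : ∀ x ∈ K ∪ -K, ∀ y ∈ L, |ip x y| ≤ 1 := by
      intro x hx y hy
      rcases hx with hx | hx
      · exact h x hx y hy
      · have h1 := h (-x) hx y hy
        rwa [ip_neg_left, abs_neg] at h1
    rcases hy with hy | hy
    · exact (abs_le.mp (k x hx y hy)).2
    · have h1 := k x hx (-y) hy
      rw [ip_neg_right, abs_neg] at h1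
      exact (abs_le.mp h1).2

end Pool.Agent.H82.Cor
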