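import Pool.Agent.H82.Cor.ExtDefs
import Pool.Agent.H82.Cor.San2
import Pool.Agent.H82.Cor.FinIneq

/-!
# The extension of a maximal pair: measures
-/

open MeasureTheory Set Metric

namespace Pool.Agent.H82.Cor

variable {R : ℝ} {A : Finset ℂ} {K L : Set ℂ}

lemma measurable_Bu : MeasurableSet Bu := by
  rw [Bu_eq]
  exact isClosed_closedBall.measurableSet

lemma measurable_Tb (R : ℝ) (A : Finset ℂ) : MeasurableSet (Tb R A) := (isClosed_Tb R A).measurableSet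

lemma measurable_Qd (i : ℂ × ℝ) : MeasurableSet (Qd i) := by
  have h1 : IsOpen {x : ℂ | 1 < ip i.1 x} := isOpen_lt continuous_const (continuous_ip_right _)
  have h2 : IsOpen {x : ℂ | 0 < sc i.2 i.1 x} := isOpen_lt continuous_const (continuous_sc _ _)
  exact (h1.inter h2).measurableSet

lemma cap_subset_Qd (i : ℂ × ℝ) (μ : ℝ) : cap i.2 i.1 μ ⊆ Qd i := fun _ hx => ⟨hx.1, hx.2.1⟩

lemma measurable_cap (ε : ℝ) (a : ℂ) (μ : ℝ) : MeasurableSet (cap ε a μ) := by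
  have h3 : IsClosed {x : ℂ | ip a x ^ 2 + sc ε a x ^ 2 / μ ≤ ip a a} := by
    refine isClosed_le ?_ continuous_const
    have h1 := continuous_ip_right a
    have h2 := continuous_sc ε a
    fun_prop
  have : cap ε a μ = Qd (a, ε) ∩ {x : ℂ | ip a x ^ 2 + sc ε a x ^ 2 / μ ≤ ip a a} := by
    ext x
    simp only [cap, Qd, mem_ofPred_eq, mem_inter_iff]
    tauto
  rw [this]
  exact (measurable_Qd _).inter h3.measurableSet

lemma cap_finite {ε : ℝ} (hε : ε ^ 2 = 1) {a : ℂ} (ha : 1 < ip a a) {μ : ℝ} (hμ : 0 < μ) :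
    volume (cap ε a μ) ≠ ⊤ := by
  have hsub : cap ε a μ ⊆ closedBall (0 : ℂ) √(1 + μ) := by
    rw [← disc_subset (Real.sqrt_nonneg _)]
    intro x hx
    simp only [mem_ofPred_eq]
    rw [Real.sq_sqrt (by linarith)]
    obtain ⟨_, _, h3⟩ := hx
    have h4 := ip_mul hε a x x
    have h5 : sc ε a x ^ 2 / μ ≤ ip a a := by nlinarith [sq_nonneg (ip a x)]
    rw [div_le_iff₀ hμ] at h5
    have h6 : 0 ≤ sc ε a x ^ 2 / μ := by positivity
    have h7 : ip a a * ip x x ≤ ip a a * (1 + μ) := by nlinarith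
    exact le_of_mul_le_mul_left h7 (by linarith)
  exact ((measure_mono hsub).trans_lt (isCompact_closedBall _ _).measure_lt_top).ne

lemma Bu_finite {s : Set ℂ} (h : s ⊆ Bu) : volume s ≠ ⊤ := by
  rw [Bu_eq] at h
  exact ((measure_mono h).trans_lt (isCompact_closedBall _ _).measure_lt_top).ne

lemma G0_subset : G0 R A ⊆ Bu := fun _ hx => hx.1.1

lemma measurable_G0 : MeasurableSet (G0 R A) := by
  unfold G0
  refine (measurable_Bu.diff (measurable_Tb R A)).diff ?_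
  exact Finset.measurableSet_biUnion _ fun i _ => measurable_Qd i

/-- The unit disc in the coordinates of a line. -/
lemma Bu_Qd {i : ℂ × ℝ} (hε : i.2 ^ 2 = 1) (hm : 1 < ip i.1 i.1) :
    Bu ∩ Qd i = {x : ℂ | 1 < ip i.1 x ∧ 0 < sc i.2 i.1 x ∧
      ip i.1 x ^ 2 + sc i.2 i.1 x ^ 2 ≤ ip i.1 i.1} := by
  ext x
  simp only [Bu, Qd, mem_inter_iff, mem_ofPred_eq]
  have h := ip_mul hε i.1 x x
  constructor
  · rintro ⟨h1, h2, h3⟩
    refine ⟨h2, h3, ?_⟩
    nlinarith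
  · rintro ⟨h2, h3, h4⟩
    refine ⟨?_, h2, h3⟩
    have h5 : ip i.1 i.1 * ip x x ≤ ip i.1 i.1 * 1 := by nlinarith
    exact le_of_mul_le_mul_left h5 (by linarith)

/-- The measure of an extension. -/
lemma real_ext {K0 : Set ℂ} (hKT : K0 ⊆ Tb R A) (hKc : IsCompact K0) (E : Finset (ℂ × ℝ))
    (hE : E = Ends R A) (μ : ℂ × ℝ → ℝ) (hμ : ∀ i ∈ E, 0 < μ i)
    (hm : ∀ i ∈ E, i.2 ^ 2 = 1 ∧ 1 < ip i.1 i.1 ∧ i.1 ∈ A)
    (hdisj : ∀ i ∈ E, ∀ j ∈ E, ∀ x, x ∈ cap i.2 i.1 (μ i) → x ∈ cap j.2 j.1 (μ j) → i = j) :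
    volume.real (K0 ∪ G0 R A ∪ ⋃ i ∈ E, cap i.2 i.1 (μ i)) =
      volume.real K0 + volume.real (G0 R A) + ∑ i ∈ E, volume.real (cap i.2 i.1 (μ i)) := by
  have hKfin : volume K0 ≠ ⊤ := hKc.measure_lt_top.ne
  have hGfin : volume (G0 R A) ≠ ⊤ := Bu_finite G0_subset
  have hcfin : ∀ i ∈ E, volume (cap i.2 i.1 (μ i)) ≠ ⊤ := fun i hi =>
    cap_finite (hm i hi).1 (hm i hi).2.1 (hμ i hi)
  have hUfin : volume (⋃ i ∈ E, cap i.2 i.1 (μ i)) ≠ ⊤ := by
    refine ((measure_biUnion_finset_le E _).trans_lt ?_).ne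
    exact ENNReal.sum_lt_top.2 fun i hi => (hcfin i hi).lt_top
  have hKG : Disjoint K0 (G0 R A) := by
    rw [Set.disjoint_left]
    intro x hx hx'
    exact hx'.1.2 (hKT hx)
  have hKGfin : volume (K0 ∪ G0 R A) ≠ ⊤ :=
    ((measure_union_le _ _).trans_lt (ENNReal.add_lt_top.2 ⟨hKfin.lt_top, hGfin.lt_top⟩)).ne
  have hC : Disjoint (K0 ∪ G0 R A) (⋃ i ∈ E, cap i.2 i.1 (μ i)) := by
    rw [Set.disjoint_left]
    intro x hx hx'
    simp only [mem_iUnion] at hx'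
    obtain ⟨i, hi, hxi⟩ := hx'
    rcases hx with hx | hx
    · have := (hKT hx).2 _ (hm i hi).2.2
      have h2 := hxi.1
      linarith
    · apply hx.2
      simp only [mem_iUnion]
      exact ⟨i, hE ▸ hi, cap_subset_Qd i _ hxi⟩
  rw [measureReal_union hC (Finset.measurableSet_biUnion _ fun i _ => measurable_cap _ _ _)
    hKGfin hUfin, measureReal_union hKG measurable_G0 hKfin hGfin]
  congr 1
  exact measureReal_biUnion_finset (fun i hi j hj hij => by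
      rw [Function.onFun, Set.disjoint_left]
      intro x hx hx'
      exact hij (hdisj i hi j hj x hx hx')) (fun i _ => measurable_cap _ _ _) hcfin

lemma Tb_neg (h : Dat R A K L) {x : ℂ} (hT : x ∈ Tb R A) : -x ∈ Tb R A := by
  refine ⟨?_, fun b hb => ?_⟩
  · rw [ip_neg_left, ip_neg_right, neg_neg]
    exact hT.1
  · have := hT.2 _ (h.sym _ hb)
    rw [ip_neg_left] at this
    rw [ip_neg_right]
    exact this

lemma Qd_neg {i : ℂ × ℝ} {x : ℂ} (hx : -x ∈ Qd i) : x ∈ Qd (-i.1, i.2) := by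
  obtain ⟨h1, h2⟩ := hx
  refine ⟨?_, ?_⟩
  · simp only
    rw [ip_neg_right] at h1
    rw [ip_neg_left]
    exact h1
  · simp only
    rw [sc_neg_right] at h2
    rw [sc_neg_left]
    exact h2

lemma G0_neg (h : Dat R A K L) {x : ℂ} (hx : x ∈ G0 R A) : -x ∈ G0 R A := by
  obtain ⟨⟨h1, h2⟩, h3⟩ := hx
  refine ⟨⟨?_, ?_⟩, ?_⟩
  · simp only [Bu, mem_ofPred_eq] at h1 ⊢
    rw [ip_neg_left, ip_neg_right, neg_neg]
    exact h1
  · intro h4
    apply h2
    have := Tb_neg h h4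
    rwa [neg_neg] at this
  · intro h4
    apply h3
    simp only [mem_iUnion] at h4 ⊢
    obtain ⟨i, hi, hxi⟩ := h4
    exact ⟨(-i.1, i.2), neg_mem_Ends h hi, Qd_neg hxi⟩

lemma cap_neg {ε : ℝ} {a : ℂ} {μ : ℝ} {x : ℂ} (hx : x ∈ cap ε a μ) : -x ∈ cap ε (-a) μ := by
  obtain ⟨h1, h2, h3⟩ := hx
  refine ⟨?_, ?_, ?_⟩
  · rw [ip_neg_left, ip_neg_right, neg_neg]
    exact h1
  · rw [sc_neg_left, sc_neg_right, neg_neg]
    exact h2
  · rw [ip_neg_left, ip_neg_right, neg_neg, sc_neg_left, sc_neg_right, neg_neg, ip_neg_left,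
      ip_neg_right, neg_neg]
    exact h3

lemma Kh_neg (h : Dat R A K L) {x : ℂ} (hx : x ∈ Kh R A K) : -x ∈ Kh R A K := by
  unfold Kh at hx ⊢
  rcases hx with (hx | hx) | hx
  · exact Or.inl (Or.inl (h.symK _ hx))
  · exact Or.inl (Or.inr (G0_neg h hx))
  · right
    simp only [mem_iUnion] at hx ⊢
    obtain ⟨i, hi, hxi⟩ := hx
    refine ⟨(-i.1, i.2), neg_mem_Ends h hi, ?_⟩
    rw [kf_neg h.symK, lf_neg h.symK]
    exact cap_neg hxi

lemma Lh_neg (h : Dat R A K L) {x : ℂ} (hx : x ∈ Lh R A K L) : -x ∈ Lh R A K L := by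
  unfold Lh at hx ⊢
  rcases hx with (hx | hx) | hx
  · exact Or.inl (Or.inl (h.symL _ hx))
  · exact Or.inl (Or.inr (G0_neg h hx))
  · right
    simp only [mem_iUnion] at hx ⊢
    obtain ⟨i, hi, hxi⟩ := hx
    refine ⟨(-i.1, i.2), neg_mem_Ends h hi, ?_⟩
    rw [kf_neg h.symK, lf_neg h.symK]
    exact cap_neg hxi

lemma pi_le : Real.pi ≤ volume.real (Bu ∩ Tb R A) + volume.real (G0 R A) +
    ∑ i ∈ Ends R A, volume.real (Bu ∩ Qd i) := by
  have hpi : volume.real Bu = Real.pi := by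
    rw [Bu_eq, Measure.real, Complex.volume_closedBall]
    simp
  have hsub : Bu ⊆ (Bu ∩ Tb R A) ∪ G0 R A ∪ ⋃ i ∈ Ends R A, Bu ∩ Qd i := by
    intro x hx
    by_cases hT : x ∈ Tb R A
    · exact Or.inl (Or.inl ⟨hx, hT⟩)
    · by_cases hQ : x ∈ ⋃ i ∈ Ends R A, Qd i
      · right
        simp only [mem_iUnion] at hQ ⊢
        obtain ⟨i, hi, hxi⟩ := hQ
        exact ⟨i, hi, hx, hxi⟩
      · exact Or.inl (Or.inr ⟨⟨hx, hT⟩, hQ⟩)
  have h1 : volume.real Bu ≤
      volume.real ((Bu ∩ Tb R A) ∪ G0 R A ∪ ⋃ i ∈ Ends R A, Bu ∩ Qd i) := by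
    refine measureReal_mono hsub (Bu_finite ?_)
    intro x hx
    rcases hx with (hx | hx) | hx
    · exact hx.1
    · exact G0_subset hx
    · simp only [mem_iUnion] at hx
      obtain ⟨i, _, hxi⟩ := hx
      exact hxi.1
  rw [hpi] at h1
  refine h1.trans ((measureReal_union_le _ _).trans ?_)
  refine add_le_add (measureReal_union_le _ _) ?_
  exact measureReal_biUnion_finset_le _ _

theorem ext_of (h : Dat R A K L) (hpair : ∀ x ∈ Kh R A K, ∀ y ∈ Lh R A K L, ip x y ≤ 1)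
    (harea : ∀ i ∈ Ends R A, ∀ μ : ℝ, 0 < μ →
      volume.real (cap i.2 i.1 μ) = √μ * volume.real (Bu ∩ Qd i)) :
    √(volume.real K * volume.real L) ≤ volume.real (Bu ∩ Tb R A) := by
  have hm : ∀ i ∈ Ends R A, i.2 ^ 2 = 1 ∧ 1 < ip i.1 i.1 ∧ i.1 ∈ A := by
    intro i hi
    obtain ⟨ha, hε, _⟩ := mem_Ends.1 hi
    exact ⟨sq_eps hε, h.m_gt ha, ha⟩
  have hK : volume.real (Kh R A K) = volume.real K + volume.real (G0 R A) +
      ∑ i ∈ Ends R A, √(kf K i / lf K i) * volume.real (Bu ∩ Qd i) := by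
    unfold Kh
    rw [real_ext (fun x hx => h.KT hx) h.compactK (Ends R A) rfl (fun i => kf K i / lf K i)
      (fun i hi => div_pos (kf_spec h hi).1 (kf_spec h hi).2.1) hm ?_]
    · congr 1
      refine Finset.sum_congr rfl fun i hi => ?_
      exact harea i hi _ (div_pos (kf_spec h hi).1 (kf_spec h hi).2.1)
    · intro i hi j hj x hx hx'
      obtain ⟨hi1, hi2, hi3, hi4, hi5⟩ := kf_spec h hi
      obtain ⟨hj1, hj2, hj3, hj4, hj5⟩ := kf_spec h hj
      obtain ⟨hai, hεi, _⟩ := mem_Ends.1 hi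
      obtain ⟨haj, hεj, _⟩ := mem_Ends.1 hj
      have := cap_disj h hai haj hεi hεj hi1 hi2 hj1 hj2 hi3 hj3 hi4 hi5 hj4 hj5 hx hx'
      exact Prod.ext this.1 this.2
  have hL : volume.real (Lh R A K L) = volume.real L + volume.real (G0 R A) +
      ∑ i ∈ Ends R A, √(lf K i / kf K i) * volume.real (Bu ∩ Qd i) := by
    unfold Lh
    rw [real_ext (fun x hx => h.swap.KT hx) h.swap.compactK (Ends R A) rfl
      (fun i => lf K i / kf K i)
      (fun i hi => div_pos (kf_spec h hi).2.1 (kf_spec h hi).1) hm ?_]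
    · congr 1
      refine Finset.sum_congr rfl fun i hi => ?_
      exact harea i hi _ (div_pos (kf_spec h hi).2.1 (kf_spec h hi).1)
    · intro i hi j hj x hx hx'
      obtain ⟨hi1, hi2, hi3, hi4, hi5⟩ := kf_spec h hi
      obtain ⟨hj1, hj2, hj3, hj4, hj5⟩ := kf_spec h hj
      obtain ⟨hai, hεi, _⟩ := mem_Ends.1 hi
      obtain ⟨haj, hεj, _⟩ := mem_Ends.1 hj
      have := cap_disj h.swap hai haj hεi hεj hi2 hi1 hj2 hj1 (by rw [mul_comm]; exact hi3)
        (by rw [mul_comm]; exact hj3) hi5 hi4 hj5 hj4 hx hx'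
      exact Prod.ext this.1 this.2
  have hsan := san2 (Kh R A K) (Lh R A K L) (fun x hx => Kh_neg h hx) (fun x hx => Lh_neg h hx)
    hpair
  have hsan' : volume.real (Kh R A K) * volume.real (Lh R A K L) ≤ Real.pi ^ 2 := by
    unfold Measure.real
    rw [← ENNReal.toReal_mul]
    refine ENNReal.toReal_le_of_le_ofReal (by positivity) hsan
  rw [hK, hL] at hsan'
  refine fin_ineq (Ends R A) (k := volume.real K) (l := volume.real L) (g := volume.real (G0 R A))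
    (b := fun i => volume.real (Bu ∩ Qd i)) (c := fun i => √(kf K i / lf K i))
    measureReal_nonneg measureReal_nonneg measureReal_nonneg (fun i _ => measureReal_nonneg)
    (fun i hi => Real.sqrt_pos.2 (div_pos (kf_spec h hi).1 (kf_spec h hi).2.1)) ?_ pi_le
  have hsum : ∑ i ∈ Ends R A, volume.real (Bu ∩ Qd i) / √(kf K i / lf K i) =
      ∑ i ∈ Ends R A, √(lf K i / kf K i) * volume.real (Bu ∩ Qd i) := by
    refine Finset.sum_congr rfl fun i hi => ?_
    rw [← inv_div (kf K i) (lf K i), Real.sqrt_inv, div_eq_inv_mul]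
  rw [hsum]
  exact hsan'

end Pool.Agent.H82.Cor
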