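import Pool.Agent.H82.Cor.Geo0

/-!
# The structure of a maximizer: the claims X, Y, Z
-/

open MeasureTheory Set Metric Filter Topology

namespace Pool.Agent.H82.Cor

variable {R : ℝ} {A : Finset ℂ} {K L : Set ℂ}

/-- Two coordinate relations on a second line. -/
lemma line_rel {ε : ℝ} (hε : ε ^ 2 = 1) {a b x : ℂ} (hb : ip b x = 1) :
    ip a a = ip a b * ip a x + sc ε a b * sc ε a x := by
  have := ip_mul hε a b x
  rw [hb] at this
  linarith

lemma not_memK (h : Dat R A K L) {x : ℂ} (hT : x ∈ Tb R A) (hx : x ∉ K) : ∃ y ∈ L, 1 < ip x y := by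
  by_contra hcon
  push Not at hcon
  exact hx (h.memK.2 ⟨hT, hcon⟩)

/-- The main step of claim X. -/
lemma Xcore (h : Dat R A K L) {a : ℂ} (ha : a ∈ A) {ε : ℝ} (hε : ε ^ 2 = 1) {k v : ℝ}
    (hk : 0 < k) (hkv : k < v) (hvT : pt ε a v ∈ Tb R A)
    (hmax : ∀ s, pt ε a s ∈ Tb R A → s ≤ v) (hkK : pt ε a k ∈ K)
    (hvL : ∃ y ∈ L, 1 < ip (pt ε a v) y) (hz : ∃ z ∈ L, 1 ≤ ip (pt ε a k) z) :
    ip a a - 1 ≤ k * v := by
  by_contra hlt
  push Not at hlt
  have hm := h.m_gt ha
  have hm0 : 0 < ip a a := by linarith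
  have hm' := h.m_ne ha
  set p := pt ε a k with hp
  have hpp : ip p p < 1 := by
    have e := ip_pt_self hε hm' k
    rw [← hp] at e
    have : k ^ 2 < k * v := by nlinarith
    nlinarith
  have hR0 : (0 : ℝ) ≤ R := zero_le_one.trans h.hR
  have hTc := isCompact_Tb hR0 A
  -- the maximizer
  obtain ⟨x₀, hx₀, hx₀m⟩ := hTc.exists_isMaxOn ⟨_, hvT⟩ (continuous_ip_right p).continuousOn
  set F : Set ℂ := Tb R A ∩ {x | ip p x₀ ≤ ip p x} with hF
  have hFc : IsCompact F := hTc.inter_right (isClosed_le continuous_const (continuous_ip_right p))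
  obtain ⟨w, hwF, hwm⟩ := hFc.exists_isMinOn ⟨x₀, hx₀, le_refl (ip p x₀)⟩
    (continuous_sc ε p).continuousOn
  have hwT : w ∈ Tb R A := hwF.1
  have hwmax : ∀ y ∈ Tb R A, ip p y ≤ ip p w := fun y hy => (hx₀m hy).trans hwF.2
  have hpw : 1 ≤ ip p w := by
    obtain ⟨z, hz1, hz2⟩ := hz
    exact hz2.trans (hwmax z (h.swap.KT hz1))
  -- the frame of a
  set U := ip a w with hU
  set S := sc ε a w with hS
  have hU1 : U ≤ 1 := hwT.2 a ha
  have hUS : ip a a ≤ U + k * S := by
    have e := ip_pt_left hε hm' k w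
    rw [← hp, ← hU, ← hS] at e
    nlinarith
  have hSv : v < S := by
    by_contra hc
    push Not at hc
    nlinarith
  have hS0 : 0 < S := by linarith
  -- the active constraint
  set d : ℂ := ⟨ε * p.im, -(ε * p.re)⟩ with hd
  have hxd : ∀ x : ℂ, ip x d = sc ε x p := by
    intro x
    simp only [ip, sc, hd]
    ring
  have hact := active (d := d) hwT one_pos (by
    intro δ hδ _ hmem
    have h1 : ip p (w + (δ : ℂ) * d) = ip p w := by
      rw [ip_add_right, ip_smul_right, hxd]
      simp only [sc]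
      ring
    have h2 : w + (δ : ℂ) * d ∈ F := ⟨hmem, by
      change ip p x₀ ≤ ip p (w + (δ : ℂ) * d)
      rw [h1]; exact hwF.2⟩
    have h3 : sc ε p w ≤ sc ε p (w + (δ : ℂ) * d) := hwm h2
    have h4 : sc ε p (w + (δ : ℂ) * d) = sc ε p w - δ * ip p p := by
      simp only [sc, ip, hd, Complex.add_re, Complex.add_im, Complex.mul_re, Complex.mul_im,
        Complex.ofReal_re, Complex.ofReal_im]
      linear_combination (-(δ * (p.re * p.re + p.im * p.im))) * hε
    have h5 : 0 < ip p p := by
      have h6 := ip_pt_self hε hm' k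
      rw [← hp] at h6
      have h7 := ip_self_nonneg p
      by_contra hc
      have h8 : ip p p = 0 := le_antisymm (not_lt.1 hc) h7
      rw [h8] at h6
      nlinarith
    nlinarith)
  rcases hact with ⟨b, hb, hbw, hbd⟩ | ⟨_, hwd⟩
  · -- the line b
    rw [hxd] at hbd
    set bU := ip a b with hbU
    set bS := sc ε a b with hbS
    have hmb := h.m_gt hb
    have hmb' := h.m_ne hb
    have hmb0 : 0 < ip b b := by linarith
    have r1 : bS < k * bU := by
      have e := sc_mul (ε := ε) a b p
      rw [← hbU, ← hbS, hp, ip_pt hm', sc_pt hε hm', ← hp] at e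
      nlinarith
    have r2 : ip a a = bU * U + bS * S := line_rel hε hbw
    have r3 : bU + v * bS ≤ ip a a := by
      have e := ip_pt_left hε hm' v b
      have := hvT.2 b hb
      rw [ip_comm] at this
      nlinarith
    have hbS0 : 0 < bS := by
      by_contra hc
      push Not at hc
      rcases le_or_gt 0 bU with h1 | h1
      · have h2 : 0 ≤ bU * (1 - U) := mul_nonneg h1 (by linarith)
        have h3 : 0 ≤ -bS * (S - v) := mul_nonneg (by linarith) (by linarith)
        have h4 : bU * (1 - U) = 0 := by nlinarith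
        have h5 : -bS * (S - v) = 0 := by nlinarith
        have h6 : bS = 0 := by
          rcases mul_eq_zero.1 h5 with h | h
          · linarith
          · linarith
        have h7 : 0 < bU := by
          rw [h6] at r1
          by_contra h8
          nlinarith
        have h8 : U = 1 := by
          rcases mul_eq_zero.1 h4 with h | h
          · linarith
          · linarith
        have h9 := eq_pt hε hm' (show ip a w = 1 from h8)
        have h10 := hmax (sc ε a w) (h9 ▸ hwT)
        linarith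
      · have h2 : bS * S < k * bU * S := mul_lt_mul_of_pos_right r1 hS0
        have h3 : bU * (U + k * S) ≤ bU * ip a a := mul_le_mul_of_nonpos_left hUS h1.le
        nlinarith
    have hbU0 : 0 < bU := by
      by_contra hc
      push Not at hc
      nlinarith
    -- the frame of b
    set sw := sc ε b w with hsw
    have hw_eq : w = pt ε b sw := eq_pt hε hmb' hbw
    have hww : 1 < ip w w := by
      have e := ip_cs p w
      have e1 := ip_self_nonneg p
      have e2 := ip_self_nonneg w
      by_contra hc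
      push Not at hc
      nlinarith
    have hsw2 : ip b b - 1 < sw ^ 2 := by
      have e := ip_pt_self hε hmb' sw
      rw [← hw_eq] at e
      nlinarith
    have hsw0 : 0 < sw := by
      have e := ip_mul hε b p w
      rw [hbw, mul_one, ← hsw] at e
      have e1 := (h.KT hkK).2 b hb
      by_contra hc
      push Not at hc
      nlinarith
    -- the intersection q
    set sq := (ip a a - bU) / bS with hsq
    have hsq1 : bU + sq * bS = ip a a := by
      rw [hsq]
      field_simp
      ring
    have hvsq : v ≤ sq := by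
      rw [hsq, le_div_iff₀ hbS0]
      linarith
    set q := pt ε a sq with hq
    have hbq : ip b q = 1 := by
      have e := ip_pt_left hε hm' sq b
      rw [← hq, ← hbU, ← hbS] at e
      rw [ip_comm]
      have : ip a a * ip q b = ip a a * 1 := by linarith
      exact mul_left_cancel₀ hm' this
    set sq' := sc ε b q with hsq'
    have hsq'1 : ip a a * sq' = bU * sq - bS := by
      have e := sc_mul (ε := ε) a b q
      rw [← hbU, ← hbS, hq, ip_pt hm', sc_pt hε hm', ← hq] at e
      linarith
    have hsq'0 : 0 < sq' := by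
      have : 0 < ip a a * sq' := by nlinarith
      by_contra hc
      push Not at hc
      nlinarith
    have hq_eq : q = pt ε b sq' := eq_pt hε hmb' hbq
    have hlow : ∀ s, pt ε b s ∈ Tb R A → sq' ≤ s := by
      intro s hs
      have f1 : ip a (pt ε b s) ≤ 1 := hs.2 a ha
      have f2 : ip b (pt ε b s) = 1 := ip_pt hmb' s
      have f3 : ip a a = bU * ip a (pt ε b s) + bS * sc ε a (pt ε b s) := line_rel hε f2
      have f4 := sc_mul (ε := ε) a b (pt ε b s)
      rw [sc_pt hε hmb', ← hbU, ← hbS] at f4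
      set Ux := ip a (pt ε b s) with hUx
      set Sx := sc ε a (pt ε b s) with hSx
      have f5 : bS * (ip a a * (s - sq')) = (bU ^ 2 + bS ^ 2) * (1 - Ux) := by
        have : ip a a * (s - sq') = bU * (Sx - sq) - bS * (Ux - 1) := by
          rw [mul_sub, f4, hsq'1]
          ring
        rw [this]
        have h6 : bS * (Sx - sq) = bU * (1 - Ux) := by linarith
        linear_combination bU * h6
      have f6 : 0 ≤ bS * (ip a a * (s - sq')) := by
        rw [f5]
        exact mul_nonneg (by positivity) (by linarith)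
      have f7 : 0 ≤ ip a a * (s - sq') := by
        by_contra hc
        push Not at hc
        nlinarith
      have f8 : 0 ≤ s - sq' := by
        by_contra hc
        push Not at hc
        nlinarith
      linarith
    -- no point of K on the line b
    have hKb : ∀ x ∈ K, ip b x ≠ 1 := by
      intro x hx hbx
      obtain ⟨y, hy, hy1⟩ := hvL
      have e1 := eq_pt hε hmb' hbx
      have e2 : sq' ≤ sc ε b x := hlow _ (e1 ▸ h.KT hx)
      have hby : ip b y ≤ 1 := (h.swap.KT hy).2 b hb
      have e3 : ip q y ≤ 1 := by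
        rw [hq_eq]
        exact L1 hε hmb hby hsq'0.le e2 (e1 ▸ h.KL hx hy)
      have e4 : ip p y ≤ 1 := h.KL hkK hy
      have g1 := ip_pt_left hε hm' k y
      have g2 := ip_pt_left hε hm' v y
      have g3 := ip_pt_left hε hm' sq y
      rw [← hp] at g1
      rw [← hq] at g3
      rcases le_total 0 (sc ε a y) with h0 | h0
      · have : v * sc ε a y ≤ sq * sc ε a y := mul_le_mul_of_nonneg_right hvsq h0
        nlinarith
      · have : v * sc ε a y ≤ k * sc ε a y := mul_le_mul_of_nonpos_right hkv.le h0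
        nlinarith
    -- the smallest coordinate
    have hIc : IsCompact (Icc 0 sw ∩ {s | pt ε b s ∈ Tb R A}) :=
      isCompact_Icc.inter_right ((isClosed_Tb R A).preimage (continuous_pt ε b))
    obtain ⟨σ, hσ1, hσ2⟩ := hIc.exists_isLeast ⟨sw, ⟨hsw0.le, le_refl _⟩, by
      change pt ε b sw ∈ Tb R A
      rw [← hw_eq]; exact hwT⟩
    have hσT : pt ε b σ ∈ Tb R A := hσ1.2
    have hσq : sq' ≤ σ := hlow σ hσT
    have hσ0 : 0 < σ := lt_of_lt_of_le hsq'0 hσq
    have hσmin : ∀ s, pt ε b s ∈ Tb R A → σ ≤ s := by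
      intro s hs
      have h1 := hlow s hs
      rcases le_total s sw with h2 | h2
      · exact hσ2 ⟨⟨by linarith, h2⟩, hs⟩
      · exact hσ1.1.2.trans h2
    have hσm : σ ^ 2 < ip b b - 1 := by
      obtain ⟨x, hxT, _, _, _, hx1, _, hx2, _⟩ := h.f2 b hb
      have e1 := eq_pt hε hmb' hx1
      have e2 := hσmin _ (e1 ▸ hxT)
      have e3 := ip_pt_self hε hmb' (sc ε b x)
      rw [← e1] at e3
      nlinarith
    have hσK : pt ε b σ ∉ K := fun hmem => hKb _ hmem (ip_pt hmb' σ)
    obtain ⟨z, hzL, hz1⟩ := not_memK h hσT hσK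
    -- the contact point of L
    set l := min ((ip b b - 1) / σ) sw with hl
    have hq1 : ip b b - 1 < ((ip b b - 1) / σ) ^ 2 := by
      rw [div_pow, lt_div_iff₀ (by positivity)]
      nlinarith
    have hq2 : σ < (ip b b - 1) / σ := by
      rw [lt_div_iff₀ hσ0]
      nlinarith
    have hσl : σ ≤ l := le_min hq2.le hσ1.1.2
    have hlT : pt ε b l ∈ Tb R A :=
      seg hε hmb0 hσT (hw_eq ▸ hwT) hσl (min_le_right _ _)
    have hl2 : ip b b - 1 < l ^ 2 := by
      rcases min_choice ((ip b b - 1) / σ) sw with h1 | h1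
      · rw [hl, h1]; exact hq1
      · rw [hl, h1]; exact hsw2
    have hlL : pt ε b l ∈ L := by
      rw [h.swap.memK]
      refine ⟨hlT, fun x hx => ?_⟩
      refine L2 hε hmb ((h.swap.KT hzL).2 b hb) ((h.KT hx).2 b hb) hσ0 hz1.le (h.KL hx hzL)
        (by linarith) ?_
      have h1 : l ≤ (ip b b - 1) / σ := min_le_left _ _
      rwa [le_div_iff₀ hσ0] at h1
    exact h.f3K b hb ε hε σ l hσ0 hσT hσmin hσm hlL hl2 hKb
  · rw [hxd] at hwd
    have e := sc_mul (ε := ε) a w p
    rw [hp, ip_pt hm', sc_pt hε hm', ← hp, ← hU, ← hS] at e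
    have e1 : S ≤ k * U := by nlinarith
    have e2 : 1 + k ^ 2 < ip a a := by nlinarith
    have e3 : k * S ≤ k * (k * U) := mul_le_mul_of_nonneg_left e1 hk.le
    rcases le_total U 0 with h1 | h1
    · have : 0 ≤ k ^ 2 := by positivity
      nlinarith
    · nlinarith [mul_le_mul_of_nonneg_left hU1 (by positivity : (0 : ℝ) ≤ 1 + k ^ 2)]

/-- Claim X. -/
theorem X (h : Dat R A K L) {a : ℂ} (ha : a ∈ A) {ε : ℝ} (hε : ε ^ 2 = 1) {v : ℝ}
    (hv : 0 < v) (hvT : pt ε a v ∈ Tb R A) (hmax : ∀ s, pt ε a s ∈ Tb R A → s ≤ v)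
    (hvK : pt ε a v ∉ K) (hK : ∃ x ∈ K, ip a x = 1) :
    ∃ k, 0 < k ∧ k < v ∧ pt ε a k ∈ K ∧ (∀ s, pt ε a s ∈ K → s ≤ k) ∧
      (∃ z ∈ L, 1 ≤ ip (pt ε a k) z) ∧ ip a a - 1 ≤ k * v := by
  have hm := h.m_gt ha
  have hm0 : 0 < ip a a := by linarith
  have hm' := h.m_ne ha
  have hvL := not_memK h hvT hvK
  obtain ⟨k, hk, hkv, hkL, hz, hgr⟩ := partner h.swap.compactK hε hm
    (fun y hy => (h.swap.KT hy).2 a ha) hv hvL
  have hkT : pt ε a k ∈ Tb R A := by
    obtain ⟨x, hx, hax⟩ := hK
    have e := eq_pt hε hm' hax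
    refine seg hε hm0 (s₁ := sc ε a x) (e ▸ h.KT hx) hvT (hgr _ fun y hy => ?_) hkv.le
    rw [← e]
    exact h.KL hx hy
  have hkK : pt ε a k ∈ K := h.memK.2 ⟨hkT, hkL⟩
  exact ⟨k, hk, hkv, hkK, fun s hs => hgr s fun y hy => h.KL hs hy, hz,
    Xcore h ha hε hk hkv hvT hmax hkK hvL hz⟩

end Pool.Agent.H82.Cor
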