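import Pool.Agent.H82.Cor.Basic

/-!
# The structure of a maximizer
-/

open MeasureTheory Set Metric Filter Topology

namespace Pool.Agent.H82.Cor

variable {R : ℝ} {A : Finset ℂ} {K L : Set ℂ}

lemma Dat.swap (h : Dat R A K L) : Dat R A L K where
  hR := h.hR
  sym := h.sym
  symK := h.symL
  symL := h.symK
  fK := by
    have := h.fL
    convert this using 3
    constructor
    · rintro ⟨h1, h2⟩
      exact ⟨h1, fun y hy => by rw [ip_comm]; exact h2 y hy⟩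
    · rintro ⟨h1, h2⟩
      exact ⟨h1, fun y hy => by rw [ip_comm]; exact h2 y hy⟩
  fL := by
    have := h.fK
    convert this using 3
    constructor
    · rintro ⟨h1, h2⟩
      exact ⟨h1, fun y hy => by rw [ip_comm]; exact h2 y hy⟩
    · rintro ⟨h1, h2⟩
      exact ⟨h1, fun y hy => by rw [ip_comm]; exact h2 y hy⟩
  f2 := h.f2
  f3K := h.f3L
  f3L := h.f3K

lemma Dat.memK (h : Dat R A K L) {x : ℂ} : x ∈ K ↔ x ∈ Tb R A ∧ ∀ y ∈ L, ip x y ≤ 1 := by
  constructor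
  · intro hx
    rw [h.fK] at hx
    exact hx
  · intro hx
    rw [h.fK]
    exact hx

lemma Dat.KT (h : Dat R A K L) {x : ℂ} (hx : x ∈ K) : x ∈ Tb R A := (h.memK.1 hx).1

lemma Dat.KL (h : Dat R A K L) {x y : ℂ} (hx : x ∈ K) (hy : y ∈ L) : ip x y ≤ 1 :=
  (h.memK.1 hx).2 y hy

lemma Dat.m_gt (h : Dat R A K L) {a : ℂ} (ha : a ∈ A) : 1 < ip a a := by
  obtain ⟨x, _, _, _, _, h1, _, h2, _⟩ := h.f2 a ha
  have h3 := ip_cs a x
  rw [h1] at h3
  have h4 := ip_self_nonneg a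
  have h5 := ip_self_nonneg x
  nlinarith

lemma Dat.m_ne (h : Dat R A K L) {a : ℂ} (ha : a ∈ A) : ip a a ≠ 0 := by
  have := h.m_gt ha
  positivity

lemma Dat.closedK (h : Dat R A K L) : IsClosed K := by
  have e : K = Tb R A ∩ ⋂ y ∈ L, {x | ip x y ≤ 1} := by
    ext x
    rw [h.memK]
    simp
  rw [e]
  exact (isClosed_Tb R A).inter (isClosed_biInter fun y _ =>
    isClosed_le (continuous_ip_left y) continuous_const)

lemma Dat.compactK (h : Dat R A K L) : IsCompact K :=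
  (isCompact_Tb (zero_le_one.trans h.hR) A).of_isClosed_subset h.closedK (fun _ hx => h.KT hx)

/-- A segment of a line. -/
lemma seg {ε : ℝ} (hε : ε ^ 2 = 1) {a : ℂ} (ha : 0 < ip a a) {s₁ s s₂ : ℝ}
    (h1 : pt ε a s₁ ∈ Tb R A) (h2 : pt ε a s₂ ∈ Tb R A) (hs1 : s₁ ≤ s) (hs2 : s ≤ s₂) :
    pt ε a s ∈ Tb R A := by
  have ha' : ip a a ≠ 0 := ha.ne'
  refine ⟨?_, fun b hb => ?_⟩
  · have e1 := ip_pt_self hε ha' s₁
    have e2 := ip_pt_self hε ha' s₂
    have e := ip_pt_self hε ha' s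
    have g1 := mul_le_mul_of_nonneg_left h1.1 ha.le
    have g2 := mul_le_mul_of_nonneg_left h2.1 ha.le
    rw [e1] at g1
    rw [e2] at g2
    refine le_of_mul_le_mul_left ?_ ha
    rw [e]
    rcases le_total 0 s with h0 | h0
    · nlinarith
    · nlinarith
  · have e1 := ip_pt_left hε ha' s₁ b
    have e2 := ip_pt_left hε ha' s₂ b
    have e := ip_pt_left hε ha' s b
    have g1 := mul_le_mul_of_nonneg_left (h1.2 b hb) ha.le
    have g2 := mul_le_mul_of_nonneg_left (h2.2 b hb) ha.le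
    rw [ip_comm b, e1] at g1
    rw [ip_comm b, e2] at g2
    refine le_of_mul_le_mul_left ?_ ha
    rw [ip_comm b, e]
    rcases le_total 0 (sc ε a b) with h0 | h0
    · nlinarith
    · nlinarith

/-- An active constraint. -/
lemma active {x d : ℂ} (hx : x ∈ Tb R A) {δ₀ : ℝ} (hδ : 0 < δ₀)
    (h : ∀ δ : ℝ, 0 < δ → δ ≤ δ₀ → x + (δ : ℂ) * d ∉ Tb R A) :
    (∃ b ∈ A, ip b x = 1 ∧ 0 < ip b d) ∨ (ip x x = R ^ 2 ∧ 0 ≤ ip x d) := by
  by_contra hcon
  push Not at hcon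
  obtain ⟨h1, h2⟩ := hcon
  have e1 : ∀ b ∈ A, ∀ᶠ δ : ℝ in 𝓝[>] (0 : ℝ), ip b (x + (δ : ℂ) * d) ≤ 1 := by
    intro b hb
    rcases lt_or_eq_of_le (hx.2 b hb) with h3 | h3
    · have hc : Continuous (fun δ : ℝ => ip b (x + (δ : ℂ) * d)) := by
        unfold ip
        fun_prop
      have ht := (hc.tendsto 0).mono_left (nhdsWithin_le_nhds (s := Ioi (0 : ℝ)))
      have h4 : ip b (x + ((0 : ℝ) : ℂ) * d) < 1 := by simpa using h3
      exact (ht.eventually (gt_mem_nhds h4)).mono fun _ h => le_of_lt h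
    · filter_upwards [self_mem_nhdsWithin] with δ hδ
      rw [ip_add_right, ip_smul_right, h3]
      have := h1 b hb h3
      have h5 : 0 < δ := hδ
      nlinarith
  have e2 : ∀ᶠ δ : ℝ in 𝓝[>] (0 : ℝ), ip (x + (δ : ℂ) * d) (x + (δ : ℂ) * d) ≤ R ^ 2 := by
    have ex : ∀ δ : ℝ, ip (x + (δ : ℂ) * d) (x + (δ : ℂ) * d) =
        ip x x + 2 * δ * ip x d + δ ^ 2 * ip d d := by
      intro δ
      simp [ip]
      ring
    rcases lt_or_eq_of_le hx.1 with h3 | h3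
    · have hc : Continuous (fun δ : ℝ => ip (x + (δ : ℂ) * d) (x + (δ : ℂ) * d)) := by
        unfold ip
        fun_prop
      have ht := (hc.tendsto 0).mono_left (nhdsWithin_le_nhds (s := Ioi (0 : ℝ)))
      have h4 : ip (x + ((0 : ℝ) : ℂ) * d) (x + ((0 : ℝ) : ℂ) * d) < R ^ 2 := by simpa using h3
      exact (ht.eventually (gt_mem_nhds h4)).mono fun _ h => le_of_lt h
    · have h5 := h2 h3
      have hc : Continuous (fun δ : ℝ => 2 * ip x d + δ * ip d d) := by fun_prop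
      have ht := (hc.tendsto 0).mono_left (nhdsWithin_le_nhds (s := Ioi (0 : ℝ)))
      have h4 : 2 * ip x d + 0 * ip d d < 0 := by linarith
      filter_upwards [self_mem_nhdsWithin, ht.eventually (gt_mem_nhds h4)] with δ hδ h6
      rw [ex, h3]
      have h7 : 0 < δ := hδ
      nlinarith
  have e3 : ∀ᶠ δ : ℝ in 𝓝[>] (0 : ℝ), δ ≤ δ₀ := by
    have := Ioo_mem_nhdsGT hδ
    filter_upwards [this] with δ h
    exact h.2.le
  have e4 := (Filter.eventually_all_finset A).2 e1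
  obtain ⟨δ, h5, h6, h7, h8⟩ := (e4.and (e2.and (e3.and self_mem_nhdsWithin))).exists
  exact h δ h8 h7 ⟨h6, h5⟩

lemma L1 {ε : ℝ} (hε : ε ^ 2 = 1) {a : ℂ} (ha : 1 < ip a a) {y : ℂ} (hy : ip a y ≤ 1)
    {s s' : ℝ} (h0 : 0 ≤ s') (hs : s' ≤ s) (h : ip (pt ε a s) y ≤ 1) : ip (pt ε a s') y ≤ 1 := by
  have ha' : ip a a ≠ 0 := by positivity
  have e1 := ip_pt_left hε ha' s y
  have e2 := ip_pt_left hε ha' s' y
  have g := mul_le_mul_of_nonneg_left h (by linarith : 0 ≤ ip a a)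
  rw [e1] at g
  refine le_of_mul_le_mul_left ?_ (by linarith : 0 < ip a a)
  rw [e2]
  rcases le_total 0 (sc ε a y) with h1 | h1
  · nlinarith
  · nlinarith

lemma L2r {m U S Z W k s : ℝ} (hm : 1 < m) (hU : U ≤ 1) (hZ : Z ≤ 1) (hk : 0 < k)
    (hz : m ≤ Z + k * W) (hxz : U * Z + S * W ≤ m) (hs : 0 ≤ s) (hsk : s * k ≤ m - 1) :
    U + s * S ≤ m := by
  have h1 : 0 ≤ (1 - U) * (1 - Z) := mul_nonneg (by linarith) (by linarith)
  have h2 : W * (S - k) ≤ 1 - U := by nlinarith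
  rcases le_total S k with h3 | h3
  · rcases le_total S 0 with h4 | h4
    · nlinarith
    · have := mul_le_mul_of_nonneg_left h3 hs
      nlinarith
  · have h4 : s ≤ W := by
      by_contra h5
      push Not at h5
      nlinarith
    have := mul_le_mul_of_nonneg_right h4 (sub_nonneg.2 h3)
    nlinarith

lemma L2 {ε : ℝ} (hε : ε ^ 2 = 1) {a : ℂ} (ha : 1 < ip a a) {z x : ℂ} (hz : ip a z ≤ 1)
    (hx : ip a x ≤ 1) {k s : ℝ} (hk : 0 < k) (hpz : 1 ≤ ip (pt ε a k) z) (hxz : ip x z ≤ 1)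
    (hs : 0 ≤ s) (hsk : s * k ≤ ip a a - 1) : ip (pt ε a s) x ≤ 1 := by
  have ha' : ip a a ≠ 0 := by positivity
  have ha0 : 0 < ip a a := by linarith
  have e1 := ip_pt_left hε ha' k z
  have e2 := ip_pt_left hε ha' s x
  have e3 := ip_mul hε a x z
  have g1 := mul_le_mul_of_nonneg_left hpz ha0.le
  have g2 := mul_le_mul_of_nonneg_left hxz ha0.le
  rw [e1] at g1
  rw [e3] at g2
  refine le_of_mul_le_mul_left ?_ ha0
  rw [e2, mul_one]
  have g3 : ip a a ≤ ip a z + k * sc ε a z := by linarith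
  have g4 : ip a x * ip a z + sc ε a x * sc ε a z ≤ ip a a := by linarith
  exact L2r ha hx hz hk g3 g4 hs hsk

/-- The contact coordinate and its partner. -/
lemma partner (hLc : IsCompact L) {ε : ℝ} (hε : ε ^ 2 = 1) {a : ℂ} (ha : 1 < ip a a)
    (hLa : ∀ y ∈ L, ip a y ≤ 1) {v : ℝ} (hv : 0 < v) (hvL : ∃ y ∈ L, 1 < ip (pt ε a v) y) :
    ∃ k, 0 < k ∧ k < v ∧ (∀ y ∈ L, ip (pt ε a k) y ≤ 1) ∧ (∃ z ∈ L, 1 ≤ ip (pt ε a k) z) ∧
      ∀ s, (∀ y ∈ L, ip (pt ε a s) y ≤ 1) → s ≤ k := by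
  have ha' : ip a a ≠ 0 := by positivity
  have ha0 : 0 < ip a a := by linarith
  set Z : Set ℝ := Icc 0 v ∩ ⋂ y ∈ L, {s | ip (pt ε a s) y ≤ 1} with hZ
  have hZc : IsCompact Z := by
    refine isCompact_Icc.inter_right (isClosed_biInter fun y _ => ?_)
    exact isClosed_le ((continuous_ip_left y).comp (continuous_pt ε a)) continuous_const
  have mem : ∀ s, s ∈ Z ↔ (0 ≤ s ∧ s ≤ v) ∧ ∀ y ∈ L, ip (pt ε a s) y ≤ 1 := by
    intro s
    simp [hZ]
  have h0 : (0 : ℝ) ∈ Z := by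
    rw [mem]
    refine ⟨⟨le_refl _, hv.le⟩, fun y hy => ?_⟩
    refine le_of_mul_le_mul_left ?_ ha0
    rw [ip_pt_left hε ha']
    have := hLa y hy
    nlinarith
  obtain ⟨k, hk⟩ := hZc.exists_isGreatest ⟨0, h0⟩
  have hkZ := (mem k).1 hk.1
  obtain ⟨y₀, hy₀, hy₁⟩ := hvL
  have hkv : k < v := by
    refine lt_of_le_of_ne hkZ.1.2 ?_
    rintro rfl
    exact absurd (hkZ.2 y₀ hy₀) (not_le.2 hy₁)
  have hz : ∃ z ∈ L, 1 ≤ ip (pt ε a k) z := by
    obtain ⟨z, hzL, hzm⟩ := hLc.exists_isMaxOn ⟨y₀, hy₀⟩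
      (continuous_ip_right (pt ε a k)).continuousOn
    obtain ⟨w, hwL, hwm⟩ := hLc.exists_isMaxOn ⟨y₀, hy₀⟩ (continuous_sc ε a).continuousOn
    refine ⟨z, hzL, ?_⟩
    by_contra hlt
    push Not at hlt
    set C := max (sc ε a w) 0 with hC
    have hC0 : 0 ≤ C := le_max_right _ _
    set δ := min (v - k) (ip a a * (1 - ip (pt ε a k) z) / (C + 1)) with hδ
    have hC1 : 0 < C + 1 := by linarith
    have hδ0 : 0 < δ := by
      rw [hδ, lt_min_iff]
      refine ⟨by linarith, ?_⟩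
      apply div_pos _ hC1
      apply mul_pos ha0
      linarith
    have hδ1 : δ * C ≤ ip a a * (1 - ip (pt ε a k) z) := by
      have h1 : δ ≤ ip a a * (1 - ip (pt ε a k) z) / (C + 1) := min_le_right _ _
      rw [le_div_iff₀ hC1] at h1
      nlinarith
    have hmem : k + δ ∈ Z := by
      rw [mem]
      have h2 : δ ≤ v - k := min_le_left _ _
      refine ⟨⟨by linarith [hkZ.1.1], by linarith⟩, fun y hy => ?_⟩
      refine le_of_mul_le_mul_left ?_ ha0
      rw [ip_pt_left hε ha']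
      have e1 := ip_pt_left hε ha' k y
      have h3 : ip (pt ε a k) y ≤ ip (pt ε a k) z := hzm hy
      have h4 : sc ε a y ≤ sc ε a w := hwm hy
      have h5 : sc ε a y ≤ C := h4.trans (le_max_left _ _)
      have h6 := mul_le_mul_of_nonneg_left h3 ha0.le
      have h7 := mul_le_mul_of_nonneg_left h5 hδ0.le
      nlinarith
    have := hk.2 hmem
    linarith
  obtain ⟨z, hzL, hz1⟩ := hz
  refine ⟨k, ?_, hkv, hkZ.2, ⟨z, hzL, hz1⟩, fun s hs => ?_⟩
  · refine lt_of_le_of_ne hkZ.1.1 ?_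
    rintro rfl
    have e1 := ip_pt_left hε ha' 0 z
    have := hLa z hzL
    nlinarith
  · by_contra hks
    push Not at hks
    rcases le_total s v with h1 | h1
    · have : s ∈ Z := by
        rw [mem]
        exact ⟨⟨by linarith [hkZ.1.1], h1⟩, hs⟩
      have := hk.2 this
      linarith
    · have := L1 hε ha (hLa y₀ hy₀) hv.le h1 (hs y₀ hy₀)
      linarith

end Pool.Agent.H82.Cor
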