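import Pool.Agent.H82.Cor.Basic

/-!
# Approximation of a symmetric convex body by strips, and transfer to the Euclidean plane
-/

open MeasureTheory Set Metric Filter Topology

namespace Pool.Agent.H82.Cor

/-- The strips which contain `T`. -/
def strips (T : Set ℂ) : Set ℂ := {a | ∀ x ∈ T, |ip a x| ≤ 1}

lemma zero_mem_strips (T : Set ℂ) : (0 : ℂ) ∈ strips T := by
  intro x _
  simp [ip]

/-- Separation of a point from a symmetric convex body by a strip. -/
lemma exists_strip {T : Set ℂ} (hT : Convex ℝ T) (hTc : IsClosed T) (h0 : (0 : ℂ) ∈ T)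
    (hTs : ∀ x ∈ T, -x ∈ T) {x : ℂ} (hx : x ∉ T) : ∃ a ∈ strips T, 1 < ip a x := by
  obtain ⟨f, u, hfu, hux⟩ := geometric_hahn_banach_closed_point hT hTc hx
  have hu : 0 < u := by simpa using hfu 0 h0
  have hrep : ∀ z : ℂ, f z = ip ⟨f 1, f Complex.I⟩ z := by
    intro z
    have hz : z = z.re • (1 : ℂ) + z.im • Complex.I := by
      apply Complex.ext <;> simp
    conv_lhs => rw [hz]
    rw [map_add, map_smul, map_smul]
    simp only [ip, smul_eq_mul]
    ring
  refine ⟨((u⁻¹ : ℝ) : ℂ) * ⟨f 1, f Complex.I⟩, ?_, ?_⟩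
  · intro y hy
    have hui : 0 < u⁻¹ := inv_pos.mpr hu
    have h1 : u⁻¹ * f y ≤ 1 := by
      rw [inv_mul_le_iff₀ hu, mul_one]
      exact (hfu y hy).le
    have h2 : u⁻¹ * f (-y) ≤ 1 := by
      rw [inv_mul_le_iff₀ hu, mul_one]
      exact (hfu _ (hTs y hy)).le
    rw [map_neg] at h2
    rw [ip_smul_left, ← hrep, abs_le]
    constructor <;> linarith
  · rw [ip_smul_left, ← hrep, lt_inv_mul_iff₀ hu, mul_one]
    exact hux

/-- The inequality for a general symmetric convex body `T` of the plane. -/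
theorem planC (hPN : ∀ R : ℝ, 1 ≤ R → ∀ N : ℕ, PN R N) (K L T : Set ℂ) (hKc : IsCompact K)
    (hLc : IsCompact L) (hKT : K ⊆ T) (hLT : L ⊆ T) (hKL : ∀ x ∈ K, ∀ y ∈ L, |ip x y| ≤ 1)
    (hT : Convex ℝ T) (hTc : IsCompact T) (h0 : (0 : ℂ) ∈ T) (hTs : ∀ x ∈ T, -x ∈ T) :
    √(volume.real K * volume.real L) ≤ volume.real (Bu ∩ T) := by
  obtain ⟨R₀, hR₀⟩ := hTc.isBounded.subset_closedBall (0 : ℂ)
  set R : ℝ := max R₀ 1 with hRdef
  have hR1 : 1 ≤ R := le_max_right _ _
  have hR0 : 0 ≤ R := by linarith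
  have hTR : T ⊆ {x : ℂ | ip x x ≤ R ^ 2} := by
    rw [disc_subset hR0]
    exact hR₀.trans (closedBall_subset_closedBall (le_max_left _ _))
  have : Nonempty (strips T) := ⟨⟨0, zero_mem_strips T⟩⟩
  obtain ⟨u, hu⟩ := TopologicalSpace.exists_dense_seq (strips T)
  set S : ℕ → Set ℂ := fun N => Tw R (fun i : Fin N => ((u i : strips T) : ℂ)) with hS
  have hTS : ∀ N, T ⊆ S N := by
    intro N x hx
    exact ⟨hTR hx, fun i => (u i).2 x hx⟩
  have hSanti : Antitone S := by
    intro M N hMN x hx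
    refine ⟨hx.1, fun i => ?_⟩
    exact hx.2 ⟨i, lt_of_lt_of_le i.2 hMN⟩
  have hSinter : ⋂ N, S N = T := by
    apply Subset.antisymm
    · intro x hx
      by_contra hxT
      obtain ⟨a, haT, hax⟩ := exists_strip hT hTc.isClosed h0 hTs hxT
      have hopen : IsOpen {b : strips T | 1 < ip (b : ℂ) x} := by
        apply isOpen_lt continuous_const
        exact (continuous_ip_left x).comp continuous_subtype_val
      obtain ⟨n, hn⟩ := hu.exists_mem_open hopen ⟨⟨a, haT⟩, hax⟩
      have h1 := (mem_iInter.mp hx (n + 1)).2 ⟨n, Nat.lt_succ_self n⟩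
      simp only at h1
      have h2 : ip ((u n : strips T) : ℂ) x ≤ 1 := (le_abs_self _).trans h1
      exact absurd hn (not_lt.mpr h2)
    · exact subset_iInter hTS
  have hlim : Tendsto (fun N => volume.real (Bu ∩ S N)) atTop (𝓝 (volume.real (Bu ∩ T))) := by
    have h1 : Tendsto (fun N => volume (Bu ∩ S N)) atTop (𝓝 (volume (⋂ N, Bu ∩ S N))) := by
      apply tendsto_measure_iInter_atTop
      · intro N
        refine MeasurableSet.nullMeasurableSet ?_
        exact ((closed_ip_self 1).inter (isClosed_Tw R _)).measurableSet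
      · intro M N hMN
        exact inter_subset_inter_right _ (hSanti hMN)
      · refine ⟨0, ?_⟩
        refine ne_of_lt (lt_of_le_of_lt (measure_mono inter_subset_left) ?_)
        rw [Bu_eq]
        exact (isCompact_closedBall (0 : ℂ) 1).measure_lt_top
    rw [← inter_iInter, hSinter] at h1
    have hfin : volume (Bu ∩ T) ≠ ⊤ :=
      ne_of_lt (lt_of_le_of_lt (measure_mono inter_subset_right) hTc.measure_lt_top)
    exact (ENNReal.tendsto_toReal hfin).comp h1
  refine ge_of_tendsto' hlim fun N => ?_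
  exact hPN R hR1 N _ K L hKc hLc (hKT.trans (hTS N)) (hLT.trans (hTS N)) hKL

/-- The isometry from the complex plane to the Euclidean plane. -/
noncomputable def eqv : ℂ ≃ₗᵢ[ℝ] EuclideanSpace ℝ (Fin 2) := Complex.orthonormalBasisOneI.repr

lemma inner_eqv (x y : ℂ) : inner ℝ (eqv x) (eqv y) = ip x y := by
  rw [LinearIsometryEquiv.inner_map_map, Complex.inner]
  simp only [Complex.mul_re, Complex.conj_re, Complex.conj_im, ip]
  ring

/-- W6: general bodies from `PN`. -/
theorem plan (hPN : ∀ R : ℝ, 1 ≤ R → ∀ N : ℕ, PN R N) (K T : Set (EuclideanSpace ℝ (Fin 2)))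
    (hK : Convex ℝ K) (hKc : IsCompact K) (hKs : ∀ x ∈ K, -x ∈ K)
    (hT : Convex ℝ T) (hTc : IsCompact T) (hTi : (interior T).Nonempty) (hTs : ∀ x ∈ T, -x ∈ T) :
    volume (K ∩ T) * volume ({y : EuclideanSpace ℝ (Fin 2) | ∀ x ∈ K, inner ℝ x y ≤ (1 : ℝ)} ∩ T)
      ≤ volume (closedBall (0 : EuclideanSpace ℝ (Fin 2)) 1 ∩ T) ^ 2 := by
  have _ := hK
  set L : Set (EuclideanSpace ℝ (Fin 2)) :=
    {y : EuclideanSpace ℝ (Fin 2) | ∀ x ∈ K, inner ℝ x y ≤ (1 : ℝ)} with hL
  have hLcl : IsClosed L := by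
    have : L = ⋂ x ∈ K, {y | inner ℝ x y ≤ (1 : ℝ)} := by
      ext y; simp [hL]
    rw [this]
    refine isClosed_biInter fun x _ => ?_
    exact isClosed_le (by fun_prop) continuous_const
  have h0 : (0 : EuclideanSpace ℝ (Fin 2)) ∈ T := by
    obtain ⟨x, hx⟩ := hTi
    have hx' := interior_subset hx
    have := hT hx' (hTs x hx') (by norm_num : (0 : ℝ) ≤ 1 / 2) (by norm_num : (0 : ℝ) ≤ 1 / 2)
      (by norm_num)
    simpa using this
  have hmp : MeasurePreserving eqv volume volume :=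
    Complex.orthonormalBasisOneI.measurePreserving_repr
  have hpre : ∀ A : Set (EuclideanSpace ℝ (Fin 2)), volume (eqv ⁻¹' A) = volume A := by
    intro A
    exact hmp.measure_preimage_emb eqv.toHomeomorph.measurableEmbedding A
  have hcpt : ∀ A : Set (EuclideanSpace ℝ (Fin 2)), IsCompact A → IsCompact (eqv ⁻¹' A) := by
    intro A hA
    exact eqv.toHomeomorph.isCompact_preimage.mpr hA
  have key := planC hPN (eqv ⁻¹' (K ∩ T)) (eqv ⁻¹' (L ∩ T)) (eqv ⁻¹' T)
    (hcpt _ (hKc.inter hTc)) (hcpt _ (hTc.inter_left hLcl))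
    (preimage_mono inter_subset_right) (preimage_mono inter_subset_right)
    (by
      intro x hx y hy
      have hx1 : eqv x ∈ K := hx.1
      have hy1 : eqv y ∈ L := hy.1
      have h1 := hy1 _ hx1
      have h2 := hy1 _ (hKs _ hx1)
      rw [inner_neg_left, inner_eqv] at h2
      rw [inner_eqv] at h1
      rw [abs_le]
      constructor <;> linarith)
    (hT.linear_preimage (eqv.toLinearEquiv : ℂ →ₗ[ℝ] EuclideanSpace ℝ (Fin 2)))
    (hcpt _ hTc)
    (by simpa using h0)
    (by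
      intro x hx
      have : eqv (-x) = -eqv x := map_neg _ _
      rw [mem_preimage, this]
      exact hTs _ hx)
  have hBu : Bu ∩ (eqv ⁻¹' T) = eqv ⁻¹' (closedBall (0 : EuclideanSpace ℝ (Fin 2)) 1 ∩ T) := by
    rw [Bu_eq, preimage_inter]
    congr 1
    ext x
    simp
  rw [hBu] at key
  have hfK : volume (K ∩ T) ≠ ⊤ := (hKc.inter hTc).measure_lt_top.ne
  have hfL : volume (L ∩ T) ≠ ⊤ := (hTc.inter_left hLcl).measure_lt_top.ne
  have hfB : volume (closedBall (0 : EuclideanSpace ℝ (Fin 2)) 1 ∩ T) ≠ ⊤ :=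
    (lt_of_le_of_lt (measure_mono inter_subset_right) hTc.measure_lt_top).ne
  have e1 : volume.real (eqv ⁻¹' (K ∩ T)) = (volume (K ∩ T)).toReal := by
    rw [measureReal_def, hpre]
  have e2 : volume.real (eqv ⁻¹' (L ∩ T)) = (volume (L ∩ T)).toReal := by
    rw [measureReal_def, hpre]
  have e3 : volume.real (eqv ⁻¹' (closedBall (0 : EuclideanSpace ℝ (Fin 2)) 1 ∩ T)) =
      (volume (closedBall (0 : EuclideanSpace ℝ (Fin 2)) 1 ∩ T)).toReal := by
    rw [measureReal_def, hpre]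
  rw [e1, e2, e3, Real.sqrt_le_left ENNReal.toReal_nonneg, ← ENNReal.toReal_mul,
    ← ENNReal.toReal_pow] at key
  exact (ENNReal.toReal_le_toReal (ENNReal.mul_ne_top hfK hfL) (ENNReal.pow_ne_top hfB)).mp key

end Pool.Agent.H82.Cor
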