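import Pool.Agent.H82.Cor.Area

/-!
# Rotation of a strip about the midpoint of its chord
-/

open MeasureTheory Set Metric Filter Topology

namespace Pool.Agent.H82.Cor

namespace RotAux

lemma ev {f : ℝ → ℝ} (hf : Continuous f) {r : ℝ} (h : f 0 < r) :
    ∀ᶠ η in 𝓝[>] (0 : ℝ), f η < r :=
  ((hf.tendsto 0).eventually_lt_const h).filter_mono nhdsWithin_le_nhds

lemma ev_aff {u v σ m : ℝ} (h1 : u + v * σ ≤ m) (h2 : u + v * σ = m → 0 ≤ v) :
    ∀ᶠ t in 𝓝[>] (0 : ℝ), u + v * (σ - t) ≤ m := by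
  rcases lt_or_eq_of_le h1 with h | h
  · have := ev (f := fun t => u + v * (σ - t)) (by fun_prop) (by simpa using h)
    exact this.mono fun t ht => ht.le
  · have h3 := h2 h
    filter_upwards [self_mem_nhdsWithin] with t ht
    have : 0 < t := ht
    nlinarith

/-- The rotated vector. -/
noncomputable def rv (ε : ℝ) (a : ℂ) (c η : ℝ) : ℂ :=
  ⟨(a.re + η * ε * a.im) / (1 - η * c), (a.im - η * ε * a.re) / (1 - η * c)⟩

lemma ip_rv (ε : ℝ) (a : ℂ) (c η : ℝ) (x : ℂ) :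
    ip (rv ε a c η) x = (ip a x - η * sc ε a x) / (1 - η * c) := by
  simp only [rv, ip, sc]
  ring

lemma exch {X Y W1 W2 : Set ℂ} (hX : MeasurableSet X) (hY : MeasurableSet Y)
    (hXf : volume X ≠ ⊤) (hYf : volume Y ≠ ⊤) (hW1 : MeasurableSet W1)
    (h1 : ∀ x ∈ W1, x ∈ X \ Y) (h1' : ∀ x ∈ W1, -x ∈ X \ Y) (hd : ∀ x ∈ W1, -x ∉ W1)
    (hW2f : volume W2 ≠ ⊤) (h2 : ∀ x ∈ Y \ X, x ∈ W2 ∨ -x ∈ W2) :
    volume.real Y + 2 * volume.real W1 ≤ volume.real X + 2 * volume.real W2 := by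
  have e1 : volume.real (X ∩ Y) + volume.real (X \ Y) = volume.real X :=
    measureReal_inter_add_sdiff hY hXf
  have e2 : volume.real (Y ∩ X) + volume.real (Y \ X) = volume.real Y :=
    measureReal_inter_add_sdiff hX hYf
  rw [inter_comm] at e2
  have hneg : ∀ W : Set ℂ, volume.real (-W) = volume.real W := by
    intro W
    simp only [Measure.real, Measure.measure_neg]
  have hXYf : volume (X \ Y) ≠ ⊤ := ne_top_of_le_ne_top hXf (measure_mono sdiff_subset)
  have hW1f : volume W1 ≠ ⊤ := ne_top_of_le_ne_top hXYf (measure_mono h1)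
  have hW1nf : volume (-W1) ≠ ⊤ := by
    rw [Measure.measure_neg]; exact hW1f
  have e3 : volume.real (W1 ∪ -W1) = 2 * volume.real W1 := by
    have hdis : Disjoint W1 (-W1) := disjoint_left.mpr fun x hx hx' => hd x hx hx'
    rw [measureReal_union hdis hW1.neg hW1f hW1nf, hneg]
    ring
  have e4 : volume.real (W1 ∪ -W1) ≤ volume.real (X \ Y) := by
    apply measureReal_mono _ hXYf
    rintro x (hx | hx)
    · exact h1 x hx
    · have := h1' _ hx
      rwa [neg_neg] at this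
  have hW2nf : volume (-W2) ≠ ⊤ := by
    rw [Measure.measure_neg]; exact hW2f
  have e5 : volume.real (Y \ X) ≤ volume.real (W2 ∪ -W2) := by
    apply measureReal_mono _ (measure_union_ne_top hW2f hW2nf)
    intro x hx
    exact h2 x hx
  have e6 : volume.real (W2 ∪ -W2) ≤ volume.real W2 + volume.real (-W2) :=
    measureReal_union_le _ _
  rw [hneg] at e6
  linarith

lemma vol_ne_top {ε : ℝ} (hε : ε ^ 2 = 1) {a : ℂ} (hm : 1 < ip a a) {W : Set ℂ} {B : ℝ}
    (h : ∀ x ∈ W, ip a x ^ 2 + sc ε a x ^ 2 ≤ B) : volume W ≠ ⊤ := by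
  have hsub : W ⊆ closedBall (0 : ℂ) (√(|B|)) := by
    intro x hx
    rw [mem_closedBall, dist_zero_right]
    apply Real.le_sqrt_of_sq_le
    rw [← ip_self]
    have h1 := ip_mul hε a x x
    have h2 := h x hx
    have h3 := ip_self_nonneg x
    have h4 : ip x x ≤ ip a a * ip x x := by nlinarith
    have h5 := le_abs_self B
    nlinarith
  exact ne_top_of_le_ne_top measure_closedBall_lt_top.ne (measure_mono hsub)

/-- An affine function bounded by `m` at both ends is strictly bounded inside, unless it is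
constant of absolute value `m`. -/
lemma aff_lt {u v σ l c m : ℝ} (h1 : |u + v * σ| ≤ m) (h2 : |u + v * l| ≤ m) (hc : σ < c)
    (hc' : c < l) (h0 : ¬ (v = 0 ∧ |u| = m)) : |u + v * c| < m := by
  rw [abs_le] at h1 h2
  rw [abs_lt]
  constructor
  · by_contra h
    rw [not_lt] at h
    have a1 : v * (c - σ) ≤ 0 := by linarith
    have a2 : 0 ≤ v * (l - c) := by linarith
    have a3 : v ≤ 0 := by
      by_contra hv
      rw [not_le] at hv
      nlinarith [mul_pos hv (sub_pos.mpr hc)]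
    have a4 : 0 ≤ v := by
      by_contra hv
      rw [not_le] at hv
      nlinarith [mul_neg_of_neg_of_pos hv (sub_pos.mpr hc')]
    have a5 : v = 0 := le_antisymm a3 a4
    subst a5
    have a6 : u = -m := by linarith
    apply h0
    refine ⟨rfl, ?_⟩
    rw [a6, abs_neg, abs_of_nonneg (by linarith)]
  · by_contra h
    rw [not_lt] at h
    have a1 : 0 ≤ v * (c - σ) := by linarith
    have a2 : v * (l - c) ≤ 0 := by linarith
    have a3 : 0 ≤ v := by
      by_contra hv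
      rw [not_le] at hv
      nlinarith [mul_neg_of_neg_of_pos hv (sub_pos.mpr hc)]
    have a4 : v ≤ 0 := by
      by_contra hv
      rw [not_le] at hv
      nlinarith [mul_pos hv (sub_pos.mpr hc')]
    have a5 : v = 0 := le_antisymm a4 a3
    subst a5
    have a6 : u = m := by linarith
    apply h0
    refine ⟨rfl, ?_⟩
    rw [a6, abs_of_nonneg (by linarith)]

lemma aff_le {u v s c d M : ℝ} (h1 : |u + v * c| ≤ M) (h2 : |u + v * d| ≤ M) (hc : c ≤ s)
    (hd : s ≤ d) : |u + v * s| ≤ M := by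
  rw [abs_le] at *
  rcases le_total 0 v with hv | hv
  · constructor <;> nlinarith [mul_le_mul_of_nonneg_left hc hv, mul_le_mul_of_nonneg_left hd hv]
  · constructor <;> nlinarith [mul_le_mul_of_nonpos_left hc hv, mul_le_mul_of_nonpos_left hd hv]

lemma coord_inj {ε : ℝ} (hε : ε ^ 2 = 1) {a x y : ℂ} (ha : ip a a ≠ 0) (h1 : ip a x = ip a y)
    (h2 : sc ε a x = sc ε a y) : x = y := by
  have key : ∀ z : ℂ, ip a a * z.re = a.re * ip a z - ε * sc ε a z * a.im ∧
      ip a a * z.im = a.im * ip a z + ε * sc ε a z * a.re := by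
    intro z
    constructor
    · simp only [ip, sc]
      linear_combination ((a.re * z.im - a.im * z.re) * a.im) * hε
    · simp only [ip, sc]
      linear_combination (-(a.re * z.im - a.im * z.re) * a.re) * hε
  obtain ⟨kx1, kx2⟩ := key x
  obtain ⟨ky1, ky2⟩ := key y
  apply Complex.ext
  · apply mul_left_cancel₀ ha
    rw [kx1, ky1, h1, h2]
  · apply mul_left_cancel₀ ha
    rw [kx2, ky2, h1, h2]

lemma r1 {U S A B T : ℝ} (h0 : 0 ≤ U) (h1 : U ≤ A) (h2 : 0 ≤ S) (h3 : S ≤ B)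
    (h4 : A ^ 2 + B ^ 2 < T) : U ^ 2 + S ^ 2 ≤ T := by nlinarith

lemma r2 {u v U S D c l' m : ℝ} (h1 : |u + v * c| < m - |u| * D)
    (h2 : |u + v * l'| < m - |u| * D) (hc : c ≤ S) (hl : S ≤ l') (hU : 1 ≤ U)
    (hU' : U ≤ 1 + D) : |u * U + v * S| ≤ m := by
  have h3 := aff_le h1.le h2.le hc hl
  have h4 : u * U + v * S = (u + v * S) + u * (U - 1) := by ring
  rw [h4]
  refine (abs_add_le _ _).trans ?_
  rw [abs_mul, abs_of_nonneg (by linarith : 0 ≤ U - 1)]
  have := mul_le_mul_of_nonneg_left (show U - 1 ≤ D by linarith) (abs_nonneg u)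
  linarith

lemma r3 {u v U S D l l' m : ℝ} (hl0 : 0 < l) (h1 : |u| ≤ 1) (h2 : |u + v * l| ≤ m)
    (hS0 : 0 ≤ S) (hS : S ≤ l') (hl' : l' ≤ l) (hm : 1 ≤ m) (hU : 1 ≤ U) (hU' : U ≤ 1 + D)
    (h : D * l < (l - l') * (m - 1)) : |u * U + v * S| ≤ m := by
  have h3 : l * |u * U + v * S| ≤ l * m := by
    rw [← abs_of_pos hl0, ← abs_mul, abs_of_pos hl0]
    have h4 : l * (u * U + v * S) = (l - S) * u + S * (u + v * l) + (l * (U - 1)) * u := by ring
    rw [h4]
    have h5 : |(l - S) * u| ≤ (l - S) * 1 := by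
      rw [abs_mul, abs_of_nonneg (by linarith : 0 ≤ l - S)]
      exact mul_le_mul_of_nonneg_left h1 (by linarith)
    have h6 : |S * (u + v * l)| ≤ S * m := by
      rw [abs_mul, abs_of_nonneg hS0]
      exact mul_le_mul_of_nonneg_left h2 hS0
    have h7' : 0 ≤ l * (U - 1) := mul_nonneg hl0.le (by linarith)
    have h7 : |(l * (U - 1)) * u| ≤ (l * (U - 1)) * 1 := by
      rw [abs_mul, abs_of_nonneg h7']
      exact mul_le_mul_of_nonneg_left h1 h7'
    have h8 : l * (U - 1) ≤ l * D := mul_le_mul_of_nonneg_left (by linarith) hl0.le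
    have h9 : (l - l') * (m - 1) ≤ (l - S) * (m - 1) :=
      mul_le_mul_of_nonneg_right (by linarith) (by linarith)
    have h10 := abs_add_le ((l - S) * u + S * (u + v * l)) ((l * (U - 1)) * u)
    have h11 := abs_add_le ((l - S) * u) (S * (u + v * l))
    nlinarith
  exact le_of_mul_le_mul_left h3 hl0

lemma r4 {u v U S σ m c M η : ℝ} (hv : v < 0) (h1 : u + v * σ = m) (h2 : u * U + v * S ≤ m)
    (_hU1 : U ≤ 1) (hU2 : 1 + η * (S - c) < U) (hS : -M ≤ S) (hη : 0 < η) (hσ : 0 < σ)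
    (hm : 0 < m) : σ - (σ + m / (-v)) * (c + M) * η ≤ S := by
  have hv' : 0 < -v := by linarith
  have h3 : σ * U - S ≤ m / (-v) * (1 - U) := by
    rw [div_mul_eq_mul_div, le_div_iff₀ hv']
    have : u = m - v * σ := by linarith
    subst this
    nlinarith
  have h4 : 1 - U ≤ η * (c + M) := by
    have := mul_le_mul_of_nonneg_left hS hη.le
    nlinarith
  have h5 : 0 < m / (-v) := div_pos hm hv'
  have h6 := mul_le_mul_of_nonneg_left h4 (show 0 ≤ σ + m / (-v) by linarith)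
  nlinarith

lemma q1 {U S c σ ρ l m η : ℝ} (hσ : 0 < σ) (hcρ : c < ρ) (hρ2 : ρ ^ 2 = m - 1)
    (hη0 : 0 < η) (hη4 : η * (c - σ) < 1) (hη4' : c + l * (η * (c - σ)) < l) (hl0 : 0 < l)
    (h1 : 1 + η * (S - c) < U) (h2 : U ≤ 1) (h3 : σ ≤ S) (h4 : S ≤ c) :
    0 < U ∧ U ^ 2 + S ^ 2 ≤ m ∧ σ ≤ S / U ∧ S / U ≤ l := by
  have hU1 : 1 - η * (c - σ) < U := by nlinarith
  have hU0 : 0 < U := by linarith
  refine ⟨hU0, by nlinarith, ?_, ?_⟩
  · rw [le_div_iff₀ hU0]; nlinarith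
  · rw [div_le_iff₀ hU0]; nlinarith

lemma q2 {U S c ρ m η : ℝ} (hη0 : 0 < η) (hρ0 : 0 ≤ ρ) (hρ2 : ρ ^ 2 = m - 1)
    (h1 : U ^ 2 + S ^ 2 ≤ m) (h2 : U - η * S ≤ 1 - η * c) (h3 : 1 < U) :
    1 < U ∧ U ≤ 1 + η * (S - c) ∧ c ≤ S ∧ S ≤ ρ := by
  refine ⟨h3, by linarith, ?_, ?_⟩
  · have h9 : 0 < η * (S - c) := by linarith
    have := (mul_pos_iff_of_pos_left hη0).mp h9
    linarith
  · apply le_of_sq_le_sq _ hρ0
    rw [hρ2]; nlinarith

lemma q3 {U S c ρ η : ℝ} (hη0 : 0 ≤ η) (hc0 : 0 ≤ c) (h1 : 1 < U) (h2 : U ≤ 1 + η * (S - c))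
    (h3 : c ≤ S) (h4 : S ≤ ρ) : U ^ 2 + S ^ 2 ≤ (1 + η * (ρ - c)) ^ 2 + ρ ^ 2 := by
  have h5 : U ≤ 1 + η * (ρ - c) := by nlinarith
  nlinarith

lemma q4 {U S η δ M c : ℝ} (hη0 : 0 ≤ η) (h1 : |U| ≤ 1 - δ) (h2 : |S| ≤ M)
    (h3 : η * (M + c) < δ) : |U - η * S| ≤ 1 - η * c := by
  rw [abs_le] at *
  constructor
  · nlinarith [mul_le_mul_of_nonneg_left h2.2 hη0]
  · nlinarith [mul_le_mul_of_nonneg_left h2.1 hη0]

lemma q5 {U S m R : ℝ} (hm : 1 < m) (hR : 1 ≤ R) (hx : U ^ 2 + S ^ 2 ≤ m * R ^ 2) :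
    |S| ≤ m * R := by
  apply abs_le_of_sq_le_sq _ (by nlinarith)
  nlinarith [sq_nonneg U, mul_nonneg (mul_nonneg (by linarith : 0 ≤ m) (by linarith : 0 ≤ m - 1))
      (sq_nonneg R)]

end RotAux

open RotAux in
theorem rot_core {R : ℝ} (hR : 1 ≤ R) {N : ℕ} {w : Fin N → ℂ} {K L : Set ℂ} (h : IsMx R w K L)
    (hL : L = {y | y ∈ Tw R w ∧ ∀ x ∈ K, |ip x y| ≤ 1}) (hKs : ∀ x ∈ K, -x ∈ K)
    (hdup : ∀ i j : Fin N, i ≠ j → w i ≠ w j ∧ w i ≠ -w j) (i : Fin N) {a : ℂ}
    (ha : a = w i ∨ a = -w i) {ε : ℝ} (hε : ε ^ 2 = 1) {σ l : ℝ} (hσ : 0 < σ)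
    (hσT : pt ε a σ ∈ Tw R w) (hmin : ∀ s, pt ε a s ∈ Tw R w → σ ≤ s)
    (hσm : σ ^ 2 < ip a a - 1) (hl : pt ε a l ∈ L) (hlm : ip a a - 1 < l ^ 2)
    (hK : ∀ x ∈ K, ip a x ≠ 1)
    (hwp : ∀ {η c q : ℝ}, 0 ≤ η → c ≤ q →
      volume.real {x : ℂ | 1 < ip a x ∧ ip a x ≤ 1 + η * (sc ε a x - c) ∧ c ≤ sc ε a x ∧
        sc ε a x ≤ q} = 1 / ip a a * (η * (q - c) ^ 2 / 2))
    (hwm : ∀ {η c p : ℝ}, 0 ≤ η → p ≤ c →
      volume.real {x : ℂ | 1 + η * (sc ε a x - c) < ip a x ∧ ip a x ≤ 1 ∧ p ≤ sc ε a x ∧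
        sc ε a x ≤ c} = 1 / ip a a * (η * (c - p) ^ 2 / 2)) : False := by
  obtain ⟨m, hmdef⟩ : ∃ m, m = ip a a := ⟨_, rfl⟩
  have hm1 : 1 < m := by nlinarith [sq_nonneg σ]
  have hm0 : 0 < m := by linarith
  have hmne : ip a a ≠ 0 := by rw [← hmdef]; exact hm0.ne'
  have hR2 : 1 ≤ R ^ 2 := by nlinarith
  have hmR : m ≤ m * R ^ 2 := le_mul_of_one_le_right hm0.le hR2
  -- coordinates
  have hsq : ∀ x, m * ip x x = ip a x ^ 2 + sc ε a x ^ 2 := by
    intro x
    rw [hmdef, ip_mul hε]; ring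
  have hp : ∀ p x, |ip p x| ≤ 1 ↔ |ip a p * ip a x + sc ε a p * sc ε a x| ≤ m := by
    intro p x
    rw [← ip_mul hε, ← hmdef, abs_mul, abs_of_pos hm0]
    exact (mul_le_iff_le_one_right hm0).symm
  have hai : ∀ x, |ip (w i) x| = |ip a x| := by
    intro x
    rcases ha with h' | h'
    · rw [h']
    · rw [h', ip_neg_left, abs_neg]
  have hdisc : ∀ x, ip x x ≤ R ^ 2 ↔ ip a x ^ 2 + sc ε a x ^ 2 ≤ m * R ^ 2 := by
    intro x
    rw [← hsq]
    exact (mul_le_mul_iff_of_pos_left hm0).symm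
  have hT : ∀ x, x ∈ Tw R w ↔ ip a x ^ 2 + sc ε a x ^ 2 ≤ m * R ^ 2 ∧ |ip a x| ≤ 1 ∧
      ∀ j, j ≠ i → |ip a (w j) * ip a x + sc ε a (w j) * sc ε a x| ≤ m := by
    intro x
    rw [← hdisc]
    constructor
    · rintro ⟨h1, h2⟩
      exact ⟨h1, (hai x) ▸ h2 i, fun j _ => (hp _ _).mp (h2 j)⟩
    · rintro ⟨h1, h2, h3⟩
      refine ⟨h1, fun j => ?_⟩
      by_cases hj : j = i
      · subst hj
        rw [hai]; exact h2
      · exact (hp _ _).mpr (h3 j hj)
  have hTpt : ∀ s, pt ε a s ∈ Tw R w ↔ 1 + s ^ 2 ≤ m * R ^ 2 ∧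
      ∀ j, j ≠ i → |ip a (w j) + sc ε a (w j) * s| ≤ m := by
    intro s
    rw [hT, ip_pt hmne, sc_pt hε hmne]
    simp only [one_pow, mul_one, abs_one, le_refl, true_and]
  have hlL := hl
  rw [hL] at hlL
  have hlT : pt ε a l ∈ Tw R w := hlL.1
  have hσl : σ ≤ l := hmin l hlT
  have hl0 : 0 < l := lt_of_lt_of_le hσ hσl
  obtain ⟨ρ, hρdef⟩ : ∃ ρ, ρ = √(m - 1) := ⟨_, rfl⟩
  have hρ0 : 0 ≤ ρ := by rw [hρdef]; exact Real.sqrt_nonneg _
  have hρ2 : ρ ^ 2 = m - 1 := by rw [hρdef]; exact Real.sq_sqrt (by linarith)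
  have hσρ : σ < ρ := by
    rw [← hmdef] at hσm
    by_contra hh
    rw [not_lt] at hh
    nlinarith
  have hρl : ρ < l := by
    rw [← hmdef] at hlm
    by_contra hh
    rw [not_lt] at hh
    nlinarith
  obtain ⟨c, hcdef⟩ : ∃ c, c = (σ + ρ) / 2 := ⟨_, rfl⟩
  obtain ⟨l', hl'def⟩ : ∃ l', l' = (l + ρ) / 2 := ⟨_, rfl⟩
  have hσc : σ < c := by linarith
  have hcρ : c < ρ := by linarith
  have hρl' : ρ < l' := by linarith
  have hl'l : l' < l := by linarith
  have hc0 : 0 < c := by linarith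
  have hTσ := (hTpt σ).mp hσT
  have hTl := (hTpt l).mp hlT
  -- bound of the second coordinate
  obtain ⟨M, hMdef⟩ : ∃ M, M = m * R := ⟨_, rfl⟩
  have hM0 : 0 < M := by rw [hMdef]; nlinarith
  have hMb : ∀ x, ip a x ^ 2 + sc ε a x ^ 2 ≤ m * R ^ 2 → |sc ε a x| ≤ M := by
    intro x hx
    rw [hMdef]
    exact q5 hm1 hR hx
  -- the active constraint at `pt σ`
  have hact : ∃ j, j ≠ i ∧ ∃ u v : ℝ, v < 0 ∧ u + v * σ = m ∧
      ∀ U S, |ip a (w j) * U + sc ε a (w j) * S| ≤ m → u * U + v * S ≤ m := by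
    by_contra hno
    push Not at hno
    have hev : ∀ j, j ≠ i → ∀ᶠ t in 𝓝[>] (0 : ℝ), |ip a (w j) + sc ε a (w j) * (σ - t)| ≤ m := by
      intro j hj
      have h1 := hTσ.2 j hj
      rw [abs_le] at h1
      have e1 := ev_aff (u := ip a (w j)) (v := sc ε a (w j)) (σ := σ) (m := m) h1.2 (by
        intro h2
        by_contra h3
        rw [not_le] at h3
        obtain ⟨U, S, h4, h5⟩ := hno j hj _ _ h3 h2
        have := (abs_le.mp h4).2
        linarith)
      have e2 := ev_aff (u := -ip a (w j)) (v := -sc ε a (w j)) (σ := σ) (m := m)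
        (by linarith) (by
        intro h2
        by_contra h3
        rw [not_le] at h3
        obtain ⟨U, S, h4, h5⟩ := hno j hj _ _ h3 h2
        have := (abs_le.mp h4).1
        linarith)
      filter_upwards [e1, e2] with t h3 h4
      rw [abs_le]
      constructor <;> linarith
    have hev2 : ∀ᶠ t in 𝓝[>] (0 : ℝ), ∀ j, j ≠ i →
        |ip a (w j) + sc ε a (w j) * (σ - t)| ≤ m := by
      rw [Filter.eventually_all]
      intro j
      by_cases hj : j = i
      · exact Filter.Eventually.of_forall fun t h' => absurd hj h'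
      · exact (hev j hj).mono fun t ht _ => ht
    have hev3 : ∀ᶠ t in 𝓝[>] (0 : ℝ), 1 + (σ - t) ^ 2 < m * R ^ 2 := by
      apply ev (f := fun t => 1 + (σ - t) ^ 2) (by fun_prop)
      simp only [sub_zero]
      rw [← hmdef] at hσm
      nlinarith
    obtain ⟨t, ⟨ht1, ht2⟩, ht3⟩ := ((hev2.and hev3).and self_mem_nhdsWithin).exists
    have ht0 : 0 < t := ht3
    have := hmin (σ - t) ((hTpt _).mpr ⟨ht2.le, ht1⟩)
    linarith
  obtain ⟨j₀, hj₀, u₀, v₀, hv₀, huv₀, hact⟩ := hact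
  obtain ⟨C, hCdef⟩ : ∃ C, C = (σ + m / (-v₀)) * (c + M) := ⟨_, rfl⟩
  have hβ : 0 < -v₀ := by linarith
  have hC0 : 0 < C := by
    rw [hCdef]
    have : 0 < m / (-v₀) := div_pos hm0 hβ
    positivity
  -- the distance of `K` from the line
  have hKT : ∀ x ∈ K, x ∈ Tw R w := fun x hx => h.adm.2.2.1 hx
  obtain ⟨δ, hδ0, hδ⟩ : ∃ δ : ℝ, 0 < δ ∧ ∀ x ∈ K, |ip a x| ≤ 1 - δ := by
    rcases K.eq_empty_or_nonempty with hKe | hKn
    · exact ⟨1, one_pos, fun x hx => by rw [hKe] at hx; exact absurd hx (notMem_empty x)⟩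
    · obtain ⟨x₀, hx₀, hmax⟩ := h.adm.1.exists_isMaxOn hKn
        ((continuous_ip_right a).abs.continuousOn (s := K))
      refine ⟨1 - |ip a x₀|, ?_, fun x hx => ?_⟩
      · have h1 := ((hT x₀).mp (hKT x₀ hx₀)).2.1
        have h2 : |ip a x₀| ≠ 1 := by
          intro h3
          rcases (abs_eq zero_le_one).mp h3 with h4 | h4
          · exact hK x₀ hx₀ h4
          · apply hK (-x₀) (hKs x₀ hx₀)
            rw [ip_neg_right, h4, neg_neg]
        have h3 := lt_of_le_of_ne h1 h2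
        linarith
      · have := hmax hx
        simp only [mem_ofPred_eq] at this
        linarith
  -- strictness for the other strips
  have hnd : ∀ j, j ≠ i → ¬ (sc ε a (w j) = 0 ∧ |ip a (w j)| = m) := by
    rintro j hj ⟨h1, h2⟩
    have hsaa : sc ε a a = 0 := by simp only [sc]; ring
    have hd := hdup i j (Ne.symm hj)
    rcases (abs_eq hm0.le).mp h2 with h3 | h3
    · have h4 : w j = a := coord_inj hε hmne (by rw [h3, hmdef]) (by rw [h1, hsaa])
      rcases ha with h5 | h5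
      · exact hd.1 (by rw [h4, h5])
      · exact hd.2 (by rw [h4, h5, neg_neg])
    · have h4 : w j = -a := coord_inj hε hmne (by rw [h3, ip_neg_right, hmdef])
        (by rw [h1, sc_neg_right, hsaa, neg_zero])
      rcases ha with h5 | h5
      · exact hd.2 (by rw [h4, h5, neg_neg])
      · exact hd.1 (by rw [h4, h5, neg_neg])
  have hsc : ∀ j, j ≠ i → |ip a (w j) + sc ε a (w j) * c| < m := fun j hj =>
    aff_lt (hTσ.2 j hj) (hTl.2 j hj) hσc (by linarith) (hnd j hj)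
  have hsl' : ∀ j, j ≠ i → |ip a (w j) + sc ε a (w j) * l'| < m := fun j hj =>
    aff_lt (hTσ.2 j hj) (hTl.2 j hj) (by linarith) hl'l (hnd j hj)
  obtain ⟨D, hDdef⟩ : ∃ D, D = l' - c := ⟨_, rfl⟩
  have hD0 : 0 < D := by linarith
  -- choice of `η`
  have g2 : ∀ᶠ η in 𝓝[>] (0 : ℝ), η * c < 1 :=
    ev (f := fun η => η * c) (by fun_prop) (by simp)
  have g3 : ∀ᶠ η in 𝓝[>] (0 : ℝ), η * (M + c) < δ :=
    ev (f := fun η => η * (M + c)) (by fun_prop) (by simpa using hδ0)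
  have g4 : ∀ᶠ η in 𝓝[>] (0 : ℝ), η * (c - σ) < 1 :=
    ev (f := fun η => η * (c - σ)) (by fun_prop) (by simp)
  have g4' : ∀ᶠ η in 𝓝[>] (0 : ℝ), c + l * (η * (c - σ)) < l :=
    ev (f := fun η => c + l * (η * (c - σ))) (by fun_prop) (by simp; linarith)
  have g5 : ∀ᶠ η in 𝓝[>] (0 : ℝ), (1 + η * D) ^ 2 + l' ^ 2 < m * R ^ 2 := by
    apply ev (f := fun η => (1 + η * D) ^ 2 + l' ^ 2) (by fun_prop)
    simp only [zero_mul, add_zero, one_pow]
    have h1 := hTl.1
    nlinarith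
  have g6 : ∀ᶠ η in 𝓝[>] (0 : ℝ), ∀ j, j ≠ i →
      |ip a (w j) + sc ε a (w j) * c| < m - |ip a (w j)| * (η * D) ∧
      |ip a (w j) + sc ε a (w j) * l'| < m - |ip a (w j)| * (η * D) := by
    rw [Filter.eventually_all]
    intro j
    by_cases hj : j = i
    · exact Filter.Eventually.of_forall fun t h' => absurd hj h'
    · have e1 := ev (f := fun η => |ip a (w j) + sc ε a (w j) * c| + |ip a (w j)| * (η * D))
        (by fun_prop) (r := m) (by simpa using hsc j hj)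
      have e2 := ev (f := fun η => |ip a (w j) + sc ε a (w j) * l'| + |ip a (w j)| * (η * D))
        (by fun_prop) (r := m) (by simpa using hsl' j hj)
      filter_upwards [e1, e2] with η h1 h2 _
      constructor <;> linarith
  have g7 : ∀ᶠ η in 𝓝[>] (0 : ℝ), η * D * l < (l - l') * (m - 1) :=
    ev (f := fun η => η * D * l) (by fun_prop) (by
      simp only [zero_mul]
      exact mul_pos (by linarith) (by linarith))
  have g8 : ∀ᶠ η in 𝓝[>] (0 : ℝ), η * (l' + c) < 2 :=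
    ev (f := fun η => η * (l' + c)) (by fun_prop) (by simp)
  have g9 : ∀ᶠ η in 𝓝[>] (0 : ℝ), (c - σ + C * η) ^ 2 < D ^ 2 := by
    apply ev (f := fun η => (c - σ + C * η) ^ 2) (by fun_prop)
    simp only [mul_zero, add_zero]
    nlinarith
  obtain ⟨η, hη2, hη3, hη4, hη4', hη5, hη6, hη7, hη8, hη9, hη0'⟩ :=
    (g2.and (g3.and (g4.and (g4'.and (g5.and (g6.and (g7.and (g8.and
      (g9.and self_mem_nhdsWithin))))))))).exists
  have hη0 : 0 < η := hη0'
  have hηc : 0 < 1 - η * c := by linarith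
  obtain ⟨w', hw'⟩ : ∃ w', w' = Function.update w i (rv ε a c η) := ⟨_, rfl⟩
  have hT' : ∀ x, x ∈ Tw R w' ↔ ip a x ^ 2 + sc ε a x ^ 2 ≤ m * R ^ 2 ∧
      |ip a x - η * sc ε a x| ≤ 1 - η * c ∧
      ∀ j, j ≠ i → |ip a (w j) * ip a x + sc ε a (w j) * sc ε a x| ≤ m := by
    intro x
    rw [← hdisc, hw']
    constructor
    · rintro ⟨h1, h2⟩
      refine ⟨h1, ?_, fun j hj => (hp _ _).mp ?_⟩
      · have h3 := h2 i
        rw [Function.update_self, ip_rv, abs_div, abs_of_pos hηc, div_le_one hηc] at h3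
        exact h3
      · have h3 := h2 j
        rw [Function.update_of_ne hj] at h3
        exact h3
    · rintro ⟨h1, h2, h3⟩
      refine ⟨h1, fun j => ?_⟩
      by_cases hj : j = i
      · subst hj
        rw [Function.update_self, ip_rv, abs_div, abs_of_pos hηc, div_le_one hηc]
        exact h2
      · rw [Function.update_of_ne hj]
        exact (hp _ _).mpr (h3 j hj)
  have hTneg : ∀ x, x ∈ Tw R w → -x ∈ Tw R w := by
    rintro x ⟨h1, h2⟩
    refine ⟨by rw [ip_neg_left, ip_neg_right, neg_neg]; exact h1, fun j => ?_⟩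
    rw [ip_neg_right, abs_neg]; exact h2 j
  have hT'neg : ∀ x, x ∈ Tw R w' → -x ∈ Tw R w' := by
    rintro x ⟨h1, h2⟩
    refine ⟨by rw [ip_neg_left, ip_neg_right, neg_neg]; exact h1, fun j => ?_⟩
    rw [ip_neg_right, abs_neg]; exact h2 j
  have hBneg : ∀ x, x ∈ Bu → -x ∈ Bu := by
    intro x h1
    change ip (-x) (-x) ≤ 1
    rw [ip_neg_left, ip_neg_right, neg_neg]; exact h1
  have hB : ∀ x, x ∈ Bu ↔ ip a x ^ 2 + sc ε a x ^ 2 ≤ m := by
    intro x
    rw [← hsq]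
    change ip x x ≤ 1 ↔ _
    exact (mul_le_iff_le_one_right hm0).symm
  obtain ⟨L', hL'def⟩ : ∃ L', L' = {y | y ∈ Tw R w' ∧ ∀ x ∈ K, |ip x y| ≤ 1} := ⟨_, rfl⟩
  have hR0 : 0 ≤ R := by linarith
  have hL'c : IsCompact L' := by
    have : L' = Tw R w' ∩ ⋂ x ∈ K, {y | |ip x y| ≤ 1} := by
      rw [hL'def]; ext y; simp
    rw [this]
    exact (isCompact_Tw hR0 w').inter_right (isClosed_biInter fun x _ =>
      isClosed_le (continuous_ip_right x).abs continuous_const)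
  have hKT' : K ⊆ Tw R w' := by
    intro x hx
    have h1 := (hT x).mp (hKT x hx)
    refine (hT' x).mpr ⟨h1.1, ?_, h1.2.2⟩
    exact q4 hη0.le (hδ x hx) (hMb x h1.1) hη3
  have hadm : Adm R w' K L' := by
    refine ⟨h.adm.1, hL'c, hKT', ?_, ?_⟩
    · rw [hL'def]; exact fun y hy => hy.1
    · rw [hL'def]; exact fun x hx y hy => hy.2 x hx
  have hmax := h.max w' K L' hadm
  have hcU := continuous_ip_right a
  have hcS := continuous_sc ε a
  have hmeasp : ∀ q, MeasurableSet {x : ℂ | 1 < ip a x ∧ ip a x ≤ 1 + η * (sc ε a x - c) ∧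
      c ≤ sc ε a x ∧ sc ε a x ≤ q} := by
    intro q
    exact (measurableSet_lt measurable_const hcU.measurable).inter
      ((measurableSet_le hcU.measurable
        (continuous_const.add (continuous_const.mul (hcS.sub continuous_const))).measurable).inter
      ((measurableSet_le measurable_const hcS.measurable).inter
        (measurableSet_le hcS.measurable measurable_const)))
  have hmeasm : ∀ p, MeasurableSet {x : ℂ | 1 + η * (sc ε a x - c) < ip a x ∧ ip a x ≤ 1 ∧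
      p ≤ sc ε a x ∧ sc ε a x ≤ c} := by
    intro p
    exact (measurableSet_lt
        (continuous_const.add (continuous_const.mul (hcS.sub continuous_const))).measurable
        hcU.measurable).inter
      ((measurableSet_le hcU.measurable measurable_const).inter
      ((measurableSet_le measurable_const hcS.measurable).inter
        (measurableSet_le hcS.measurable measurable_const)))
  have hBc : IsClosed Bu := closed_ip_self 1
  have hTc : IsCompact (Tw R w) := isCompact_Tw hR0 w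
  have hT'c : IsCompact (Tw R w') := isCompact_Tw hR0 w'
  have hUneg : ∀ x, ip a (-x) = -ip a x := fun x => ip_neg_right a x
  have hSneg : ∀ x, sc ε a (-x) = -sc ε a x := fun x => sc_neg_right ε a x
  have hin1 : ∀ x ∈ {x : ℂ | 1 + η * (sc ε a x - c) < ip a x ∧ ip a x ≤ 1 ∧ σ ≤ sc ε a x ∧
        sc ε a x ≤ c}, x ∈ (Bu ∩ Tw R w) \ (Bu ∩ Tw R w') := by
    rintro x ⟨h1, h2, h3, h4⟩
    obtain ⟨hU0, hsum, hq1, hq2⟩ := q1 hσ hcρ hρ2 hη0 hη4 hη4' hl0 h1 h2 h3 h4
    refine ⟨⟨(hB x).mpr hsum, (hT x).mpr ⟨hsum.trans hmR, ?_, fun j hj => ?_⟩⟩, fun hY => ?_⟩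
    · rw [abs_le]; constructor <;> linarith
    · have h5 := aff_le (hTσ.2 j hj) (hTl.2 j hj) hq1 hq2
      have h6 : ip a (w j) * ip a x + sc ε a (w j) * sc ε a x =
          ip a x * (ip a (w j) + sc ε a (w j) * (sc ε a x / ip a x)) := by
        field_simp
      rw [h6, abs_mul, abs_of_pos hU0]
      have h7 := mul_le_mul h2 h5 (abs_nonneg _) zero_le_one
      rwa [one_mul] at h7
    · have h5 := (abs_le.mp ((hT' x).mp hY.2).2.1).2
      linarith
  -- Part 1
  have part1 : volume.real (Bu ∩ Tw R w') ≤ volume.real (Bu ∩ Tw R w) := by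
    have e := exch (X := Bu ∩ Tw R w) (Y := Bu ∩ Tw R w')
      (W1 := {x : ℂ | 1 + η * (sc ε a x - c) < ip a x ∧ ip a x ≤ 1 ∧ σ ≤ sc ε a x ∧
        sc ε a x ≤ c})
      (W2 := {x : ℂ | 1 < ip a x ∧ ip a x ≤ 1 + η * (sc ε a x - c) ∧ c ≤ sc ε a x ∧
        sc ε a x ≤ ρ})
      (hBc.measurableSet.inter hTc.isClosed.measurableSet)
      (hBc.measurableSet.inter hT'c.isClosed.measurableSet)
      (ne_top_of_le_ne_top hTc.measure_lt_top.ne (measure_mono inter_subset_right))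
      (ne_top_of_le_ne_top hT'c.measure_lt_top.ne (measure_mono inter_subset_right))
      (hmeasm σ) ?_ ?_ ?_ ?_ ?_
    · rw [hwp hη0.le hcρ.le, hwm hη0.le hσc.le] at e
      have e1 : ρ - c = c - σ := by rw [hcdef]; ring
      rw [e1] at e
      linarith
    · exact hin1
    · intro x hx
      have h1 := hin1 x hx
      exact ⟨⟨hBneg x h1.1.1, hTneg x h1.1.2⟩, fun h2 => h1.2 ⟨h1.1.1, by
        have := hT'neg _ h2.2
        rwa [neg_neg] at this⟩⟩
    · rintro x ⟨_, _, h1, _⟩ ⟨_, _, h2, _⟩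
      rw [hSneg] at h2
      linarith
    · apply vol_ne_top hε (hmdef ▸ hm1) (B := (1 + η * (ρ - c)) ^ 2 + ρ ^ 2)
      rintro x ⟨h1, h2, h3, h4⟩
      exact q3 hη0.le hc0.le h1 h2 h3 h4
    · rintro x ⟨⟨h1, h2⟩, h3⟩
      have h4 := (hB x).mp h1
      have h5 := (hT' x).mp h2
      have h6 : ¬ |ip a x| ≤ 1 := fun h7 => h3 ⟨h1, (hT x).mpr ⟨h5.1, h7, h5.2.2⟩⟩
      rw [not_le, lt_abs] at h6
      have h8 := abs_le.mp h5.2.1
      rcases h6 with h7 | h7
      · left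
        exact q2 hη0 hρ0 hρ2 h4 h8.2 h7
      · right
        change 1 < ip a (-x) ∧ ip a (-x) ≤ 1 + η * (sc ε a (-x) - c) ∧ c ≤ sc ε a (-x) ∧
          sc ε a (-x) ≤ ρ
        rw [hUneg, hSneg]
        exact q2 hη0 hρ0 hρ2 (by rw [neg_sq, neg_sq]; exact h4) (by linarith [h8.1]) h7
  have hpolneg : ∀ y : ℂ, (∀ x ∈ K, |ip x y| ≤ 1) → ∀ x ∈ K, |ip x (-y)| ≤ 1 := by
    intro y hy x hx
    rw [ip_neg_right, abs_neg]; exact hy x hx
  have hpolK : ∀ x ∈ K, |ip a x + sc ε a x * l| ≤ m := by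
    intro x hx
    have h1 := (hp x (pt ε a l)).mp (hlL.2 x hx)
    rw [ip_pt hmne, sc_pt hε hmne, mul_one] at h1
    exact h1
  have hin2 : ∀ x ∈ {x : ℂ | 1 < ip a x ∧ ip a x ≤ 1 + η * (sc ε a x - c) ∧ c ≤ sc ε a x ∧
        sc ε a x ≤ l'}, x ∈ L' \ L := by
    rintro x ⟨h1, h2, h3, h4⟩
    have hS0 : 0 ≤ sc ε a x := by linarith
    have hUD : ip a x ≤ 1 + η * D := by
      have : η * (sc ε a x - c) ≤ η * D := mul_le_mul_of_nonneg_left (by linarith) hη0.le
      linarith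
    have hU0 : 0 ≤ ip a x := by linarith
    refine ⟨?_, fun hx => ?_⟩
    · rw [hL'def]
      refine ⟨(hT' x).mpr ⟨r1 hU0 hUD hS0 h4 hη5, ?_, fun j hj => ?_⟩, fun p hpK => ?_⟩
      · rw [abs_le]
        have h5 : η * sc ε a x ≤ η * l' := mul_le_mul_of_nonneg_left h4 hη0.le
        have h6 : η * (l' + c) = η * l' + η * c := by ring
        have h7 : η * (sc ε a x - c) = η * sc ε a x - η * c := by ring
        constructor <;> linarith
      · exact r2 (hη6 j hj).1 (hη6 j hj).2 h3 h4 h1.le hUD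
      · rw [hp]
        have h5 := ((hT p).mp (hKT p hpK)).2.1
        exact r3 hl0 h5 (hpolK p hpK) hS0 h4 hl'l.le hm1.le h1.le hUD hη7
    · rw [hL] at hx
      have h5 := (abs_le.mp ((hT x).mp hx.1).2.1).2
      linarith
  have part2 : volume.real L < volume.real L' := by
    have hLc : IsCompact L := h.adm.2.1
    have hLneg : ∀ x, x ∈ L → -x ∈ L := by
      intro x hx
      rw [hL] at hx ⊢
      exact ⟨hTneg x hx.1, hpolneg x hx.2⟩
    have hL'neg : ∀ x, x ∈ L' → -x ∈ L' := by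
      intro x hx
      rw [hL'def] at hx ⊢
      exact ⟨hT'neg x hx.1, hpolneg x hx.2⟩
    have e := exch (X := L') (Y := L)
      (W1 := {x : ℂ | 1 < ip a x ∧ ip a x ≤ 1 + η * (sc ε a x - c) ∧ c ≤ sc ε a x ∧
        sc ε a x ≤ l'})
      (W2 := {x : ℂ | 1 + η * (sc ε a x - c) < ip a x ∧ ip a x ≤ 1 ∧ σ - C * η ≤ sc ε a x ∧
        sc ε a x ≤ c})
      hL'c.isClosed.measurableSet hLc.isClosed.measurableSet
      hL'c.measure_lt_top.ne hLc.measure_lt_top.ne
      (hmeasp l') ?_ ?_ ?_ ?_ ?_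
    · have hCη : 0 ≤ C * η := by positivity
      rw [hwp hη0.le (by linarith), hwm hη0.le (by linarith)] at e
      have e1 : c - (σ - C * η) = c - σ + C * η := by ring
      rw [e1, ← hmdef, ← hDdef] at e
      have e2 : 1 / m * (η * (c - σ + C * η) ^ 2 / 2) < 1 / m * (η * D ^ 2 / 2) := by
        apply mul_lt_mul_of_pos_left _ (by positivity)
        have := mul_lt_mul_of_pos_left hη9 hη0
        linarith
      linarith
    · exact hin2
    · intro x hx
      have h1 := hin2 x hx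
      exact ⟨hL'neg x h1.1, fun h2 => h1.2 (by
        have := hLneg _ h2
        rwa [neg_neg] at this)⟩
    · rintro x ⟨h1, _, _, _⟩ ⟨h2, _, _, _⟩
      rw [hUneg] at h2
      linarith
    · apply vol_ne_top hε (hmdef ▸ hm1)
        (B := (1 + η * (c - (σ - C * η))) ^ 2 + (c + |σ - C * η|) ^ 2)
      rintro x ⟨h1, h2, h3, h4⟩
      have h5 : η * (c - sc ε a x) ≤ η * (c - (σ - C * η)) :=
        mul_le_mul_of_nonneg_left (by linarith) hη0.le
      have h5' : 0 ≤ η * (c - sc ε a x) := mul_nonneg hη0.le (by linarith)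
      have h6 : |ip a x| ≤ 1 + η * (c - (σ - C * η)) := by
        rw [abs_le]
        constructor <;> linarith
      have h7 : |sc ε a x| ≤ c + |σ - C * η| := by
        rw [abs_le]
        have h8 := neg_abs_le (σ - C * η)
        have h9 := abs_nonneg (σ - C * η)
        constructor <;> linarith
      have h8 := sq_le_sq' (abs_le.mp h6).1 (abs_le.mp h6).2
      have h9 := sq_le_sq' (abs_le.mp h7).1 (abs_le.mp h7).2
      linarith
    · rintro x ⟨h1, h2⟩
      rw [hL] at h1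
      rw [hL'def] at h2
      have h4 := (hT x).mp h1.1
      have h6 : ¬ |ip a x - η * sc ε a x| ≤ 1 - η * c := fun h7 =>
        h2 ⟨(hT' x).mpr ⟨h4.1, h7, h4.2.2⟩, h1.2⟩
      rw [not_le, lt_abs] at h6
      have h8 := abs_le.mp h4.2.1
      have h9 := abs_le.mp (hMb x h4.1)
      have h10 : C * η = (σ + m / (-v₀)) * (c + M) * η := by rw [hCdef]
      have hexp : η * (sc ε a x - c) = η * sc ε a x - η * c := by ring
      have hexp' : η * (-sc ε a x - c) = -(η * sc ε a x) - η * c := by ring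
      rcases h6 with h7 | h7
      · left
        have h11 : 1 + η * (sc ε a x - c) < ip a x := by linarith
        refine ⟨h11, h8.2, ?_, ?_⟩
        · rw [h10]
          exact r4 hv₀ huv₀ (hact _ _ (h4.2.2 j₀ hj₀)) h8.2 h11 h9.1 hη0 hσ hm0
        · have h12 : 0 < η * (c - sc ε a x) := by
            have : η * (c - sc ε a x) = -(η * (sc ε a x - c)) := by ring
            rw [this]; linarith [h8.2]
          have := (mul_pos_iff_of_pos_left hη0).mp h12
          linarith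
      · right
        have h11 : 1 + η * (-sc ε a x - c) < -ip a x := by linarith
        have h13 := h4.2.2 j₀ hj₀
        rw [← abs_neg] at h13
        have h14 : -(ip a (w j₀) * ip a x + sc ε a (w j₀) * sc ε a x) =
            ip a (w j₀) * (-ip a x) + sc ε a (w j₀) * (-sc ε a x) := by ring
        rw [h14] at h13
        refine ⟨by rw [hUneg, hSneg]; exact h11, by rw [hUneg]; linarith [h8.1], ?_, ?_⟩
        · rw [hSneg, h10]
          exact r4 hv₀ huv₀ (hact _ _ h13) (by linarith [h8.1]) h11 (by linarith [h9.2]) hη0 hσ hm0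
        · rw [hSneg]
          have h12 : 0 < η * (c - -sc ε a x) := by
            have : η * (c - -sc ε a x) = -(η * (-sc ε a x - c)) := by ring
            rw [this]; linarith [h8.1]
          have := (mul_pos_iff_of_pos_left hη0).mp h12
          linarith
  -- conclusion
  have hpos := h.pos
  unfold Phi at hpos hmax
  have hKpos : 0 < volume.real K := by
    rcases (measureReal_nonneg (μ := volume) (s := K)).lt_or_eq with h1 | h1
    · exact h1
    · rw [← h1, zero_mul, Real.sqrt_zero] at hpos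
      have := measureReal_nonneg (μ := volume) (s := Bu ∩ Tw R w)
      linarith
  have hlt : √(volume.real K * volume.real L) < √(volume.real K * volume.real L') :=
    Real.sqrt_lt_sqrt (mul_nonneg measureReal_nonneg measureReal_nonneg)
      (mul_lt_mul_of_pos_left part2 hKpos)
  linarith

theorem rot {R : ℝ} (hR : 1 ≤ R) {N : ℕ} {w : Fin N → ℂ} {K L : Set ℂ} (h : IsMx R w K L)
    (hL : L = {y | y ∈ Tw R w ∧ ∀ x ∈ K, |ip x y| ≤ 1}) (hKs : ∀ x ∈ K, -x ∈ K)
    (hdup : ∀ i j : Fin N, i ≠ j → w i ≠ w j ∧ w i ≠ -w j) (i : Fin N) {a : ℂ}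
    (ha : a = w i ∨ a = -w i) {ε : ℝ} (hε : ε ^ 2 = 1) {σ l : ℝ} (hσ : 0 < σ)
    (hσT : pt ε a σ ∈ Tw R w) (hmin : ∀ s, pt ε a s ∈ Tw R w → σ ≤ s)
    (hσm : σ ^ 2 < ip a a - 1) (hl : pt ε a l ∈ L) (hlm : ip a a - 1 < l ^ 2)
    (hK : ∀ x ∈ K, ip a x ≠ 1) : False := by
  have ha0 : a ≠ 0 := by
    intro h0
    have h1 : ip a a = 0 := by rw [h0]; simp [ip]
    nlinarith [sq_nonneg σ]
  exact rot_core hR h hL hKs hdup i ha hε hσ hσT hmin hσm hl hlm hK
    (fun h1 h2 => area_wedge hε ha0 h1 h2) (fun h1 h2 => area_wedge' hε ha0 h1 h2)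

end Pool.Agent.H82.Cor
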