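import Pool.Agent.H82.Cor.StepCore
import Pool.Agent.H82.Cor.Exmax
import Pool.Agent.H82.Cor.Drop1
import Pool.Agent.H82.Cor.Drop2
import Pool.Agent.H82.Cor.RotF
import Pool.Agent.H82.Cor.Ext
import Pool.Agent.H82.Cor.San2
import Pool.Agent.H82.Cor.Plan

/-!
# The inequality of Cordero-Erausquin in the plane: the induction step
-/

open MeasureTheory Set Metric

namespace Pool.Agent.H82.Cor

theorem step {R : ℝ} (hR : 1 ≤ R) {N : ℕ} (hN : PN R N) : PN R (N + 1) := by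
  by_contra hne
  obtain ⟨w, K0, L0, h0⟩ := exists_max hR hne
  obtain ⟨K, L, h, hK, hL⟩ := polar_max hR h0
  have hdup := no_dup hR hN h
  have symK : ∀ x ∈ K, -x ∈ K := by
    intro x hx
    rw [hK] at hx ⊢
    refine ⟨neg_mem_Tw hx.1, fun y hy => ?_⟩
    rw [ip_neg_left, abs_neg]
    exact hx.2 y hy
  have symL : ∀ x ∈ L, -x ∈ L := by
    intro x hx
    rw [hL] at hx ⊢
    refine ⟨neg_mem_Tw hx.1, fun y hy => ?_⟩
    rw [ip_neg_right, abs_neg]
    exact hx.2 y hy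
  have hK' : K = {x | x ∈ Tw R w ∧ ∀ y ∈ L, |ip y x| ≤ 1} := by
    rw [hK]
    ext x
    constructor
    · rintro ⟨h1, h2⟩
      exact ⟨h1, fun y hy => by rw [ip_comm]; exact h2 y hy⟩
    · rintro ⟨h1, h2⟩
      exact ⟨h1, fun y hy => by rw [ip_comm]; exact h2 y hy⟩
  have hdat := dat_of_max hR hK hL (fun i => two_points hR hN h i)
    (fun i a ha ε hε σ l hσ h1 h2 h3 h4 h5 h6 =>
      rot hR h hL symK hdup i ha hε hσ h1 h2 h3 h4 h5 h6)
    (fun i a ha ε hε σ l hσ h1 h2 h3 h4 h5 h6 =>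
      rot hR h.swap hK' symL hdup i ha hε hσ h1 h2 h3 h4 h5 h6)
  have hext := ext_main hdat
  rw [Tb_Aw] at hext
  have hpos := h.pos
  unfold Phi at hpos
  linarith

theorem pn_all {R : ℝ} (hR : 1 ≤ R) (N : ℕ) : PN R N := by
  induction N with
  | zero => exact pn_zero hR
  | succ N ih => exact step hR ih

/-- The inequality of Cordero-Erausquin in the plane. -/
theorem cordero_plane (K T : Set (EuclideanSpace ℝ (Fin 2)))
    (hK : Convex ℝ K) (hKc : IsCompact K) (hKs : ∀ x ∈ K, -x ∈ K)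
    (hT : Convex ℝ T) (hTc : IsCompact T) (hTi : (interior T).Nonempty) (hTs : ∀ x ∈ T, -x ∈ T) :
    volume (K ∩ T) * volume ({y : EuclideanSpace ℝ (Fin 2) | ∀ x ∈ K, inner ℝ x y ≤ (1 : ℝ)} ∩ T)
      ≤ volume (closedBall (0 : EuclideanSpace ℝ (Fin 2)) 1 ∩ T) ^ 2 :=
  plan (fun _ hR N => pn_all hR N) K T hK hKc hKs hT hTc hTi hTs

end Pool.Agent.H82.Cor
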