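import Pool.Agent.H82.Cor.Basic

/-!
# The inequality of Cordero-Erausquin in the plane: the data of a maximizer
-/

open MeasureTheory Set Metric

namespace Pool.Agent.H82.Cor

open Classical in
/-- The finite symmetric set of half planes of `w`. -/
noncomputable def Aw {N : ℕ} (w : Fin N → ℂ) : Finset ℂ :=
  Finset.univ.image w ∪ Finset.univ.image (fun i => -w i)

lemma mem_Aw {N : ℕ} (w : Fin N → ℂ) (a : ℂ) : a ∈ Aw w ↔ ∃ i, a = w i ∨ a = -w i := by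
  classical
  unfold Aw
  simp only [Finset.mem_union, Finset.mem_image, Finset.mem_univ, true_and]
  constructor
  · rintro (⟨i, hi⟩ | ⟨i, hi⟩)
    · exact ⟨i, Or.inl hi.symm⟩
    · exact ⟨i, Or.inr hi.symm⟩
  · rintro ⟨i, hi | hi⟩
    · exact Or.inl ⟨i, hi.symm⟩
    · exact Or.inr ⟨i, hi.symm⟩

lemma Tb_Aw (R : ℝ) {N : ℕ} (w : Fin N → ℂ) : Tb R (Aw w) = Tw R w := by
  ext x
  simp only [Tb, Tw, mem_ofPred_eq]
  constructor
  · rintro ⟨h1, h2⟩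
    refine ⟨h1, fun i => ?_⟩
    have h3 := h2 (w i) ((mem_Aw w _).2 ⟨i, Or.inl rfl⟩)
    have h4 := h2 (-w i) ((mem_Aw w _).2 ⟨i, Or.inr rfl⟩)
    rw [ip_neg_left] at h4
    rw [abs_le]
    constructor <;> linarith
  · rintro ⟨h1, h2⟩
    refine ⟨h1, fun a ha => ?_⟩
    obtain ⟨i, rfl | rfl⟩ := (mem_Aw w a).1 ha
    · exact (abs_le.1 (h2 i)).2
    · rw [ip_neg_left]
      linarith [(abs_le.1 (h2 i)).1]

lemma neg_mem_Tw {R : ℝ} {N : ℕ} {w : Fin N → ℂ} {x : ℂ} (hx : x ∈ Tw R w) : -x ∈ Tw R w := by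
  refine ⟨?_, fun i => ?_⟩
  · rw [ip_neg_left, ip_neg_right, neg_neg]
    exact hx.1
  · rw [ip_neg_right, abs_neg]
    exact hx.2 i

/-- Exchange of the two bodies. -/
lemma IsMx.swap {R : ℝ} {N : ℕ} {w : Fin N → ℂ} {K L : Set ℂ} (h : IsMx R w K L) :
    IsMx R w L K := by
  have hA : ∀ (w' : Fin N → ℂ) (K' L' : Set ℂ), Adm R w' K' L' → Adm R w' L' K' := by
    rintro w' K' L' ⟨h1, h2, h3, h4, h5⟩
    exact ⟨h2, h1, h4, h3, fun x hx y hy => by rw [ip_comm]; exact h5 y hy x hx⟩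
  have hP : ∀ (w' : Fin N → ℂ) (K' L' : Set ℂ), Phi R w' K' L' = Phi R w' L' K' := by
    intro w' K' L'
    unfold Phi
    rw [mul_comm]
  refine ⟨hA _ _ _ h.adm, ?_, ?_⟩
  · rw [hP]
    exact h.pos
  · intro w' K' L' h'
    rw [hP w' K' L', hP w L K]
    exact h.max _ _ _ (hA _ _ _ h')

/-- The statement of `rot` for one pair. -/
def RotS (R : ℝ) {N : ℕ} (w : Fin N → ℂ) (K L : Set ℂ) : Prop :=
  ∀ (i : Fin N) (a : ℂ), (a = w i ∨ a = -w i) → ∀ ε : ℝ, ε ^ 2 = 1 → ∀ σ l : ℝ, 0 < σ →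
    pt ε a σ ∈ Tw R w → (∀ s, pt ε a s ∈ Tw R w → σ ≤ s) → σ ^ 2 < ip a a - 1 →
    pt ε a l ∈ L → ip a a - 1 < l ^ 2 → (∀ x ∈ K, ip a x ≠ 1) → False

/-- The data of a polar maximizer. -/
theorem dat_of_max {R : ℝ} (hR : 1 ≤ R) {N : ℕ} {w : Fin N → ℂ} {K L : Set ℂ}
    (hK : K = {x | x ∈ Tw R w ∧ ∀ y ∈ L, |ip x y| ≤ 1})
    (hL : L = {y | y ∈ Tw R w ∧ ∀ x ∈ K, |ip x y| ≤ 1})
    (two : ∀ i : Fin N, ∃ x ∈ Tw R w, ∃ y ∈ Tw R w, x ≠ y ∧ ip (w i) x = 1 ∧ ip (w i) y = 1 ∧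
      ip x x < 1 ∧ ip y y < 1)
    (rKL : RotS R w K L) (rLK : RotS R w L K) : Dat R (Aw w) K L := by
  have symK : ∀ x ∈ K, -x ∈ K := by
    intro x hx
    rw [hK] at hx ⊢
    refine ⟨neg_mem_Tw hx.1, fun y hy => ?_⟩
    rw [ip_neg_left, abs_neg]
    exact hx.2 y hy
  have symL : ∀ x ∈ L, -x ∈ L := by
    intro x hx
    rw [hL] at hx ⊢
    refine ⟨neg_mem_Tw hx.1, fun y hy => ?_⟩
    rw [ip_neg_right, abs_neg]
    exact hx.2 y hy
  refine
    { hR := hR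
      sym := ?_
      symK := symK
      symL := symL
      fK := ?_
      fL := ?_
      f2 := ?_
      f3K := ?_
      f3L := ?_ }
  · intro a ha
    rw [mem_Aw] at ha ⊢
    obtain ⟨i, rfl | rfl⟩ := ha
    · exact ⟨i, Or.inr rfl⟩
    · exact ⟨i, Or.inl (neg_neg _)⟩
  · rw [Tb_Aw]
    ext x
    constructor
    · intro hx
      have hx' := hx
      rw [hK] at hx'
      exact ⟨hx'.1, fun y hy => (abs_le.1 (hx'.2 y hy)).2⟩
    · rintro ⟨h1, h2⟩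
      rw [hK]
      refine ⟨h1, fun y hy => ?_⟩
      have h3 := h2 _ (symL y hy)
      rw [ip_neg_right] at h3
      rw [abs_le]
      exact ⟨by linarith, h2 y hy⟩
  · rw [Tb_Aw]
    ext y
    constructor
    · intro hy
      have hy' := hy
      rw [hL] at hy'
      exact ⟨hy'.1, fun x hx => (abs_le.1 (hy'.2 x hx)).2⟩
    · rintro ⟨h1, h2⟩
      rw [hL]
      refine ⟨h1, fun x hx => ?_⟩
      have h3 := h2 _ (symK x hx)
      rw [ip_neg_left] at h3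
      rw [abs_le]
      exact ⟨by linarith, h2 x hx⟩
  · intro a ha
    rw [Tb_Aw]
    obtain ⟨i, rfl | rfl⟩ := (mem_Aw w a).1 ha
    · exact two i
    · obtain ⟨x, hx, y, hy, hxy, h1, h2, h3, h4⟩ := two i
      refine ⟨-x, neg_mem_Tw hx, -y, neg_mem_Tw hy, fun h => hxy (neg_injective h), ?_, ?_, ?_,
        ?_⟩
      · rw [ip_neg_left, ip_neg_right, neg_neg]
        exact h1
      · rw [ip_neg_left, ip_neg_right, neg_neg]
        exact h2
      · rw [ip_neg_left, ip_neg_right, neg_neg]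
        exact h3
      · rw [ip_neg_left, ip_neg_right, neg_neg]
        exact h4
  · intro a ha ε hε σ l hσ
    rw [Tb_Aw]
    obtain ⟨i, hi⟩ := (mem_Aw w a).1 ha
    exact rKL i a hi ε hε σ l hσ
  · intro a ha ε hε σ l hσ
    rw [Tb_Aw]
    obtain ⟨i, hi⟩ := (mem_Aw w a).1 ha
    exact rLK i a hi ε hε σ l hσ

end Pool.Agent.H82.Cor
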